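import Mathlib

/-!
Definitions for MP_5f73cf_lc: rational subsets of a monoid, rational transductions, the rational
cone generated by a language, the morphisms `h_n` and the languages `G_n`.
-/

open scoped Pointwise

namespace Pool.H80.Cone

/-- The rational subsets of a monoid: the smallest family that contains the finite sets (here: the
empty set and the singletons) and is closed under union, product and star (generated submonoid). -/
inductive IsRational {N : Type} [Monoid N] : Set N → Prop
  | empty : IsRational ∅
  | singleton (a : N) : IsRational {a}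
  | union {A B : Set N} : IsRational A → IsRational B → IsRational (A ∪ B)
  | mul {A B : Set N} : IsRational A → IsRational B → IsRational (A * B)
  | star {A : Set N} : IsRational A → IsRational (Submonoid.closure A : Set N)

/-- The image `τ(L) = {v : (u,v) ∈ τ, u ∈ L}` of a language under a relation
`τ ⊆ X^* × Y^*`. -/
def image {X Y : Type} (τ : Set (FreeMonoid X × FreeMonoid Y)) (L : Language X) : Language Y :=
  {v | ∃ u : List X, u ∈ L ∧ (FreeMonoid.ofList u, FreeMonoid.ofList v) ∈ τ}

/-- `L'` belongs to the rational cone `T(L)` generated by `L`: it is the image of `L` under a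
rational transduction, that is, under a rational subset `τ` of the monoid `X^* × Y^*`. -/
def InCone {X Y : Type} (L : Language X) (L' : Language Y) : Prop :=
  ∃ τ : Set (FreeMonoid X × FreeMonoid Y), IsRational τ ∧ L' = image τ L

/-- The image `b_i b_{i-1} ... b_0` of the letter `b_i` under `h_n`; the letters of `X_n` are the
elements of `Fin (n + 1)`. -/
def hLetter (n : ℕ) (i : Fin (n + 1)) : List (Fin (n + 1)) :=
  ((List.finRange (n + 1)).filter (· ≤ i)).reverse

/-- The morphism `h_n` of `X_n^*`. -/
def h (n : ℕ) (w : List (Fin (n + 1))) : List (Fin (n + 1)) := w.flatMap (hLetter n)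

/-- The language `{h_n^i(b_n) : i ≥ 1}`. -/
def Gbar (n : ℕ) : Language (Fin (n + 1)) :=
  {w | ∃ i : ℕ, 1 ≤ i ∧ w = (h n)^[i] [Fin.last n]}

/-- The language `G_n`, the complement of `Gbar n` in `X_n^*`. -/
def G (n : ℕ) : Language (Fin (n + 1)) := (Gbar n)ᶜ

example : hLetter 3 2 = [2, 1, 0] := by decide
example : (h 2)^[3] [2] = [2, 1, 0, 1, 0, 0, 1, 0, 0, 0] := by decide

end Pool.H80.Cone
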