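import Mathlib

/-!
Drifting configurations: finitely many particles on the line, moving slowly to the right; every
particle has an ancestor at every earlier time.
-/

namespace Pool.H80.Cone

/-- A drifting configuration. -/
structure Drift (Q : Type) where
  n : ℕ
  live : ℕ → Q → Prop
  pos : ℕ → Q → ℕ
  C : ℕ
  anc : ∀ {s t : ℕ} {q : Q}, s ≤ t → t ≤ n → live t q →
    ∃ p, live s p ∧ pos s p ≤ pos t q ∧ pos t q ≤ pos s p + C * (t - s + 1)

namespace Drift

variable {Q : Type} (D : Drift Q)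

/-- at time `t` any two live particles are at distance at most `I` or at least `N` -/
def Dich (t I N : ℕ) : Prop :=
  ∀ q q', D.live t q → D.live t q' → D.pos t q ≤ D.pos t q' + I ∨ D.pos t q' + N ≤ D.pos t q

/-- at time `t` there are two live particles at distance in `[x, y)` -/
def Med (t x y : ℕ) : Prop :=
  ∃ q q', D.live t q ∧ D.live t q' ∧ D.pos t q' + x ≤ D.pos t q ∧ D.pos t q < D.pos t q' + y

variable {D}

theorem Med.persist {s t x y x' y' : ℕ} (h : D.Med t x y) (hst : s ≤ t) (ht : t ≤ D.n)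
    (hx : x' + D.C * (t - s + 1) ≤ x) (hy : y + D.C * (t - s + 1) ≤ y') : D.Med s x' y' := by
  obtain ⟨q, q', h1, h2, h3, h4⟩ := h
  obtain ⟨p, k1, k2, k3⟩ := D.anc hst ht h1
  obtain ⟨p', l1, l2, l3⟩ := D.anc hst ht h2
  exact ⟨p, p', k1, l1, by omega, by omega⟩

theorem not_dich {t I N : ℕ} (h : ¬ D.Dich t I N) : D.Med t (I + 1) N := by
  unfold Dich at h
  push Not at h
  obtain ⟨q, q', h1, h2, h3, h4⟩ := h
  exact ⟨q, q', h1, h2, by omega, by omega⟩

variable (D)

/-- ancestor at time `a` -/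
noncomputable def name (a t : ℕ) (q : Q) : Q :=
  open Classical in
  if h : a ≤ t ∧ t ≤ D.n ∧ D.live t q then (D.anc h.1 h.2.1 h.2.2).choose else q

theorem name_spec {a t : ℕ} {q : Q} (h1 : a ≤ t) (h2 : t ≤ D.n) (h3 : D.live t q) :
    D.live a (D.name a t q) ∧ D.pos a (D.name a t q) ≤ D.pos t q ∧
      D.pos t q ≤ D.pos a (D.name a t q) + D.C * (t - a + 1) := by
  unfold name
  rw [dif_pos ⟨h1, h2, h3⟩]
  exact (D.anc h1 h2 h3).choose_spec

/-- `s` and `t` look the same in the window starting at `a` -/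
structure Same (a I s t : ℕ) : Prop where
  live : ∀ q, D.live s q ↔ D.live t q
  name : ∀ q, D.name a s q = D.name a t q
  diff : ∀ q q', min (D.pos s q - D.pos s q') (I + 1) = min (D.pos t q - D.pos t q') (I + 1)

variable {D}

theorem Same.symm {a I s t : ℕ} (h : D.Same a I s t) : D.Same a I t s :=
  ⟨fun q => (h.live q).symm, fun q => (h.name q).symm, fun q q' => (h.diff q q').symm⟩

theorem Same.trans {a I s t r : ℕ} (h : D.Same a I s t) (h' : D.Same a I t r) : D.Same a I s r :=
  ⟨fun q => (h.live q).trans (h'.live q), fun q => (h.name q).trans (h'.name q),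
    fun q q' => (h.diff q q').trans (h'.diff q q')⟩

theorem Same.close {a I s t w : ℕ} (h : D.Same a I s t) (has : a ≤ s) (hat : a ≤ t)
    (hs : s ≤ a + w) (ht : t ≤ a + w) (hn : a + w ≤ D.n) {q : Q} (hq : D.live s q) :
    D.pos t q ≤ D.pos s q + D.C * (w + 1) := by
  have hq' := (h.live q).1 hq
  obtain ⟨-, h1, h2⟩ := D.name_spec has (by omega) hq
  obtain ⟨-, h3, h4⟩ := D.name_spec hat (by omega) hq'
  rw [← h.name q] at h3 h4
  have : D.C * (t - a + 1) ≤ D.C * (w + 1) := Nat.mul_le_mul_left _ (by omega)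
  omega

theorem Same.diff_eq {a I s t : ℕ} (h : D.Same a I s t) {q q' : Q}
    (h1 : D.pos s q ≤ D.pos s q' + I) (h2 : D.pos s q' ≤ D.pos s q + I) :
    D.pos s q + D.pos t q' = D.pos t q + D.pos s q' := by
  have h3 := h.diff q q'
  have h4 := h.diff q' q
  omega

section window

variable {a I N s t w : ℕ}

theorem Same.anc_near (h : D.Same a I s t) (has : a ≤ s) (hst : s ≤ t) (ht : t ≤ a + w)
    (hn : a + w ≤ D.n) (hD : D.Dich s I N) (hN : 2 * D.C * (w + 1) < N) {q p : Q}
    (hq : D.live s q) (hp : D.live s p) (h1 : D.pos s p ≤ D.pos t q)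
    (h2 : D.pos t q ≤ D.pos s p + D.C * (t - s + 1)) :
    D.pos s p ≤ D.pos s q + I ∧ D.pos s q ≤ D.pos s p + I := by
  have h3 := h.close has (by omega) (by omega) ht hn hq
  have h4 := h.symm.close (by omega) has ht (by omega) hn ((h.live q).1 hq)
  have : D.C * (t - s + 1) ≤ D.C * (w + 1) := Nat.mul_le_mul_left _ (by omega)
  have e : 2 * D.C * (w + 1) = 2 * (D.C * (w + 1)) := by ring
  rw [e] at hN
  rcases hD q p hq hp with h5 | h5 <;> rcases hD p q hp hq with h6 | h6 <;> omega

theorem Same.upper (h : D.Same a I s t) (has : a ≤ s) (hst : s ≤ t) (ht : t ≤ a + w)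
    (hn : a + w ≤ D.n) (hD : D.Dich s I N) (hN : 2 * D.C * (w + 1) < N) {q : Q}
    (hq : D.live s q) : D.pos t q ≤ D.pos s q + (I + D.C * (t - s + 1)) := by
  obtain ⟨p, k1, k2, k3⟩ := D.anc hst (by omega) ((h.live q).1 hq)
  have := h.anc_near has hst ht hn hD hN hq k1 k2 k3
  omega

theorem Same.mono [Finite Q] (h : D.Same a I s t) (has : a ≤ s) (hst : s ≤ t) (ht : t ≤ a + w)
    (hn : a + w ≤ D.n) (hD : D.Dich s I N) (hN : 2 * D.C * (w + 1) < N) (hI : 2 * I < N) {q : Q}
    (hq : D.live s q) : D.pos s q ≤ D.pos t q := by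
  -- the lowest particle of the cluster of `q`
  obtain ⟨q0, ⟨hq0, hq1, hq2⟩, hmin⟩ := Set.exists_min_image
    {q' | D.live s q' ∧ D.pos s q' ≤ D.pos s q + I ∧ D.pos s q ≤ D.pos s q' + I} (D.pos s)
    (Set.toFinite _) ⟨q, hq, by omega, by omega⟩
  obtain ⟨p, k1, k2, k3⟩ := D.anc hst (by omega) ((h.live q0).1 hq0)
  have h1 := h.anc_near has hst ht hn hD hN hq0 k1 k2 k3
  have h2 : D.pos s p ≤ D.pos s q + I ∧ D.pos s q ≤ D.pos s p + I := by
    rcases hD q p hq k1 with h5 | h5 <;> rcases hD p q k1 hq with h6 | h6 <;> omega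
  have h3 := hmin p ⟨k1, h2.1, h2.2⟩
  have h4 := h.diff_eq hq1 hq2
  omega

end window

/-- Window selection: at some scale all distances are small or large during a long window. -/
theorem exists_window {QL QR : Type} [Finite QL] [Finite QR] (L : Drift QL) (R : Drift QR)
    (hnLR : L.n = R.n) (hC : L.C = R.C) {b K : ℕ} (hK : 4 ≤ K) (hb : 4 * L.C + 4 ≤ b)
    (M : ℕ) (hM : Nat.card QL ^ 2 + Nat.card QR ^ 2 < M) (hn : b ^ (K ^ M) ≤ L.n) :
    ∃ r a, r < M ∧ b ^ (K ^ r) ≤ a ∧ a + b ^ (K ^ (r + 1)) ≤ L.n + b ^ (K ^ r) ∧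
      ∀ t, a ≤ t → t + 2 * b ^ (K ^ r) ≤ a + b ^ (K ^ (r + 1)) →
        L.Dich t (b ^ (K ^ r + 1)) (b ^ (K ^ (r + 1) - 1)) ∧
        R.Dich (L.n - t) (b ^ (K ^ r + 1)) (b ^ (K ^ (r + 1) - 1)) := by
  by_contra hcon
  push Not at hcon
  -- nested windows
  have key : ∀ i, i ≤ M → ∃ a, a + b ^ (K ^ (M - i)) ≤ L.n ∧
      ∀ t, a ≤ t → t ≤ a + b ^ (K ^ (M - i)) → ∀ j, j < i →
        L.Med t (b ^ (K ^ (M - (j + 1)))) (b ^ (K ^ (M - j))) ∨
        R.Med (L.n - t) (b ^ (K ^ (M - (j + 1)))) (b ^ (K ^ (M - j))) := by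
    intro i
    induction i with
    | zero =>
      intro _
      exact ⟨0, by simpa using hn, fun t _ _ j hj => by omega⟩
    | succ i ih =>
      intro hi
      obtain ⟨a, ha, hmed⟩ := ih (by omega)
      obtain ⟨r, hr⟩ : ∃ r, r = M - (i + 1) := ⟨_, rfl⟩
      have hr1 : M - i = r + 1 := by omega
      rw [hr1] at ha hmed
      rw [← hr]
      obtain ⟨δ, hδ⟩ : ∃ δ, δ = b ^ (K ^ r) := ⟨_, rfl⟩
      obtain ⟨t, h1, h2, h3⟩ := hcon r (a + δ) (by omega) (by rw [hδ]; omega) (by rw [← hδ]; omega)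
      rw [← hδ] at h2
      -- arithmetic
      have hpos : 0 < b := by omega
      have hKr : 1 ≤ K ^ r := Nat.one_le_pow _ _ (by omega)
      have hKr1 : K ^ r + 3 ≤ K ^ (r + 1) := by
        rw [pow_succ]
        calc K ^ r + 3 ≤ K ^ r * 4 := by omega
          _ ≤ K ^ r * K := Nat.mul_le_mul_left _ hK
      have hδ1 : 1 ≤ δ := by rw [hδ]; exact Nat.one_le_pow _ _ hpos
      have hI : b ^ (K ^ r + 1) = δ * b := by rw [hδ, pow_succ]
      obtain ⟨N, hN⟩ : ∃ N, N = b ^ (K ^ (r + 1) - 1) := ⟨_, rfl⟩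
      have hN1 : b ^ (K ^ (r + 1)) = N * b := by
        rw [hN, ← pow_succ]; congr 1; omega
      have hN2 : δ * b ≤ N := by
        rw [hN, ← hI]; exact Nat.pow_le_pow_right hpos (by omega)
      have hbC : L.C * (δ + 1) ≤ δ * b - δ - 1 := by
        have e1 : δ * (4 * L.C + 4) ≤ δ * b := Nat.mul_le_mul_left _ hb
        have e2 : δ * (4 * L.C + 4) = 4 * (L.C * δ) + 4 * δ := by ring
        have e3 : L.C * (δ + 1) = L.C * δ + L.C := by ring
        have e4 : L.C ≤ L.C * δ := Nat.le_mul_of_pos_right _ hδ1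
        omega
      have hδb : 4 * δ ≤ δ * b := by
        rw [Nat.mul_comm]; exact Nat.mul_le_mul_left _ (by omega)
      have hNb : N * 4 ≤ N * b := Nat.mul_le_mul_left _ (by omega)
      have hM1 : M - (i + 1) = r := hr.symm
      by_cases hL : L.Dich t (b ^ (K ^ r + 1)) (b ^ (K ^ (r + 1) - 1))
      · -- the pair is in `R`
        have hR := not_dich (h3 hL)
        refine ⟨t, by omega, ?_⟩
        intro s hs1 hs2 j hj
        rcases Nat.lt_or_ge j i with hji | hji
        · exact hmed s (by omega) (by omega) j hji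
        · have : j = i := by omega
          subst this
          right
          rw [hM1, hr1, ← hδ, hN1]
          rw [hI, ← hN] at hR
          refine hR.persist (by omega) (by omega) ?_ ?_
          · have e1 : R.C * (L.n - t - (L.n - s) + 1) ≤ L.C * (δ + 1) := by
              rw [hC]; exact Nat.mul_le_mul_left _ (by omega)
            omega
          · have e1 : R.C * (L.n - t - (L.n - s) + 1) ≤ L.C * (δ + 1) := by
              rw [hC]; exact Nat.mul_le_mul_left _ (by omega)
            omega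
      · have hL' := not_dich hL
        refine ⟨t - δ, by omega, ?_⟩
        intro s hs1 hs2 j hj
        rcases Nat.lt_or_ge j i with hji | hji
        · exact hmed s (by omega) (by omega) j hji
        · have : j = i := by omega
          subst this
          left
          rw [hM1, hr1, ← hδ, hN1]
          rw [hI, ← hN] at hL'
          refine hL'.persist (by omega) (by omega) ?_ ?_
          · have e1 : L.C * (t - s + 1) ≤ L.C * (δ + 1) := Nat.mul_le_mul_left _ (by omega)
            omega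
          · have e1 : L.C * (t - s + 1) ≤ L.C * (δ + 1) := Nat.mul_le_mul_left _ (by omega)
            omega
  -- pigeonhole
  obtain ⟨a, ha, hmed⟩ := key M le_rfl
  have hmed := hmed a le_rfl (by omega)
  have hpos : 0 < b := by omega
  have hmono : ∀ i j, i < j → j ≤ M → b ^ (K ^ (M - j)) ≤ b ^ (K ^ (M - (i + 1))) := by
    intro i j hij hj
    exact Nat.pow_le_pow_right hpos (Nat.pow_le_pow_right (by omega) (by omega))
  have hch : ∀ j : Fin M, ∃ x : (QL × QL) ⊕ (QR × QR), match x with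
      | .inl (q, q') => L.pos a q' + b ^ (K ^ (M - (j + 1))) ≤ L.pos a q ∧
          L.pos a q < L.pos a q' + b ^ (K ^ (M - j))
      | .inr (q, q') => R.pos (L.n - a) q' + b ^ (K ^ (M - (j + 1))) ≤ R.pos (L.n - a) q ∧
          R.pos (L.n - a) q < R.pos (L.n - a) q' + b ^ (K ^ (M - j)) := by
    intro j
    rcases hmed j j.2 with ⟨q, q', -, -, h1, h2⟩ | ⟨q, q', -, -, h1, h2⟩
    · exact ⟨.inl (q, q'), h1, h2⟩
    · exact ⟨.inr (q, q'), h1, h2⟩
  choose f hf using hch
  have hinj : Function.Injective f := by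
    have hlt : ∀ i j : Fin M, i < j → f i ≠ f j := by
      intro i j hij heq
      have h1 := hf i
      have h2 := hf j
      rw [heq] at h1
      have h3 := hmono i j hij j.2.le
      rcases hfj : f j with ⟨q, q'⟩ | ⟨q, q'⟩
      · rw [hfj] at h1 h2
        simp only at h1 h2
        omega
      · rw [hfj] at h1 h2
        simp only at h1 h2
        omega
    intro i j hij
    rcases lt_trichotomy i j with h | h | h
    · exact absurd hij (hlt i j h)
    · exact h
    · exact absurd hij.symm (hlt j i h)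
  have := Nat.card_le_card_of_injective f hinj
  rw [Nat.card_sum, Nat.card_prod, Nat.card_prod, Nat.card_eq_fintype_card, Fintype.card_fin] at this
  rw [sq, sq] at hM
  omega

end Drift

end Pool.H80.Cone
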