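import Mathlib
import Pool.Agent.H80.ConeDefs

/-!
Finite transducers for rational relations.
-/

open scoped Pointwise

namespace Pool.H80.Cone

/-- A finite transducer with letter-by-letter moves. -/
structure Trans (X Y : Type) where
  Q : Type
  finQ : Finite Q
  I : Set Q
  F : Set Q
  sX : Q → X → Q → Prop
  sY : Q → Y → Q → Prop
  sE : Q → Q → Prop

namespace Trans

variable {X Y : Type}

/-- Paths of a transducer, labelled by a pair of words. -/
inductive Path (A : Trans X Y) : A.Q → List X → List Y → A.Q → Prop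
  | nil (q : A.Q) : Path A q [] [] q
  | x {q a q' u v r} : A.sX q a q' → Path A q' u v r → Path A q (a :: u) v r
  | y {q b q' u v r} : A.sY q b q' → Path A q' u v r → Path A q u (b :: v) r
  | e {q q' u v r} : A.sE q q' → Path A q' u v r → Path A q u v r

variable {A : Trans X Y}

theorem Path.inv {q u v r} (h : A.Path q u v r) : (q = r ∧ u = [] ∧ v = []) ∨
    (∃ a q' u', u = a :: u' ∧ A.sX q a q' ∧ A.Path q' u' v r) ∨
    (∃ b q' v', v = b :: v' ∧ A.sY q b q' ∧ A.Path q' u v' r) ∨
    (∃ q', A.sE q q' ∧ A.Path q' u v r) := by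
  cases h with
  | nil => exact Or.inl ⟨rfl, rfl, rfl⟩
  | x hs hp => exact Or.inr (Or.inl ⟨_, _, _, rfl, hs, hp⟩)
  | y hs hp => exact Or.inr (Or.inr (Or.inl ⟨_, _, _, rfl, hs, hp⟩))
  | e hs hp => exact Or.inr (Or.inr (Or.inr ⟨_, hs, hp⟩))

theorem Path.trans {q u v p u' v' r} (h : A.Path q u v p) (h' : A.Path p u' v' r) :
    A.Path q (u ++ u') (v ++ v') r := by
  induction h with
  | nil q => simpa using h'
  | x hs _ ih => exact Path.x hs (ih h')
  | y hs _ ih => exact Path.y hs (ih h')
  | e hs _ ih => exact Path.e hs (ih h')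

/-- Splitting a path at a position of the `Y`-word. -/
theorem Path.splitY {q u v r} (h : A.Path q u v r) :
    ∀ v1 v2, v = v1 ++ v2 → ∃ p u1 u2, u = u1 ++ u2 ∧ A.Path q u1 v1 p ∧ A.Path p u2 v2 r := by
  induction h with
  | nil q =>
    intro v1 v2 hv
    have h1 : v1 = [] := by
      cases v1 with
      | nil => rfl
      | cons a t => simp at hv
    have h2 : v2 = [] := by
      subst h1; simpa using hv.symm
    subst h1 h2
    exact ⟨q, [], [], rfl, Path.nil q, Path.nil q⟩
  | x hs _ ih =>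
    intro v1 v2 hv
    obtain ⟨p, u1, u2, hu, h1, h2⟩ := ih v1 v2 hv
    exact ⟨p, _ :: u1, u2, by simp [hu], Path.x hs h1, h2⟩
  | @y q b q' u v r hs hp ih =>
    intro v1 v2 hv
    cases v1 with
    | nil =>
      refine ⟨q, [], u, rfl, Path.nil q, ?_⟩
      simp at hv
      subst hv
      exact Path.y hs hp
    | cons c t =>
      simp only [List.cons_append, List.cons.injEq] at hv
      obtain ⟨rfl, hv⟩ := hv
      obtain ⟨p, u1, u2, hu, h1, h2⟩ := ih t v2 hv
      exact ⟨p, u1, u2, hu, Path.y hs h1, h2⟩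
  | e hs _ ih =>
    intro v1 v2 hv
    obtain ⟨p, u1, u2, hu, h1, h2⟩ := ih v1 v2 hv
    exact ⟨p, u1, u2, hu, Path.e hs h1, h2⟩

/-- Splitting a path at a position of the `X`-word. -/
theorem Path.splitX {q u v r} (h : A.Path q u v r) :
    ∀ u1 u2, u = u1 ++ u2 → ∃ p v1 v2, v = v1 ++ v2 ∧ A.Path q u1 v1 p ∧ A.Path p u2 v2 r := by
  induction h with
  | nil q =>
    intro v1 v2 hv
    have h1 : v1 = [] := by
      cases v1 with
      | nil => rfl
      | cons a t => simp at hv
    have h2 : v2 = [] := by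
      subst h1; simpa using hv.symm
    subst h1 h2
    exact ⟨q, [], [], rfl, Path.nil q, Path.nil q⟩
  | y hs _ ih =>
    intro v1 v2 hv
    obtain ⟨p, u1, u2, hu, h1, h2⟩ := ih v1 v2 hv
    exact ⟨p, _ :: u1, u2, by simp [hu], Path.y hs h1, h2⟩
  | @x q b q' u v r hs hp ih =>
    intro u1 u2 hu
    cases u1 with
    | nil =>
      refine ⟨q, [], v, rfl, Path.nil q, ?_⟩
      simp at hu
      subst hu
      exact Path.x hs hp
    | cons c t =>
      simp only [List.cons_append, List.cons.injEq] at hu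
      obtain ⟨rfl, hu⟩ := hu
      obtain ⟨p, v1, v2, hv, h1, h2⟩ := ih t u2 hu
      exact ⟨p, v1, v2, hv, Path.x hs h1, h2⟩
  | e hs _ ih =>
    intro v1 v2 hv
    obtain ⟨p, u1, u2, hu, h1, h2⟩ := ih v1 v2 hv
    exact ⟨p, u1, u2, hu, Path.e hs h1, h2⟩

/-- The relation recognised by a transducer. -/
def rel (A : Trans X Y) : Set (FreeMonoid X × FreeMonoid Y) :=
  {w | ∃ i ∈ A.I, ∃ f ∈ A.F, A.Path i w.1.toList w.2.toList f}

/-- the empty relation -/
theorem exists_empty : ∃ A : Trans X Y, A.rel = ∅ := by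
  refine ⟨⟨Unit, inferInstance, ∅, ∅, fun _ _ _ => False, fun _ _ _ => False,
    fun _ _ => False⟩, ?_⟩
  ext w
  simp [rel]

/-- the trivial relation -/
theorem exists_one : ∃ A : Trans X Y, A.rel = {1} := by
  refine ⟨⟨Unit, inferInstance, Set.univ, Set.univ, fun _ _ _ => False, fun _ _ _ => False,
    fun _ _ => False⟩, ?_⟩
  ext w
  constructor
  · rintro ⟨i, -, f, -, hp⟩
    generalize h1 : FreeMonoid.toList w.1 = u at hp
    generalize h2 : FreeMonoid.toList w.2 = v at hp
    cases hp with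
    | nil => 
      have e1 : w.1 = 1 := FreeMonoid.toList.injective (by simpa using h1)
      have e2 : w.2 = 1 := FreeMonoid.toList.injective (by simpa using h2)
      exact Prod.ext e1 e2
    | x hs _ => exact hs.elim
    | y hs _ => exact hs.elim
    | e hs _ => exact hs.elim
  · rintro rfl
    exact ⟨(), trivial, (), trivial, Path.nil _⟩

theorem exists_letterX (a : X) : ∃ A : Trans X Y, A.rel = {(FreeMonoid.of a, 1)} := by
  refine ⟨⟨Bool, inferInstance, {false}, {true}, fun p c q => p = false ∧ c = a ∧ q = true,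
    fun _ _ _ => False, fun _ _ => False⟩, ?_⟩
  ext w
  constructor
  · rintro ⟨i, hi, f, hf, hp⟩
    have hi : i = false := hi
    have hf : f = true := hf
    rcases hp.inv with ⟨h1, -, -⟩ | ⟨c, q', u', hu, ⟨-, rfl, rfl⟩, hp'⟩ | ⟨_, _, _, _, hs, _⟩ | ⟨_, hs, _⟩
    · rw [hi, hf] at h1; exact absurd h1 (by simp)
    · rcases hp'.inv with ⟨-, h1, h2⟩ | ⟨c, q', u', _, ⟨h3, _, _⟩, _⟩ | ⟨_, _, _, _, hs, _⟩ | ⟨_, hs, _⟩
      · have e1 : w.1 = FreeMonoid.of _ := FreeMonoid.toList.injective (by simpa [h1] using hu)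
        have e2 : w.2 = 1 := FreeMonoid.toList.injective (by simpa using h2)
        exact Prod.ext e1 e2
      · exact absurd h3 (by simp)
      · exact hs.elim
      · exact hs.elim
    · exact hs.elim
    · exact hs.elim
  · rintro rfl
    exact ⟨false, rfl, true, rfl, Path.x ⟨rfl, rfl, rfl⟩ (Path.nil _)⟩

theorem exists_letterY (a : Y) : ∃ A : Trans X Y, A.rel = {(1, FreeMonoid.of a)} := by
  refine ⟨⟨Bool, inferInstance, {false}, {true}, fun _ _ _ => False,
    fun p c q => p = false ∧ c = a ∧ q = true, fun _ _ => False⟩, ?_⟩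
  ext w
  constructor
  · rintro ⟨i, hi, f, hf, hp⟩
    have hi : i = false := hi
    have hf : f = true := hf
    rcases hp.inv with ⟨h1, -, -⟩ | ⟨_, _, _, _, hs, _⟩ | ⟨c, q', u', hu, ⟨-, rfl, rfl⟩, hp'⟩ | ⟨_, hs, _⟩
    · rw [hi, hf] at h1; exact absurd h1 (by simp)
    · exact hs.elim
    · rcases hp'.inv with ⟨-, h1, h2⟩ | ⟨_, _, _, _, hs, _⟩ | ⟨c, q', u', _, ⟨h3, _, _⟩, _⟩ | ⟨_, hs, _⟩
      · have e1 : w.1 = 1 := FreeMonoid.toList.injective (by simpa using h1)
        have e2 : w.2 = FreeMonoid.of _ := FreeMonoid.toList.injective (by simpa [h2] using hu)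
        exact Prod.ext e1 e2
      · exact hs.elim
      · exact absurd h3 (by simp)
      · exact hs.elim
    · exact hs.elim
  · rintro rfl
    exact ⟨false, rfl, true, rfl, Path.y ⟨rfl, rfl, rfl⟩ (Path.nil _)⟩

/-- disjoint union of two transducers, with extra ε-moves given by `j` from the first to the
second -/
def sum (A B : Trans X Y) (I F : Set (A.Q ⊕ B.Q)) (j : A.Q → B.Q → Prop) : Trans X Y where
  Q := A.Q ⊕ B.Q
  finQ := by
    have := A.finQ
    have := B.finQ
    infer_instance
  I := I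
  F := F
  sX p c q := match p, q with
    | .inl p, .inl q => A.sX p c q
    | .inr p, .inr q => B.sX p c q
    | _, _ => False
  sY p c q := match p, q with
    | .inl p, .inl q => A.sY p c q
    | .inr p, .inr q => B.sY p c q
    | _, _ => False
  sE p q := match p, q with
    | .inl p, .inl q => A.sE p q
    | .inr p, .inr q => B.sE p q
    | .inl p, .inr q => j p q
    | _, _ => False

section sum

variable {B : Trans X Y} {I F : Set (A.Q ⊕ B.Q)} {j : A.Q → B.Q → Prop}

theorem sum_inl {p u v q} (h : A.Path p u v q) : (A.sum B I F j).Path (Sum.inl p) u v (Sum.inl q) := by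
  induction h with
  | nil q => exact Path.nil _
  | @x q a q' u v r hs _ ih =>
    exact Path.x (show (A.sum B I F j).sX (Sum.inl q) a (Sum.inl q') from hs) ih
  | @y q a q' u v r hs _ ih =>
    exact Path.y (show (A.sum B I F j).sY (Sum.inl q) a (Sum.inl q') from hs) ih
  | @e q q' u v r hs _ ih =>
    exact Path.e (show (A.sum B I F j).sE (Sum.inl q) (Sum.inl q') from hs) ih

theorem sum_inr {p u v q} (h : B.Path p u v q) : (A.sum B I F j).Path (Sum.inr p) u v (Sum.inr q) := by
  induction h with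
  | nil q => exact Path.nil _
  | @x q a q' u v r hs _ ih =>
    exact Path.x (show (A.sum B I F j).sX (Sum.inr q) a (Sum.inr q') from hs) ih
  | @y q a q' u v r hs _ ih =>
    exact Path.y (show (A.sum B I F j).sY (Sum.inr q) a (Sum.inr q') from hs) ih
  | @e q q' u v r hs _ ih =>
    exact Path.e (show (A.sum B I F j).sE (Sum.inr q) (Sum.inr q') from hs) ih

theorem sum_of_inr {s u v t} (h : (A.sum B I F j).Path s u v t) :
    ∀ p, s = Sum.inr p → ∃ q, t = Sum.inr q ∧ B.Path p u v q := by
  induction h with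
  | nil q => rintro p rfl; exact ⟨p, rfl, Path.nil _⟩
  | @x q a q' u v r hs _ ih =>
    rintro p rfl
    cases q' with
    | inl q' => exact (hs : False).elim
    | inr q' =>
      obtain ⟨q, hq, hp⟩ := ih q' rfl
      exact ⟨q, hq, Path.x hs hp⟩
  | @y q a q' u v r hs _ ih =>
    rintro p rfl
    cases q' with
    | inl q' => exact (hs : False).elim
    | inr q' =>
      obtain ⟨q, hq, hp⟩ := ih q' rfl
      exact ⟨q, hq, Path.y hs hp⟩
  | @e q q' u v r hs _ ih =>
    rintro p rfl
    cases q' with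
    | inl q' => exact (hs : False).elim
    | inr q' =>
      obtain ⟨q, hq, hp⟩ := ih q' rfl
      exact ⟨q, hq, Path.e hs hp⟩

theorem sum_of_inl {s u v t} (h : (A.sum B I F j).Path s u v t) :
    ∀ p, s = Sum.inl p → (∃ q, t = Sum.inl q ∧ A.Path p u v q) ∨
      (∃ q p' q' u1 v1 u2 v2, t = Sum.inr q' ∧ u = u1 ++ u2 ∧ v = v1 ++ v2 ∧ A.Path p u1 v1 q ∧
        j q p' ∧ B.Path p' u2 v2 q') := by
  induction h with
  | nil q => rintro p rfl; exact Or.inl ⟨p, rfl, Path.nil _⟩
  | @x q a q' u v r hs _ ih =>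
    rintro p rfl
    cases q' with
    | inr q' => exact (hs : False).elim
    | inl q' =>
      rcases ih q' rfl with ⟨q, hq, hp⟩ | ⟨q, p', q'', u1, v1, u2, v2, ht, hu, hv, h1, h2, h3⟩
      · exact Or.inl ⟨q, hq, Path.x hs hp⟩
      · exact Or.inr ⟨q, p', q'', a :: u1, v1, u2, v2, ht, by simp [hu], hv, Path.x hs h1, h2, h3⟩
  | @y q a q' u v r hs _ ih =>
    rintro p rfl
    cases q' with
    | inr q' => exact (hs : False).elim
    | inl q' =>
      rcases ih q' rfl with ⟨q, hq, hp⟩ | ⟨q, p', q'', u1, v1, u2, v2, ht, hu, hv, h1, h2, h3⟩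
      · exact Or.inl ⟨q, hq, Path.y hs hp⟩
      · exact Or.inr ⟨q, p', q'', u1, a :: v1, u2, v2, ht, hu, by simp [hv], Path.y hs h1, h2, h3⟩
  | @e q q' u v r hs hr ih =>
    rintro p rfl
    cases q' with
    | inr q' =>
      obtain ⟨q, hq, hp⟩ := sum_of_inr hr q' rfl
      exact Or.inr ⟨p, q', q, [], [], u, v, hq, rfl, rfl, Path.nil _, hs, hp⟩
    | inl q' =>
      rcases ih q' rfl with ⟨q, hq, hp⟩ | ⟨q, p', q'', u1, v1, u2, v2, ht, hu, hv, h1, h2, h3⟩
      · exact Or.inl ⟨q, hq, Path.e hs hp⟩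
      · exact Or.inr ⟨q, p', q'', u1, v1, u2, v2, ht, hu, hv, Path.e hs h1, h2, h3⟩

end sum

theorem exists_union (A B : Trans X Y) : ∃ C : Trans X Y, C.rel = A.rel ∪ B.rel := by
  refine ⟨A.sum B (Sum.elim A.I B.I) (Sum.elim A.F B.F) (fun _ _ => False), ?_⟩
  ext w
  constructor
  · rintro ⟨i, hi, f, hf, hp⟩
    cases i with
    | inl i =>
      rcases sum_of_inl hp i rfl with ⟨q, rfl, hq⟩ | ⟨q, p', q', _, _, _, _, _, _, _, _, hj, _⟩
      · exact Or.inl ⟨i, hi, q, hf, hq⟩
      · exact hj.elim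
    | inr i =>
      obtain ⟨q, rfl, hq⟩ := sum_of_inr hp i rfl
      exact Or.inr ⟨i, hi, q, hf, hq⟩
  · rintro (⟨i, hi, f, hf, hp⟩ | ⟨i, hi, f, hf, hp⟩)
    · exact ⟨Sum.inl i, hi, Sum.inl f, hf, sum_inl hp⟩
    · exact ⟨Sum.inr i, hi, Sum.inr f, hf, sum_inr hp⟩

theorem exists_mul (A B : Trans X Y) : ∃ C : Trans X Y, C.rel = A.rel * B.rel := by
  refine ⟨A.sum B (Sum.elim A.I (fun _ => False)) (Sum.elim (fun _ => False) B.F) (fun p q => p ∈ A.F ∧ q ∈ B.I), ?_⟩
  ext w
  rw [Set.mem_mul]
  constructor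
  · rintro ⟨i, hi, f, hf, hp⟩
    cases i with
    | inr i => exact hi.elim
    | inl i =>
      rcases sum_of_inl hp i rfl with ⟨q, rfl, hq⟩ | ⟨q, p', q', u1, v1, u2, v2, rfl, hu, hv, h1, hj, h2⟩
      · exact hf.elim
      · refine ⟨(FreeMonoid.ofList u1, FreeMonoid.ofList v1), ⟨i, hi, q, hj.1, h1⟩,
          (FreeMonoid.ofList u2, FreeMonoid.ofList v2), ⟨p', hj.2, q', hf, h2⟩, ?_⟩
        refine Prod.ext ?_ ?_
        · exact FreeMonoid.toList.injective (by simpa using hu.symm)
        · exact FreeMonoid.toList.injective (by simpa using hv.symm)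
  · rintro ⟨a, ⟨i, hi, f, hf, hp⟩, b, ⟨i', hi', f', hf', hp'⟩, rfl⟩
    refine ⟨Sum.inl i, hi, Sum.inr f', hf', ?_⟩
    have h1 := sum_inl (B := B) (I := Sum.elim A.I (fun _ => False))
      (F := Sum.elim (fun _ => False) B.F) (j := fun p q => p ∈ A.F ∧ q ∈ B.I) hp
    have h2 := sum_inr (A := A) (I := Sum.elim A.I (fun _ => False))
      (F := Sum.elim (fun _ => False) B.F) (j := fun p q => p ∈ A.F ∧ q ∈ B.I) hp'
    have h4 : (A.sum B (Sum.elim A.I (fun _ => False)) (Sum.elim (fun _ => False) B.F)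
        (fun p q => p ∈ A.F ∧ q ∈ B.I)).sE (Sum.inl f) (Sum.inr i') := ⟨hf, hi'⟩
    have := h1.trans (Path.e h4 h2)
    simpa using this

/-- transducer for the star -/
def starT (A : Trans X Y) : Trans X Y where
  Q := Option A.Q
  finQ := by
    have := A.finQ
    infer_instance
  I := {none}
  F := {none}
  sX p c q := match p, q with
    | some p, some q => A.sX p c q
    | _, _ => False
  sY p c q := match p, q with
    | some p, some q => A.sY p c q
    | _, _ => False
  sE p q := match p, q with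
    | some p, some q => A.sE p q
    | some p, none => p ∈ A.F
    | none, some q => q ∈ A.I
    | none, none => False

theorem starT_some {p u v q} (h : A.Path p u v q) : A.starT.Path (some p) u v (some q) := by
  induction h with
  | nil q => exact Path.nil _
  | @x q a q' u v r hs _ ih =>
    exact Path.x (show A.starT.sX (some q) a (some q') from hs) ih
  | @y q a q' u v r hs _ ih =>
    exact Path.y (show A.starT.sY (some q) a (some q') from hs) ih
  | @e q q' u v r hs _ ih =>
    exact Path.e (show A.starT.sE (some q) (some q') from hs) ih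

theorem starT_of {s u v t} (h : A.starT.Path s u v t) : t = none →
    (s = none → (FreeMonoid.ofList u, FreeMonoid.ofList v) ∈ Submonoid.closure A.rel) ∧
    (∀ p, s = some p → ∃ f ∈ A.F, ∃ u1 v1 u2 v2, u = u1 ++ u2 ∧ v = v1 ++ v2 ∧ A.Path p u1 v1 f ∧
      (FreeMonoid.ofList u2, FreeMonoid.ofList v2) ∈ Submonoid.closure A.rel) := by
  induction h with
  | nil q =>
    rintro rfl
    refine ⟨fun _ => ?_, fun p hp => by simp at hp⟩
    exact (Submonoid.closure A.rel).one_mem
  | @x q a q' u v r hs _ ih =>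
    intro ht
    refine ⟨?_, ?_⟩
    · rintro rfl; exact (hs : False).elim
    · rintro p rfl
      cases q' with
      | none => exact (hs : False).elim
      | some q' =>
        obtain ⟨f, hf, u1, v1, u2, v2, hu, hv, h1, h2⟩ := (ih ht).2 q' rfl
        exact ⟨f, hf, a :: u1, v1, u2, v2, by simp [hu], hv, Path.x hs h1, h2⟩
  | @y q a q' u v r hs _ ih =>
    intro ht
    refine ⟨?_, ?_⟩
    · rintro rfl; exact (hs : False).elim
    · rintro p rfl
      cases q' with
      | none => exact (hs : False).elim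
      | some q' =>
        obtain ⟨f, hf, u1, v1, u2, v2, hu, hv, h1, h2⟩ := (ih ht).2 q' rfl
        exact ⟨f, hf, u1, a :: v1, u2, v2, hu, by simp [hv], Path.y hs h1, h2⟩
  | @e q q' u v r hs _ ih =>
    intro ht
    refine ⟨?_, ?_⟩
    · rintro rfl
      cases q' with
      | none => exact (hs : False).elim
      | some q' =>
        obtain ⟨f, hf, u1, v1, u2, v2, hu, hv, h1, h2⟩ := (ih ht).2 q' rfl
        have e1 : ((FreeMonoid.ofList u, FreeMonoid.ofList v) : FreeMonoid X × FreeMonoid Y) =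
            (FreeMonoid.ofList u1, FreeMonoid.ofList v1) * (FreeMonoid.ofList u2, FreeMonoid.ofList v2) := by
          rw [Prod.mk_mul_mk, hu, hv, FreeMonoid.ofList_append, FreeMonoid.ofList_append]
        rw [e1]
        exact Submonoid.mul_mem _ (Submonoid.subset_closure ⟨q', hs, f, hf, h1⟩) h2
    · rintro p rfl
      cases q' with
      | none =>
        exact ⟨p, hs, [], [], u, v, rfl, rfl, Path.nil _, (ih ht).1 rfl⟩
      | some q' =>
        obtain ⟨f, hf, u1, v1, u2, v2, hu, hv, h1, h2⟩ := (ih ht).2 q' rfl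
        exact ⟨f, hf, u1, v1, u2, v2, hu, hv, Path.e hs h1, h2⟩

theorem starT_rel (A : Trans X Y) : A.starT.rel = (Submonoid.closure A.rel : Set _) := by
  ext w
  constructor
  · rintro ⟨i, hi, f, hf, hp⟩
    have hi : i = none := hi
    have hf : f = none := hf
    exact (starT_of hp hf).1 hi
  · intro hw
    refine Submonoid.closure_induction (motive := fun w _ => w ∈ A.starT.rel) ?_ ?_ ?_ hw
    · rintro x ⟨i, hi, f, hf, hp⟩
      refine ⟨none, rfl, none, rfl, ?_⟩
      have h1 := starT_some hp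
      have h2 : A.starT.Path none _ _ (some f) :=
        Path.e (show A.starT.sE none (some i) from hi) h1
      have h3 : A.starT.Path (some f) [] [] none :=
        Path.e (show A.starT.sE (some f) none from hf) (Path.nil (A := A.starT) none)
      simpa using h2.trans h3
    · exact ⟨none, rfl, none, rfl, Path.nil _⟩
    · rintro x y _ _ ⟨i, hi, f, hf, hp⟩ ⟨i', hi', f', hf', hp'⟩
      have hi : i = none := hi
      have hf : f = none := hf
      have hi' : i' = none := hi'
      have hf' : f' = none := hf'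
      subst hi hf hi' hf'
      exact ⟨none, rfl, none, rfl, by simpa using hp.trans hp'⟩

/-- every singleton relation is recognised by a finite transducer -/
theorem exists_singleton (a : FreeMonoid X × FreeMonoid Y) : ∃ A : Trans X Y, A.rel = {a} := by
  have hX : ∀ u : List X, ∃ A : Trans X Y, A.rel = {(FreeMonoid.ofList u, 1)} := by
    intro u
    induction u with
    | nil => exact exists_one
    | cons c u ih =>
      obtain ⟨A, hA⟩ := ih
      obtain ⟨B, hB⟩ := exists_letterX (X := X) (Y := Y) c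
      obtain ⟨C, hC⟩ := exists_mul B A
      refine ⟨C, ?_⟩
      rw [hC, hA, hB, Set.singleton_mul_singleton]
      rw [Prod.mk_mul_mk, one_mul, ← FreeMonoid.ofList_cons]
  have hY : ∀ u : List Y, ∃ A : Trans X Y, A.rel = {(1, FreeMonoid.ofList u)} := by
    intro u
    induction u with
    | nil => exact exists_one
    | cons c u ih =>
      obtain ⟨A, hA⟩ := ih
      obtain ⟨B, hB⟩ := exists_letterY (X := X) (Y := Y) c
      obtain ⟨C, hC⟩ := exists_mul B A
      refine ⟨C, ?_⟩
      rw [hC, hA, hB, Set.singleton_mul_singleton]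
      rw [Prod.mk_mul_mk, one_mul, ← FreeMonoid.ofList_cons]
  obtain ⟨A, hA⟩ := hX a.1.toList
  obtain ⟨B, hB⟩ := hY a.2.toList
  obtain ⟨C, hC⟩ := exists_mul A B
  refine ⟨C, ?_⟩
  rw [hC, hA, hB, Set.singleton_mul_singleton, Prod.mk_mul_mk, one_mul, mul_one]
  rfl

/-- every rational relation is recognised by a finite transducer -/
theorem exists_of_rational {τ : Set (FreeMonoid X × FreeMonoid Y)} (h : IsRational τ) :
    ∃ A : Trans X Y, A.rel = τ := by
  induction h with
  | empty => exact exists_empty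
  | singleton a => exact exists_singleton a
  | union _ _ ih1 ih2 =>
    obtain ⟨A, rfl⟩ := ih1
    obtain ⟨B, rfl⟩ := ih2
    exact exists_union A B
  | mul _ _ ih1 ih2 =>
    obtain ⟨A, rfl⟩ := ih1
    obtain ⟨B, rfl⟩ := ih2
    exact exists_mul A B
  | star _ ih =>
    obtain ⟨A, rfl⟩ := ih
    exact ⟨A.starT, starT_rel A⟩

end Trans

end Pool.H80.Cone
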