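import Mathlib
import Pool.Agent.H80.ConeTrans

/-!
Abstract view systems: the combinatorial content of a finite transducer.
-/

namespace Pool.H80.Cone

/-- `m`-fold repetition of a word -/
def rep {α : Type} (m : ℕ) (w : List α) : List α := (List.replicate m w).flatten

section rep
variable {α : Type}

@[simp] theorem rep_zero (w : List α) : rep 0 w = [] := rfl

theorem rep_succ (m : ℕ) (w : List α) : rep (m + 1) w = w ++ rep m w := by
  simp [rep, List.replicate_succ]

theorem rep_add (m n : ℕ) (w : List α) : rep (m + n) w = rep m w ++ rep n w := by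
  simp only [rep, List.replicate_add, List.flatten_append]

@[simp] theorem rep_one (w : List α) : rep 1 w = w := by simp [rep]

theorem rep_succ' (m : ℕ) (w : List α) : rep (m + 1) w = rep m w ++ w := by
  rw [rep_add, rep_one]

@[simp] theorem rep_length (m : ℕ) (w : List α) : (rep m w).length = m * w.length := by
  induction m with
  | zero => simp
  | succ m ih => rw [rep_succ, List.length_append, ih]; ring

theorem rep_mul (m n : ℕ) (w : List α) : rep (m * n) w = rep m (rep n w) := by
  induction m with
  | zero => simp
  | succ m ih => rw [rep_succ, ← ih, Nat.succ_mul, Nat.add_comm, rep_add]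

theorem rep_nil (m : ℕ) : rep m ([] : List α) = [] := by
  apply List.eq_nil_of_length_eq_zero; simp

theorem rep_singleton (m : ℕ) (a : α) : rep m [a] = List.replicate m a := by
  induction m with
  | zero => simp
  | succ m ih => rw [rep_succ, ih]; rfl

end rep

/-- A view system. `out q z r g`: there is a path from `q` to `r` reading `z` and producing `g`. -/
structure Sys (X Y : Type) where
  Q : Type
  finQ : Finite Q
  I : Set Q
  F : Set Q
  out : Q → List Y → Q → List X → Prop
  nil : ∀ q, out q [] q []
  comp : ∀ {q z p g z' r g'}, out q z p g → out p z' r g' → out q (z ++ z') r (g ++ g')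
  split : ∀ {q z z' r g}, out q (z ++ z') r g →
    ∃ p g1 g2, g = g1 ++ g2 ∧ out q z p g1 ∧ out p z' r g2
  C : ℕ
  pump : ∀ {q z r g}, out q z r g → C * (z.length + 1) < g.length →
    ∃ g1 g2 g3, g = g1 ++ g2 ++ g3 ∧ g2 ≠ [] ∧ ∀ t, out q z r (g1 ++ rep t g2 ++ g3)

namespace Sys

variable {X Y : Type}

/-- the views of a word `v` -/
def views (S : Sys X Y) (v : List Y) : Set (List X) :=
  {u | ∃ i ∈ S.I, ∃ f ∈ S.F, S.out i v f u}

/-- the words all of whose views are in `H` -/
def good (S : Sys X Y) (H : Set (List X)) : Set (List Y) := {v | S.views v ⊆ H}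

end Sys

namespace Trans

variable {X Y : Type} {A : Trans X Y}

theorem Path.invY {q u b v r} (h : A.Path q u (b :: v) r) : ∃ p p' u1 u2, u = u1 ++ u2 ∧
    A.Path q u1 [] p ∧ A.sY p b p' ∧ A.Path p' u2 v r := by
  generalize hw : b :: v = w at h
  induction h with
  | nil q => simp at hw
  | x hs _ ih =>
    obtain ⟨p, p', u1, u2, hu, h1, h2, h3⟩ := ih hw
    exact ⟨p, p', _ :: u1, u2, by simp [hu], Path.x hs h1, h2, h3⟩
  | @y q c q' u v' r hs hp _ =>
    simp only [List.cons.injEq] at hw
    obtain ⟨rfl, rfl⟩ := hw
    exact ⟨q, q', [], u, rfl, Path.nil q, hs, hp⟩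
  | e hs _ ih =>
    obtain ⟨p, p', u1, u2, hu, h1, h2, h3⟩ := ih hw
    exact ⟨p, p', u1, u2, hu, Path.e hs h1, h2, h3⟩

theorem Path.states {u : List X} : ∀ {q r}, A.Path q u [] r → ∃ s : ℕ → A.Q, s 0 = q ∧
    (∀ i j, i ≤ j → j ≤ u.length → A.Path (s i) ((u.take j).drop i) [] (s j)) ∧
    A.Path (s u.length) [] [] r := by
  induction u with
  | nil =>
    intro q r h
    refine ⟨fun _ => q, rfl, ?_, h⟩
    intro i j _ _
    simp
    exact Path.nil q
  | cons a u ih =>
    intro q r h
    obtain ⟨p, v1, v2, hv, h1, h2⟩ := h.splitX [a] u rfl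
    have hv1 : v1 = [] := by
      cases v1 with
      | nil => rfl
      | cons _ _ => simp at hv
    have hv2 : v2 = [] := by
      subst hv1; simpa using hv.symm
    subst hv1 hv2
    obtain ⟨s, hs0, hs, hsr⟩ := ih h2
    refine ⟨fun n => Nat.casesOn n q s, rfl, ?_, ?_⟩
    · intro i j hij hj
      cases i with
      | zero =>
        cases j with
        | zero => simpa using Path.nil q
        | succ j =>
          have h3 := hs 0 j (Nat.zero_le _) (by simpa using hj)
          rw [hs0] at h3
          have := h1.trans h3
          simpa using this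
      | succ i =>
        cases j with
        | zero => omega
        | succ j =>
          have h3 := hs i j (by omega) (by simpa using hj)
          simpa using h3
    · simpa using hsr

theorem Path.pump0 {q r u} (h : A.Path q u [] r) (hu : Nat.card A.Q ≤ u.length) :
    ∃ g1 g2 g3, u = g1 ++ g2 ++ g3 ∧ g2 ≠ [] ∧ ∀ t, A.Path q (g1 ++ rep t g2 ++ g3) [] r := by
  have := A.finQ
  obtain ⟨s, hs0, hs, hsr⟩ := h.states
  -- repeated state
  obtain ⟨i, j, hij, hj, hsij⟩ : ∃ i j, i < j ∧ j ≤ u.length ∧ s i = s j := by
    by_contra hcon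
    push Not at hcon
    have hinj : Function.Injective (fun i : Fin (u.length + 1) => s i) := by
      intro i j hij
      by_contra hne
      rcases lt_or_gt_of_ne (fun h => hne (Fin.ext h) : (i : ℕ) ≠ j) with h | h
      · exact hcon i j h (by omega) hij
      · exact hcon j i h (by omega) hij.symm
    have := Nat.card_le_card_of_injective _ hinj
    simp at this
    omega
  refine ⟨u.take i, (u.take j).drop i, u.drop j, ?_, ?_, ?_⟩
  · have h1 : u.take i ++ (u.take j).drop i = u.take j := by
      have : u.take i = (u.take j).take i := by rw [List.take_take, min_eq_left hij.le]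
      rw [this, List.take_append_drop]
    rw [h1, List.take_append_drop]
  · intro h0
    have : ((u.take j).drop i).length = 0 := by rw [h0]; rfl
    simp at this
    omega
  · intro t
    have h1 := hs 0 i (Nat.zero_le _) (by omega)
    rw [hs0, List.drop_zero] at h1
    have h2 := hs i j hij.le hj
    have h3 := hs j u.length hj le_rfl
    rw [List.take_length] at h3
    have h4 : A.Path (s i) (rep t ((u.take j).drop i)) [] (s i) := by
      induction t with
      | zero => exact Path.nil _
      | succ t ih =>
        rw [rep_succ]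
        have := h2
        rw [← hsij] at this
        simpa using this.trans ih
    rw [← hsij] at h3
    have h5 := (h1.trans h4).trans (h3.trans hsr)
    simpa using h5

theorem Path.pump {v : List Y} : ∀ {q r u}, A.Path q u v r →
    Nat.card A.Q * (v.length + 1) < u.length →
    ∃ g1 g2 g3, u = g1 ++ g2 ++ g3 ∧ g2 ≠ [] ∧ ∀ t, A.Path q (g1 ++ rep t g2 ++ g3) v r := by
  induction v with
  | nil =>
    intro q r u h hu
    simp at hu
    exact h.pump0 hu.le
  | cons b v ih =>
    intro q r u h hu
    obtain ⟨p, p', u1, u2, rfl, h1, h2, h3⟩ := h.invY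
    by_cases hu1 : Nat.card A.Q ≤ u1.length
    · obtain ⟨g1, g2, g3, hg, hne, ht⟩ := h1.pump0 hu1
      refine ⟨g1, g2, g3 ++ u2, by rw [hg]; simp, hne, fun t => ?_⟩
      have := (ht t).trans (Path.y h2 h3)
      simpa using this
    · have hu2 : Nat.card A.Q * (v.length + 1) < u2.length := by
        simp only [List.length_append, List.length_cons] at hu
        have : Nat.card A.Q * (v.length + 1 + 1) = Nat.card A.Q * (v.length + 1) + Nat.card A.Q := by
          ring
        omega
      obtain ⟨g1, g2, g3, hg, hne, ht⟩ := ih h3 hu2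
      refine ⟨u1 ++ g1, g2, g3, by rw [hg]; simp, hne, fun t => ?_⟩
      have := h1.trans (Path.y h2 (ht t))
      simpa using this

/-- The view system of a transducer. -/
noncomputable def toSys (A : Trans X Y) : Sys X Y where
  Q := A.Q
  finQ := A.finQ
  I := A.I
  F := A.F
  out q z r g := A.Path q g z r
  nil := Path.nil
  comp h h' := h.trans h'
  split h := h.splitY _ _ rfl
  C := Nat.card A.Q
  pump h hl := h.pump hl

end Trans

/-- If `L'` is in the cone generated by the complement of `H` then its complement is the set of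
words all of whose views are in `H`. -/
theorem InCone.exists_sys {X Y : Type} {H : Language X} {L' : Language Y} (h : InCone Hᶜ L') :
    ∃ S : Sys X Y, ∀ v, v ∉ L' ↔ v ∈ S.good H := by
  obtain ⟨τ, hτ, rfl⟩ := h
  obtain ⟨A, rfl⟩ := Trans.exists_of_rational hτ
  refine ⟨A.toSys, fun v => ?_⟩
  constructor
  · intro hv u hu
    by_contra hn
    exact hv ⟨u, hn, hu⟩
  · rintro hv ⟨u, hu, hp⟩
    exact hu (hv hp)

end Pool.H80.Cone
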