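import Mathlib
import Pool.Agent.H80.ConeSys

/-!
Power pumping for languages in the cone generated by the complement of a language whose words
contain only small powers.
-/

namespace Pool.H80.Cone

/-- Exponents of powers occurring in words of `H` are at most about the `k`-th root of the
length. -/
def PowBound {X : Type} (H : Set (List X)) (k K : ℕ) : Prop :=
  ∀ u ∈ H, ∀ a g b t, u = a ++ rep t g ++ b → g ≠ [] → t ^ k ≤ K * u.length

namespace Sys

variable {X Y : Type} {S : Sys X Y} {H : Set (List X)}

theorem out_rep_loop {q : S.Q} {f : List Y} {l : List (ℕ × List X)}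
    (h : ∀ x ∈ l, S.out q (rep x.1 f) q x.2) :
    S.out q (rep (l.map Prod.fst).sum f) q (l.map Prod.snd).flatten := by
  induction l with
  | nil => simpa using S.nil q
  | cons a l ih =>
    have h1 := h a (by simp)
    have h2 := ih (fun x hx => h x (by simp [hx]))
    have := S.comp h1 h2
    rw [← rep_add] at this
    simpa using this

theorem live_length {k K : ℕ} (hH : PowBound H k K) (hk : 2 ≤ k) {i q r f : S.Q} {x z y : List Y}
    {a g b : List X} (hi : i ∈ S.I) (hf : f ∈ S.F) (h1 : S.out i x q a) (h2 : S.out q z r g)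
    (h3 : S.out r y f b) (hg : x ++ z ++ y ∈ S.good H) : g.length ≤ S.C * (z.length + 1) := by
  by_contra hcon
  push Not at hcon
  obtain ⟨g1, g2, g3, -, hne, ht⟩ := S.pump h2 hcon
  have key : ∀ t, t ^ k ≤ K * ((a ++ g1 ++ g3 ++ b).length + t * g2.length) := by
    intro t
    have h4 : a ++ (g1 ++ rep t g2 ++ g3) ++ b ∈ H :=
      hg ⟨i, hi, f, hf, S.comp (S.comp h1 (ht t)) h3⟩
    have h5 := hH _ h4 (a ++ g1) g2 (g3 ++ b) t (by simp) hne
    have h6 : (a ++ (g1 ++ rep t g2 ++ g3) ++ b).length =
        (a ++ g1 ++ g3 ++ b).length + t * g2.length := by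
      simp; ring
    rwa [h6] at h5
  set A := (a ++ g1 ++ g3 ++ b).length
  set B := g2.length
  have h7 := key (K * (A + B) + 1)
  have h8 : (K * (A + B) + 1) ^ 2 ≤ (K * (A + B) + 1) ^ k :=
    Nat.pow_le_pow_right (by omega) hk
  have h9 : K * (A + (K * (A + B) + 1) * B) ≤ K * (A + B) * (K * (A + B) + 1) := by
    have : K * (A + (K * (A + B) + 1) * B) ≤ K * ((K * (A + B) + 1) * A + (K * (A + B) + 1) * B) := by
      apply Nat.mul_le_mul_left
      have : 1 * A ≤ (K * (A + B) + 1) * A := Nat.mul_le_mul_right _ (by omega)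
      omega
    calc _ ≤ _ := this
      _ = _ := by ring
  have h10 : (K * (A + B) + 1) ^ 2 = K * (A + B) * (K * (A + B) + 1) + (K * (A + B) + 1) := by ring
  omega

theorem power_states {f : List Y} (m : ℕ) : ∀ {q r : S.Q} {g : List X}, S.out q (rep m f) r g →
    ∃ (st : ℕ → S.Q) (c : ℕ → ℕ), st 0 = q ∧ c 0 = 0 ∧
      (∀ i j, i ≤ j → j ≤ m → c i ≤ c j) ∧ c m ≤ g.length ∧
      (∀ i j, i ≤ j → j ≤ m → S.out (st i) (rep (j - i) f) (st j) ((g.take (c j)).drop (c i))) ∧
      S.out (st m) [] r (g.drop (c m)) := by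
  induction m with
  | zero =>
    intro q r g h
    refine ⟨fun _ => q, fun _ => 0, rfl, rfl, fun _ _ _ _ => le_rfl, Nat.zero_le _, ?_, ?_⟩
    · intro i j hij hj
      have : j = 0 := by omega
      subst this
      simpa using S.nil q
    · simpa using h
  | succ m ih =>
    intro q r g h
    rw [rep_succ] at h
    obtain ⟨p, g1, g2, rfl, h1, h2⟩ := S.split h
    obtain ⟨st, c, hst0, hc0, hcm, hcl, hout, hend⟩ := ih h2
    refine ⟨fun n => Nat.casesOn n q st, fun n => Nat.casesOn n 0 (fun n => g1.length + c n),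
      rfl, rfl, ?_, ?_, ?_, ?_⟩
    · intro i j hij hj
      cases i with
      | zero => exact Nat.zero_le _
      | succ i =>
        cases j with
        | zero => omega
        | succ j =>
          have := hcm i j (by omega) (by omega)
          show g1.length + c i ≤ g1.length + c j
          omega
    · show g1.length + c m ≤ _
      simp; omega
    · intro i j hij hj
      cases i with
      | zero =>
        cases j with
        | zero => simpa using S.nil q
        | succ j =>
          have h3 := hout 0 j (Nat.zero_le _) (by omega)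
          rw [hst0, hc0] at h3
          have h4 := S.comp h1 h3
          show S.out q (rep (j + 1 - 0) f) (st j) (((g1 ++ g2).take (g1.length + c j)).drop 0)
          rw [List.take_append, List.drop_zero, Nat.sub_zero, rep_succ, List.take_of_length_le (by omega)]
          simpa using h4
      | succ i =>
        cases j with
        | zero => omega
        | succ j =>
          have h3 := hout i j (by omega) (by omega)
          show S.out (st i) (rep (j + 1 - (i + 1)) f) (st j)
            (((g1 ++ g2).take (g1.length + c j)).drop (g1.length + c i))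
          have e1 : j + 1 - (i + 1) = j - i := by omega
          rw [e1, List.take_append, List.take_of_length_le (by omega), List.drop_append,
            List.drop_eq_nil_of_le (by omega)]
          simpa using h3
    · show S.out (st m) [] r ((g1 ++ g2).drop (g1.length + c m))
      rw [List.drop_append, List.drop_eq_nil_of_le (by omega)]
      simpa using hend

theorem chunk {f : List Y} {q r : S.Q} {g : List X} (h : S.out q (rep (Nat.card S.Q) f) r g) :
    ∃ (p : S.Q) (i d e : ℕ) (g0 g1 g2 : List X), i + d + e = Nat.card S.Q ∧ 1 ≤ d ∧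
      g = g0 ++ g1 ++ g2 ∧ S.out q (rep i f) p g0 ∧ S.out p (rep d f) p g1 ∧
      S.out p (rep e f) r g2 := by
  have := S.finQ
  obtain ⟨st, c, hst0, hc0, hcm, hcl, hout, hend⟩ := power_states _ h
  obtain ⟨i, j, hij, hj, hsij⟩ : ∃ i j, i < j ∧ j ≤ Nat.card S.Q ∧ st i = st j := by
    by_contra hcon
    push Not at hcon
    have hinj : Function.Injective (fun i : Fin (Nat.card S.Q + 1) => st i) := by
      intro i j hij
      by_contra hne
      rcases lt_or_gt_of_ne (fun h => hne (Fin.ext h) : (i : ℕ) ≠ j) with h | h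
      · exact hcon i j h (by omega) hij
      · exact hcon j i h (by omega) hij.symm
    have := Nat.card_le_card_of_injective _ hinj
    simp at this
  have h1 := hout 0 i (Nat.zero_le _) (by omega)
  have h2 := hout i j hij.le hj
  have h3 := S.comp (hout j _ hj le_rfl) hend
  rw [hst0, hc0] at h1
  refine ⟨st i, i, j - i, Nat.card S.Q - j, g.take (c i), (g.take (c j)).drop (c i), g.drop (c j),
    by omega, by omega, ?_, by simpa using h1, ?_, ?_⟩
  · have e1 : g.take (c i) ++ (g.take (c j)).drop (c i) = g.take (c j) := by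
      have : g.take (c i) = (g.take (c j)).take (c i) := by
        rw [List.take_take, min_eq_left (hcm i j hij.le hj)]
      rw [this, List.take_append_drop]
    rw [e1, List.take_append_drop]
  · rw [← hsij] at h2
    exact h2
  · rw [hsij]
    have e1 : (g.take (c (Nat.card S.Q))).drop (c j) ++ g.drop (c (Nat.card S.Q)) = g.drop (c j) := by
      conv_rhs => rw [← List.take_append_drop (c (Nat.card S.Q)) g]
      rw [List.drop_append, List.length_take, min_eq_left hcl]
      have := hcm j _ hj le_rfl
      rw [Nat.sub_eq_zero_of_le this, List.drop_zero]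
    rw [e1] at h3
    simpa using h3

/-- A path from `a` to `b` over `f^N` with output `u` that passes `q` and contains at least `n`
loops at `q` over `f^d`. -/
def LoopData (S : Sys X Y) (f : List Y) (q : S.Q) (d : ℕ) (a b : S.Q) (N : ℕ) (u : List X)
    (n : ℕ) : Prop :=
  ∃ (e0 e1 : ℕ) (g0 g1 : List X) (l : List (ℕ × List X)), S.out a (rep e0 f) q g0 ∧
    (∀ x ∈ l, S.out q (rep x.1 f) q x.2) ∧ S.out q (rep e1 f) b g1 ∧
    u = g0 ++ (l.map Prod.snd).flatten ++ g1 ∧ e0 + (l.map Prod.fst).sum + e1 = N ∧
    n ≤ l.countP (fun x => x.1 = d)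

theorem exists_classes {f : List Y} [Fintype S.Q] (c : ℕ) : ∀ {a b : S.Q} {u : List X},
    S.out a (rep (Nat.card S.Q * c) f) b u →
    ∃ V : S.Q × Fin (Nat.card S.Q + 1) → ℕ, (∑ κ, V κ) = c ∧ ∀ κ, 0 < V κ → 1 ≤ (κ.2 : ℕ) ∧
        LoopData S f κ.1 κ.2 a b (Nat.card S.Q * c) u (V κ) := by
  classical
  induction c with
  | zero =>
    intro a b u _
    exact ⟨fun _ => 0, by simp, by simp⟩
  | succ c ih =>
    intro a b u h
    rw [Nat.mul_succ, rep_add] at h
    obtain ⟨p, u1, u2, rfl, h1, h2⟩ := S.split h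
    obtain ⟨V, hV, hdata⟩ := ih h1
    obtain ⟨q0, i, d, e, k0, k1, k2, hide, hd, rfl, o0, o1, o2⟩ := chunk h2
    obtain ⟨κ0, hκ0⟩ : ∃ κ0 : S.Q × Fin (Nat.card S.Q + 1), κ0 = (q0, ⟨d, by omega⟩) := ⟨_, rfl⟩
    have hκ1 : κ0.1 = q0 := by rw [hκ0]
    have hκ2 : (κ0.2 : ℕ) = d := by rw [hκ0]
    refine ⟨fun κ => V κ + if κ = κ0 then 1 else 0, ?_, ?_⟩
    · rw [Finset.sum_add_distrib, hV]; simp
    intro κ hκ
    by_cases hκκ : κ = κ0
    · subst hκκ
      rw [hκ1, hκ2]
      refine ⟨hd, ?_⟩
      simp only [if_true]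
      by_cases hmem : 0 < V κ
      · obtain ⟨-, h4⟩ := hdata _ hmem
        rw [hκ1, hκ2] at h4
        obtain ⟨e0, e1, g0, g1, l, p0, p1, p2, p3, p4, p5⟩ := h4
        refine ⟨e0, e, g0, k2, l ++ [(e1 + i, g1 ++ k0), (d, k1)], p0, ?_, o2, ?_, ?_, ?_⟩
        · intro x hx
          simp only [List.mem_append, List.mem_cons, List.not_mem_nil, or_false] at hx
          rcases hx with hx | rfl | rfl
          · exact p1 x hx
          · show S.out q0 (rep (e1 + i) f) q0 (g1 ++ k0)
            rw [rep_add]
            exact S.comp p2 o0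
          · exact o1
        · rw [p3]; simp
        · simp only [List.map_append, List.map_cons, List.map_nil, List.sum_append, List.sum_cons,
            List.sum_nil, Nat.mul_succ]
          omega
        · rw [List.countP_append]
          have : 1 ≤ List.countP (fun x : ℕ × List X => decide (x.1 = d)) [(e1 + i, g1 ++ k0), (d, k1)] := by
            rw [List.countP_cons, List.countP_cons]
            simp
          omega
      · have hcnt : V κ = 0 := by omega
        rw [hcnt]
        refine ⟨Nat.card S.Q * c + i, e, u1 ++ k0, k2, [(d, k1)], ?_, ?_, o2, ?_, ?_, ?_⟩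
        · rw [rep_add]; exact S.comp h1 o0
        · simpa using o1
        · simp
        · simp only [List.map_cons, List.map_nil, List.sum_cons, List.sum_nil, Nat.mul_succ]; omega
        · simp
    · have hκ' : 0 < V κ := by simpa [hκκ] using hκ
      obtain ⟨h3, e0, e1, g0, g1, l, p0, p1, p2, p3, p4, p5⟩ := hdata κ hκ'
      refine ⟨h3, e0, e1 + Nat.card S.Q, g0, g1 ++ (k0 ++ k1 ++ k2), l, p0, p1, ?_, ?_, ?_, ?_⟩
      · rw [rep_add]; exact S.comp p2 h2
      · rw [p3]; simp
      · rw [Nat.mul_succ]; omega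
      · simpa [hκκ] using p5

theorem exists_loops {f : List Y} {c : ℕ} {a b : S.Q} {u : List X}
    (h : S.out a (rep (Nat.card S.Q * c) f) b u) {E : ℕ}
    (hE : Nat.card S.Q * (Nat.card S.Q + 1) * E < c) :
    ∃ (q : S.Q) (d : ℕ), 1 ≤ d ∧ d ≤ Nat.card S.Q ∧
      LoopData S f q d a b (Nat.card S.Q * c) u E := by
  classical
  have := S.finQ
  have := Fintype.ofFinite S.Q
  obtain ⟨V, hV, hdata⟩ := exists_classes c h
  -- pigeonhole
  obtain ⟨κ, hκ⟩ : ∃ κ, E < V κ := by
    by_contra hcon
    push Not at hcon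
    have h1 : ∑ κ, V κ ≤ (Finset.univ : Finset (S.Q × Fin (Nat.card S.Q + 1))).card * E :=
      (Finset.sum_le_card_nsmul _ _ _ (fun κ _ => hcon κ)).trans (by simp)
    rw [Finset.card_univ, Fintype.card_prod, Fintype.card_fin, ← Nat.card_eq_fintype_card] at h1
    omega
  obtain ⟨h1, e0, e1, g0, g1, l, p0, p1, p2, p3, p4, p5⟩ := hdata κ (by omega)
  exact ⟨κ.1, κ.2, h1, by omega, e0, e1, g0, g1, l, p0, p1, p2, p3, p4, by omega⟩

theorem remove_entries {d : ℕ} (l : List (ℕ × List X)) : ∀ (r : ℕ)
    (_ : ∀ x ∈ l, x.1 = d → x.2 = []) (_ : r ≤ l.countP (fun x => x.1 = d)),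
    ∃ l' : List (ℕ × List X), (∀ x ∈ l', x ∈ l) ∧
      (l'.map Prod.fst).sum + d * r = (l.map Prod.fst).sum ∧
      (l'.map Prod.snd).flatten = (l.map Prod.snd).flatten := by
  induction l with
  | nil => 
    intro r _ hr
    simp at hr
    subst hr
    exact ⟨[], by simp, by simp, rfl⟩
  | cons a l ih =>
    intro r hd hr
    by_cases ha : a.1 = d
    · cases r with
      | zero => exact ⟨a :: l, fun x hx => hx, by simp, rfl⟩
      | succ r =>
        obtain ⟨l', h1, h2, h3⟩ := ih r (fun x hx => hd x (by simp [hx])) (by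
          rw [List.countP_cons] at hr
          simp [ha] at hr
          omega)
        refine ⟨l', fun x hx => by simp [h1 x hx], ?_, ?_⟩
        · simp only [List.map_cons, List.sum_cons, ha, Nat.mul_succ]; omega
        · simp [h3, hd a (by simp) ha]
    · obtain ⟨l', h1, h2, h3⟩ := ih r (fun x hx => hd x (by simp [hx])) (by
          rw [List.countP_cons] at hr
          simpa [ha] using hr)
      refine ⟨a :: l', ?_, ?_, ?_⟩
      · intro x hx
        rcases List.mem_cons.1 hx with h | h
        · simp [h]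
        · simp [h1 x h]
      · simp only [List.map_cons, List.sum_cons]; omega
      · simp [h3]

theorem filter_sum {d : ℕ} (l : List (ℕ × List X)) :
    ((l.filter (fun x => ¬ x.1 = d)).map Prod.fst).sum + d * l.countP (fun x => x.1 = d) =
      (l.map Prod.fst).sum := by
  induction l with
  | nil => simp
  | cons a l ih =>
    by_cases ha : a.1 = d
    · simp only [List.filter_cons, ha, not_true_eq_false, decide_false, List.countP_cons,
        decide_true, if_true, List.map_cons, List.sum_cons, Nat.mul_succ]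
      simp only [Bool.false_eq_true, if_false]
      omega
    · simp only [List.filter_cons, ha, not_false_eq_true, decide_true, if_true, List.countP_cons,
        decide_false, List.map_cons, List.sum_cons]
      simp only [Bool.false_eq_true, if_false, Nat.add_zero]
      omega

/-- Power pumping. -/
theorem power_pump {k K : ℕ} (hH : PowBound H k K) (hk : 2 ≤ k) : ∃ C p : ℕ, 0 < p ∧
    ∀ (x f y : List Y) (m : ℕ), C * ((x ++ rep m f ++ y).length + 1) ≤ m ^ k →
      x ++ rep m f ++ y ∈ S.good H → x ++ rep (m + p) f ++ y ∈ S.good H := by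
  set s := Nat.card S.Q with hs
  set p := Nat.factorial s with hp
  have hp0 : 0 < p := Nat.factorial_pos s
  set D := s * (s * (s + 1)) + 1 with hD
  refine ⟨(2 * D) ^ k * (K * S.C + 1) + (D * (2 * p + 2 + 2 * s)) ^ k, p, hp0, ?_⟩
  intro x f y m hm hgood u hu
  obtain ⟨i0, hi0, f0, hf0, hpath⟩ := hu
  set n := (x ++ rep m f ++ y).length with hn
  -- lower bounds for m
  have hmD : D * (2 * p + 2 + 2 * s) ≤ m := by
    have h1 : (D * (2 * p + 2 + 2 * s)) ^ k ≤ m ^ k := by
      refine le_trans ?_ hm
      calc (D * (2 * p + 2 + 2 * s)) ^ k ≤ (2 * D) ^ k * (K * S.C + 1) + (D * (2 * p + 2 + 2 * s)) ^ k :=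
            Nat.le_add_left _ _
        _ ≤ _ := Nat.le_mul_of_pos_right _ (by omega)
    exact (Nat.pow_le_pow_iff_left (by omega)).1 h1
  obtain ⟨E, hE⟩ : ∃ E, E = m / D := ⟨_, rfl⟩
  have hDpos : 0 < D := by omega
  have hE1 : D * E ≤ m := by rw [hE]; exact Nat.mul_div_le m D
  have hE2 : m < D * (E + 1) := by rw [hE]; exact Nat.lt_mul_div_succ m hDpos
  have hE3 : 2 * p + 2 + 2 * s ≤ E := by
    rw [hE]
    exact (Nat.le_div_iff_mul_le hDpos).2 (by rw [Nat.mul_comm]; exact hmD)
  have hbig : K * S.C * (n + 1) < (E - p) ^ k := by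
    by_contra hcon
    push Not at hcon
    have h1 : m ^ k < (2 * D) ^ k * (E - p) ^ k := by
      rw [← Nat.mul_pow]
      apply Nat.pow_lt_pow_left _ (by omega)
      calc m < D * (E + 1) := hE2
        _ ≤ D * (2 * (E - p)) := Nat.mul_le_mul_left _ (by omega)
        _ = 2 * D * (E - p) := by ring
    have h2 : (2 * D) ^ k * (E - p) ^ k ≤ (2 * D) ^ k * (K * S.C * (n + 1)) :=
      Nat.mul_le_mul_left _ hcon
    have h3 : (2 * D) ^ k * (K * S.C * (n + 1)) ≤
        ((2 * D) ^ k * (K * S.C + 1) + (D * (2 * p + 2 + 2 * s)) ^ k) * (n + 1) := by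
      rw [← Nat.mul_assoc]
      apply Nat.mul_le_mul_right
      calc (2 * D) ^ k * (K * S.C) ≤ (2 * D) ^ k * (K * S.C + 1) := Nat.mul_le_mul_left _ (by omega)
        _ ≤ _ := Nat.le_add_right _ _
    omega
  have hspos : 0 < s := by
    have := S.finQ
    have : Nonempty S.Q := ⟨i0⟩
    exact Nat.card_pos
  -- the number of chunks
  obtain ⟨c, hc⟩ : ∃ c, c = (m + p) / s := ⟨_, rfl⟩
  obtain ⟨e, he⟩ : ∃ e, e = (m + p) % s := ⟨_, rfl⟩
  have hce : s * c + e = m + p := by rw [hc, he]; exact Nat.div_add_mod (m + p) s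
  have hes : e < s := by rw [he]; exact Nat.mod_lt _ hspos
  have hcE : s * (s + 1) * E < c := by
    by_contra hcon
    push Not at hcon
    have h1 : s * c ≤ s * (s * (s + 1) * E) := Nat.mul_le_mul_left _ hcon
    have h2 : D * E = s * (s * (s + 1) * E) + E := by rw [hD]; ring
    omega
  -- decompose the path
  rw [List.append_assoc] at hpath
  obtain ⟨a, ux, u1, rfl, hx, hpath⟩ := S.split hpath
  rw [← hce, rep_add, List.append_assoc] at hpath
  obtain ⟨b, uf, uy, rfl, hf, hy⟩ := S.split hpath
  obtain ⟨q, d, hd1, hds, e0, e1, g0, g1, l, p0, p1, p2, p3, p4, p5⟩ := exists_loops hf hcE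
  rw [← hs] at p4
  have hdp : d ∣ p := Nat.dvd_factorial hd1 hds
  obtain ⟨r, hr⟩ := hdp
  have hrp : r ≤ p := by
    rw [hr]; exact Nat.le_mul_of_pos_left _ hd1
  by_cases hcase : ∀ x ∈ l, x.1 = d → x.2 = []
  · obtain ⟨l', h1, h2, h3⟩ := remove_entries l r hcase (by omega)
    have h4 := out_rep_loop (S := S) (q := q) (f := f) (l := l') (fun x hx => p1 x (h1 x hx))
    have h5 := S.comp hx (S.comp (S.comp (S.comp p0 h4) p2) hy)
    apply hgood
    refine ⟨i0, hi0, f0, hf0, ?_⟩
    convert h5 using 1
    · rw [← rep_add, ← rep_add]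
      have e4 : e0 + (l'.map Prod.fst).sum + e1 + e = m := by
        rw [← hr] at h2
        omega
      rw [← e4, rep_add (e0 + (l'.map Prod.fst).sum + e1)]
      simp
    · rw [p3, h3]
  · exfalso
    push Not at hcase
    obtain ⟨w, hw, hwd, hwne⟩ := hcase
    obtain ⟨N, hN⟩ : ∃ N, N = l.countP (fun x => x.1 = d) := ⟨_, rfl⟩
    set l' : List (ℕ × List X) := List.replicate (N - r) (d, w.2) ++ l.filter (fun x => ¬ x.1 = d) with hl'
    have h4 := out_rep_loop (S := S) (q := q) (f := f) (l := l') (by
      intro z hz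
      rw [hl', List.mem_append] at hz
      rcases hz with hz | hz
      · have := List.eq_of_mem_replicate hz
        subst this
        have := p1 w hw
        rw [hwd] at this
        exact this
      · exact p1 z (List.mem_of_mem_filter hz))
    have h5 := S.comp hx (S.comp (S.comp (S.comp p0 h4) p2) hy)
    have hsum : (l'.map Prod.fst).sum + p = (l.map Prod.fst).sum := by
      rw [hl', List.map_append, List.sum_append, List.map_replicate, List.sum_replicate]
      have := filter_sum (d := d) l
      rw [← hN] at this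
      have h6 : d * N = d * (N - r) + d * r := by rw [← Nat.mul_add]; congr 1; omega
      have h7 : (N - r) • (d, w.2).1 = d * (N - r) := by simp [Nat.mul_comm]
      rw [h7, hr]
      omega
    have hword : x ++ (rep e0 f ++ rep (l'.map Prod.fst).sum f ++ rep e1 f ++ (rep e f ++ y)) =
        x ++ rep m f ++ y := by
      rw [← rep_add, ← rep_add]
      have e4 : e0 + (l'.map Prod.fst).sum + e1 + e = m := by omega
      rw [← e4, rep_add (e0 + (l'.map Prod.fst).sum + e1)]
      simp
    rw [hword] at h5
    have h6 := hgood ⟨i0, hi0, f0, hf0, h5⟩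
    have h7 := hH _ h6 (ux ++ g0) w.2 (((l.filter (fun x => ¬ x.1 = d)).map Prod.snd).flatten ++ g1 ++ uy)
      (N - r) (by rw [hl']; simp [rep]) hwne
    -- length bound
    have h8 : (ux ++ (g0 ++ (l'.map Prod.snd).flatten ++ g1 ++ uy)).length ≤ S.C * (n + 1) := by
      have := live_length hH hk hi0 hf0 (S.nil i0) h5 (S.nil f0) (by simpa using hgood)
      exact this
    have h9 : (E - p) ^ k ≤ (N - r) ^ k := Nat.pow_le_pow_left (by omega) k
    have h10 := Nat.mul_le_mul_left K h8
    rw [← Nat.mul_assoc] at h10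
    omega

end Sys

end Pool.H80.Cone
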