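import Mathlib
import Pool.Agent.H80.ConePump

/-!
The words `h_n^i(b_n)`.
-/

namespace Pool.H80.Cone

/-- The word `h_n^t(b_j)` over the letters `0, 1, ..., n`. -/
def W : ℕ → ℕ → List ℕ
  | _, 0 => [0]
  | 0, j + 1 => [j + 1]
  | t + 1, j + 1 => W t (j + 1) ++ W (t + 1) j

@[simp] theorem W_zero (t : ℕ) : W t 0 = [0] := by cases t <;> simp [W]
@[simp] theorem W_zero' (j : ℕ) : W 0 j = [j] := by cases j <;> simp [W]
theorem W_succ (t j : ℕ) : W (t + 1) (j + 1) = W t (j + 1) ++ W (t + 1) j := by simp [W]

theorem le_of_mem_W (j : ℕ) : ∀ t, ∀ x ∈ W t j, x ≤ j := by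
  induction j with
  | zero => intro t x hx; simpa using hx
  | succ j ihj =>
    intro t
    induction t with
    | zero => intro x hx; simp at hx; omega
    | succ t iht =>
      intro x hx
      rw [W_succ, List.mem_append] at hx
      rcases hx with h | h
      · exact iht x h
      · have := ihj _ x h; omega

theorem count_self_W (j : ℕ) : ∀ t, (W t j).count j = 1 := by
  cases j with
  | zero => intro t; simp
  | succ j =>
    intro t
    induction t with
    | zero => simp
    | succ t iht =>
      rw [W_succ, List.count_append, iht]
      have : (W (t + 1) j).count (j + 1) = 0 := by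
        apply List.count_eq_zero_of_not_mem
        intro h
        have := le_of_mem_W _ _ _ h
        omega
      rw [this]

theorem count_pred_W (j : ℕ) : ∀ t, (W t (j + 1)).count j = t := by
  intro t
  induction t with
  | zero => simp
  | succ t iht =>
    rw [W_succ, List.count_append, iht, count_self_W]

theorem W_head (j : ℕ) : ∀ t, ∃ r, W t j = j :: r := by
  cases j with
  | zero => intro t; exact ⟨[], by simp⟩
  | succ j =>
    intro t
    induction t with
    | zero => exact ⟨[], by simp⟩
    | succ t iht =>
      obtain ⟨r, hr⟩ := iht
      exact ⟨r ++ W (t + 1) j, by rw [W_succ, hr]; rfl⟩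

theorem length_W (j : ℕ) : ∀ t, (W t j).length = (t + j).choose j := by
  induction j with
  | zero => intro t; simp
  | succ j ihj =>
    intro t
    induction t with
    | zero => simp
    | succ t iht =>
      rw [W_succ, List.length_append, iht, ihj]
      have : t + 1 + (j + 1) = (t + (j + 1)) + 1 := by ring
      rw [this, Nat.choose_succ_succ, Nat.add_comm]
      congr 2
      ring

/-- factors of `W t j` whose letters are at most `l` contain few letters `l` -/
theorem count_factor_W (T : ℕ) (hT : 1 ≤ T) (j : ℕ) : ∀ t, t ≤ T → ∀ l a b c, W t j = a ++ b ++ c →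
    (∀ x ∈ b, x ≤ l) → b.count l ≤ T := by
  have htriv : ∀ (m l : ℕ) (a b c : List ℕ), [m] = a ++ b ++ c → b.count l ≤ T := by
    intro m l a b c h
    have h1 : b.length ≤ 1 := by
      have := congrArg List.length h
      simp at this
      omega
    exact (List.count_le_length).trans (h1.trans hT)
  induction j with
  | zero => intro t _ l a b c h _; rw [W_zero] at h; exact htriv _ _ _ _ _ h
  | succ j ihj =>
    intro t
    induction t with
    | zero => intro _ l a b c h _; rw [W_zero'] at h; exact htriv _ _ _ _ _ h
    | succ t iht =>
      intro htT l a b c h hb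
      have h0 := h
      rw [W_succ] at h
      rcases List.append_eq_append_iff.1 h with ⟨a', h1, h2⟩ | ⟨a', h1, h2⟩
      · -- a ++ b = P ++ a', Q = a' ++ c
        rcases List.append_eq_append_iff.1 h1 with ⟨b1, h3, h4⟩ | ⟨b1, h3, h4⟩
        · -- P = a ++ b1, b = b1 ++ a'
          by_cases ha' : a' = []
          · subst ha'
            refine iht (by omega) l a b [] ?_ hb
            rw [h3, h4]; simp
          · obtain ⟨r, hr⟩ := W_head j (t + 1)
            have hj : j ∈ b := by
              rw [h4]
              cases a' with
              | nil => exact absurd rfl ha'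
              | cons y a' =>
                rw [hr] at h2
                simp at h2
                simp [h2.1]
            have hlj : j ≤ l := hb j hj
            have hle : b.count l ≤ (W (t + 1) (j + 1)).count l := by
              rw [h0, List.count_append, List.count_append]; omega
            rcases Nat.lt_or_ge j l with hl | hl
            · rcases Nat.lt_or_ge (j + 1) l with hl' | hl'
              · have : (W (t + 1) (j + 1)).count l = 0 := by
                  apply List.count_eq_zero_of_not_mem
                  intro h
                  have := le_of_mem_W _ _ _ h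
                  omega
                omega
              · have : l = j + 1 := by omega
                subst this
                rw [count_self_W] at hle
                omega
            · have : l = j := by omega
              subst this
              rw [count_pred_W] at hle
              omega
        · -- a = P ++ b1, a' = b1 ++ b
          refine ihj (t + 1) htT l b1 b c ?_ hb
          rw [h2, h4]
      · -- P = (a ++ b) ++ a', c = a' ++ Q
        exact iht (by omega) l a b a' h1 hb

theorem map_val_hLetter (n : ℕ) (i : Fin (n + 1)) :
    (hLetter n i).map Fin.val = (List.range (i + 1)).reverse := by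
  unfold hLetter
  rw [List.map_reverse]
  congr 1
  have h1 : ((List.finRange (n + 1)).filter (· ≤ i)).map Fin.val =
      ((List.finRange (n + 1)).map Fin.val).filter (· ≤ (i : ℕ)) := by
    rw [List.filter_map]
    rfl
  rw [h1, List.map_coe_finRange_eq_range]
  have h2 : ∀ m k : ℕ, k < m → (List.range m).filter (· ≤ k) = List.range (k + 1) := by
    intro m k hk
    induction m with
    | zero => omega
    | succ m ih =>
      rw [List.range_succ, List.filter_append]
      rcases Nat.lt_or_ge k m with h | h
      · rw [ih h]
        have : ¬ m ≤ k := by omega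
        simp [this]
      · have : m = k := by omega
        subst this
        rw [List.range_succ]
        congr 1
        · apply List.filter_eq_self.2
          intro a ha
          simp at ha
          simp; omega
        · simp
  exact h2 _ _ i.2

theorem h_append (n : ℕ) (t : ℕ) (a b : List (Fin (n + 1))) :
    (h n)^[t] (a ++ b) = (h n)^[t] a ++ (h n)^[t] b := by
  induction t generalizing a b with
  | zero => rfl
  | succ t ih =>
    rw [Function.iterate_succ_apply, Function.iterate_succ_apply, Function.iterate_succ_apply, ← ih]
    congr 1
    simp [h]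

theorem hLetter_succ (n j : ℕ) (hj : j + 1 < n + 1) :
    hLetter n ⟨j + 1, hj⟩ = ⟨j + 1, hj⟩ :: hLetter n ⟨j, by omega⟩ := by
  apply (List.map_injective_iff.2 Fin.val_injective)
  rw [List.map_cons, map_val_hLetter, map_val_hLetter]
  simp [List.range_succ]

theorem map_val_h (n : ℕ) (j : ℕ) : ∀ (t : ℕ) (hj : j < n + 1),
    ((h n)^[t] [⟨j, hj⟩]).map Fin.val = W t j := by
  induction j with
  | zero =>
    intro t hj
    induction t with
    | zero => simp
    | succ t ih =>
      rw [Function.iterate_succ_apply]
      have : h n [⟨0, hj⟩] = [⟨0, hj⟩] := by
        apply (List.map_injective_iff.2 Fin.val_injective)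
        simp [h, map_val_hLetter]
      rw [this, ih]; simp
  | succ j ihj =>
    intro t hj
    induction t with
    | zero => simp
    | succ t ih =>
      rw [W_succ, ← ih, ← ihj (t + 1) (by omega), ← List.map_append]
      congr 1
      rw [Function.iterate_succ_apply, Function.iterate_succ_apply]
      have h1 : h n [⟨j + 1, hj⟩] = [⟨j + 1, hj⟩] ++ h n [⟨j, by omega⟩] := by
        simp [h, hLetter_succ]
      rw [h1, h_append]

theorem powBound_Gbar (n : ℕ) : PowBound (Gbar n) n n.factorial := by
  rintro u ⟨i, hi, rfl⟩ a g b t hu hg
  have hlast : (Fin.last n) = ⟨n, by omega⟩ := rfl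
  have h1 : W i n = a.map Fin.val ++ rep t (g.map Fin.val) ++ b.map Fin.val := by
    rw [← map_val_h n n i (by omega), ← hlast, hu]
    simp [rep, List.map_flatten]
  have hlen : ((h n)^[i] [Fin.last n]).length = (W i n).length := by
    rw [← map_val_h n n i (by omega), hlast, List.length_map]
  -- the maximal letter
  obtain ⟨l, hl, hmax⟩ : ∃ l ∈ g.map Fin.val, ∀ x ∈ g.map Fin.val, x ≤ l := by
    have hne : (g.map Fin.val).toFinset.Nonempty := by
      cases g with
      | nil => exact absurd rfl hg
      | cons x g => exact ⟨x, by simp⟩
    refine ⟨(g.map Fin.val).toFinset.max' hne, ?_, ?_⟩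
    · exact List.mem_toFinset.1 (Finset.max'_mem _ hne)
    · intro x hx
      exact Finset.le_max' _ _ (List.mem_toFinset.2 hx)
  have h2 : (rep t (g.map Fin.val)).count l ≤ i := by
    refine count_factor_W i hi n i le_rfl l _ _ _ h1 ?_
    intro x hx
    simp only [rep, List.mem_flatten, List.mem_replicate] at hx
    obtain ⟨w, ⟨-, rfl⟩, hx⟩ := hx
    exact hmax x hx
  have h3 : t ≤ (rep t (g.map Fin.val)).count l := by
    clear h2 h1 hu
    induction t with
    | zero => omega
    | succ t ih =>
      rw [rep_succ, List.count_append]
      have : 0 < (g.map Fin.val).count l := List.count_pos_iff.2 hl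
      omega
  rw [hlen, length_W]
  calc t ^ n ≤ i ^ n := Nat.pow_le_pow_left (by omega) n
    _ ≤ (i + 1) ^ n := Nat.pow_le_pow_left (by omega) n
    _ ≤ (i + 1).ascFactorial n := Nat.pow_succ_le_ascFactorial (i + 1) n
    _ = n.factorial * (i + n).choose n := Nat.ascFactorial_eq_factorial_mul_choose i n

end Pool.H80.Cone
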