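import Mathlib
import Pool.Agent.H80.ConeWords

/-!
The words `h_2^i(b_2) = b_2 b_1 b_0 b_1 b_0^2 ... b_1 b_0^i`.
-/

namespace Pool.H80.Cone

/-- positions of the letters `b_1` -/
def lam : ℕ → ℕ
  | 0 => 1
  | i + 1 => lam i + (i + 2)

theorem lam_succ (i : ℕ) : lam (i + 1) = lam i + (i + 2) := rfl

theorem lam_strictMono : StrictMono lam := strictMono_nat_of_lt_succ (fun i => by rw [lam_succ]; omega)

theorem lam_pos (i : ℕ) : 1 ≤ lam i := by
  induction i with
  | zero => exact le_rfl
  | succ i ih => rw [lam_succ]; omega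

theorem lam_lower (i : ℕ) : i + 1 ≤ lam i := by
  induction i with
  | zero => exact le_rfl
  | succ i ih => rw [lam_succ]; omega

theorem lam_upper (i : ℕ) : lam i ≤ (i + 1) * (i + 1) := by
  induction i with
  | zero => simp [lam]
  | succ i ih => 
    have e : (i + 1 + 1) * (i + 1 + 1) = (i + 1) * (i + 1) + 2 * (i + 1) + 1 := by ring
    rw [lam_succ, e]; omega

open Classical in
/-- the infinite word `b_2 b_1 b_0 b_1 b_0^2 b_1 b_0^3 ...` -/
noncomputable def om (n : ℕ) : Fin 3 := if n = 0 then 2 else if ∃ i, n = lam i then 1 else 0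

theorem om_lam (i : ℕ) : om (lam i) = 1 := by
  have := lam_pos i
  unfold om
  rw [if_neg (by omega), if_pos ⟨i, rfl⟩]

theorem om_eq_one {n : ℕ} (h : om n = 1) : ∃ i, n = lam i := by
  by_contra hcon
  unfold om at h
  rw [if_neg hcon] at h
  split_ifs at h <;> simp at h

theorem om_eq_zero {n : ℕ} (h1 : 1 ≤ n) (h2 : ∀ i, n ≠ lam i) : om n = 0 := by
  unfold om
  rw [if_neg (by omega), if_neg (by push Not; exact h2)]

/-- the prefix of length `T` of the infinite word -/
noncomputable def pre (T : ℕ) : List (Fin 3) := (List.range T).map om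

@[simp] theorem length_pre (T : ℕ) : (pre T).length = T := by simp [pre]

theorem pre_zero : pre 0 = [] := rfl

theorem pre_succ (T : ℕ) : pre (T + 1) = pre T ++ [om T] := by
  simp [pre, List.range_succ]

/-- the factor between the positions `T` and `T'` -/
noncomputable def seg (T T' : ℕ) : List (Fin 3) := (List.range' T (T' - T)).map om

theorem pre_append_seg {T T' : ℕ} (h : T ≤ T') : pre T ++ seg T T' = pre T' := by
  unfold pre seg
  rw [← List.map_append, List.range_eq_range', List.range_eq_range']
  congr 1
  have h1 : List.range' 0 T ++ List.range' (0 + T) (T' - T) = List.range' 0 (T + (T' - T)) :=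
    List.range'_append_1
  rw [Nat.zero_add] at h1
  rw [h1]
  congr 1
  omega

theorem pre_append_inj {T T' : ℕ} {g : List (Fin 3)} (h : pre T ++ g = pre T') :
    T' = T + g.length ∧ g = seg T T' := by
  have h1 : T' = T + g.length := by
    have := congrArg List.length h
    simpa using this.symm
  refine ⟨h1, ?_⟩
  have h2 : T ≤ T' := by omega
  rw [← pre_append_seg h2] at h
  exact List.append_cancel_left h

theorem append_eq_pre {x y : List (Fin 3)} {T : ℕ} (h : x ++ y = pre T) :
    x = pre x.length ∧ x.length ≤ T := by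
  have h1 : x.length ≤ T := by
    have := congrArg List.length h
    simp at this
    omega
  refine ⟨?_, h1⟩
  have h2 := congrArg (List.take x.length) h
  rw [List.take_left'] at h2
  · rw [h2]
    simp [pre, ← List.map_take, List.take_range, min_eq_left h1]
  · rfl

theorem one_mem_seg {T T' : ℕ} : (1 : Fin 3) ∈ seg T T' ↔ ∃ i, T ≤ lam i ∧ lam i < T' := by
  unfold seg
  rw [List.mem_map]
  constructor
  · rintro ⟨n, hn, h1⟩
    obtain ⟨i, rfl⟩ := om_eq_one h1
    rw [List.mem_range'_1] at hn
    exact ⟨i, hn.1, by omega⟩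
  · rintro ⟨i, h1, h2⟩
    exact ⟨lam i, List.mem_range'_1.2 ⟨h1, by omega⟩, om_lam i⟩

theorem seg_zero {T T' : ℕ} (hT : 1 ≤ T) (h : ∀ i, T ≤ lam i → T' ≤ lam i) :
    seg T T' = List.replicate (T' - T) 0 := by
  unfold seg
  apply List.eq_replicate_iff.2
  refine ⟨by simp, ?_⟩
  intro x hx
  rw [List.mem_map] at hx
  obtain ⟨n, hn, rfl⟩ := hx
  rw [List.mem_range'_1] at hn
  apply om_eq_zero (by omega)
  rintro i rfl
  have := h i hn.1
  omega

theorem count_pre_lam (i : ℕ) : (pre (lam i)).count 1 = i := by
  induction i with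
  | zero =>
    show (pre 1).count 1 = 0
    rw [pre_succ, pre_zero]
    simp [om]
  | succ i ih =>
    have h1 : lam i + 1 ≤ lam (i + 1) := by rw [lam_succ]; omega
    rw [← pre_append_seg h1, pre_succ, om_lam, seg_zero (by omega)]
    · rw [List.count_append, List.count_append, ih, List.count_replicate]
      simp
    · intro j hj
      have : i < j := by
        by_contra hcon
        have := lam_strictMono.monotone (show j ≤ i by omega)
        omega
      exact lam_strictMono.monotone this

theorem pre_lam_succ (i : ℕ) : pre (lam (i + 1)) = pre (lam i) ++ (1 :: List.replicate (i + 1) 0) := by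
  have h1 : lam i + 1 ≤ lam (i + 1) := by rw [lam_succ]; omega
  rw [← pre_append_seg h1, pre_succ, om_lam, seg_zero (by omega)]
  · rw [lam_succ]
    have : lam i + (i + 2) - (lam i + 1) = i + 1 := by omega
    rw [this]; simp
  · intro j hj
    have : i < j := by
      by_contra hcon
      have := lam_strictMono.monotone (show j ≤ i by omega)
      omega
    exact lam_strictMono.monotone this

theorem h2_iterate_two (i : ℕ) : (h 2)^[i] [2] = pre (lam i) := by
  have h1 : ∀ t, (h 2)^[t] [1] = 1 :: List.replicate t 0 := by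
    intro t
    induction t with
    | zero => simp
    | succ t ih =>
      rw [Function.iterate_succ_apply', ih]
      have e0 : hLetter 2 1 = [1, 0] := by decide
      have e1 : h 2 (1 :: List.replicate t 0) = [1, 0] ++ h 2 (List.replicate t 0) := by
        rw [← e0]
        simp [h]
      have e2 : h 2 (List.replicate t 0) = List.replicate t 0 := by
        clear ih e1
        induction t with
        | zero => simp [h]
        | succ t ih =>
          rw [List.replicate_succ]
          have : h 2 (0 :: List.replicate t 0) = hLetter 2 0 ++ h 2 (List.replicate t 0) := by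
            simp [h]
          rw [this, ih]
          have : hLetter 2 0 = [0] := by decide
          rw [this]; rfl
      rw [e1, e2]; rfl
  induction i with
  | zero =>
    show [2] = pre 1
    rw [pre_succ, pre_zero]; simp [om]
  | succ i ih =>
    rw [pre_lam_succ, ← ih, ← h1 (i + 1), Function.iterate_succ_apply, Function.iterate_succ_apply,
      ← h_append]
    congr 1

/-- the words `b_2 b_1 b_0 b_1 b_0^2 ... b_1 b_0^i`, `i ≥ 1` -/
def H2 : Set (List (Fin 3)) := {u | ∃ i, 1 ≤ i ∧ u = pre (lam i)}

theorem Gbar_two_eq : Gbar 2 = H2 := by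
  ext u
  constructor
  · rintro ⟨i, hi, rfl⟩
    exact ⟨i, hi, h2_iterate_two i⟩
  · rintro ⟨i, hi, rfl⟩
    exact ⟨i, hi, (h2_iterate_two i).symm⟩

theorem mem_Gbar_two {u : List (Fin 3)} : u ∈ H2 ↔ ∃ i, 1 ≤ i ∧ u = pre (lam i) := Iff.rfl

/-- number of letters `b_1` before position `T` -/
noncomputable def idx (T : ℕ) : ℕ := (pre T).count 1

theorem idx_lam (i : ℕ) : idx (lam i) = i := count_pre_lam i

theorem idx_mono : Monotone idx := by
  intro T T' h
  unfold idx
  rw [← pre_append_seg h, List.count_append]
  omega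

theorem le_lam_idx (T : ℕ) : T ≤ lam (idx T) := by
  by_contra hcon
  push Not at hcon
  have h1 : pre (lam (idx T) + 1) = pre (lam (idx T)) ++ [1] := by rw [pre_succ, om_lam]
  have h2 : idx (lam (idx T) + 1) = idx T + 1 := by
    have e : idx (lam (idx T) + 1) = (pre (lam (idx T) + 1)).count 1 := rfl
    rw [e, h1, List.count_append, count_pre_lam]
    simp
  have h3 := idx_mono (show lam (idx T) + 1 ≤ T by omega)
  omega

theorem idx_le_iff {T i : ℕ} : idx T ≤ i ↔ T ≤ lam i := by
  constructor
  · intro h
    exact (le_lam_idx T).trans (lam_strictMono.monotone h)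
  · intro h
    have := idx_mono h
    rwa [idx_lam] at this

theorem lt_idx_iff {T i : ℕ} : i < idx T ↔ lam i < T := by
  rw [← not_le, idx_le_iff, not_le]

theorem takeWhile_append_of_mem {l l' : List (Fin 3)} (h : (1 : Fin 3) ∈ l) :
    (l ++ l').takeWhile (fun x => x = 0) = l.takeWhile (fun x => x = 0) := by
  induction l with
  | nil => simp at h
  | cons a l ih =>
    by_cases ha : a = 0
    · subst ha
      have : (1 : Fin 3) ∈ l := by simpa using h
      simp [ih this]
    · simp [ha]

/-- a suffix of `pre (lam k)` that contains a letter `b_1` determines `k` -/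
theorem suffix_index {z y : List (Fin 3)} {k : ℕ} (hk : 1 ≤ k) (hz : z ++ y = pre (lam k))
    (hy : (1 : Fin 3) ∈ y) : (y.reverse.takeWhile (fun x => x = 0)).length = k := by
  obtain ⟨k, rfl⟩ : ∃ k', k = k' + 1 := ⟨k - 1, by omega⟩
  rw [pre_lam_succ] at hz
  have h1 := congrArg List.reverse hz
  rw [List.reverse_append, List.reverse_append, List.reverse_cons, List.reverse_replicate] at h1
  have h2 := congrArg (List.takeWhile (fun x : Fin 3 => x = 0)) h1
  rw [takeWhile_append_of_mem (by simpa using hy), takeWhile_append_of_mem (by simp)] at h2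
  rw [h2]
  rw [List.takeWhile_append_of_pos]
  · simp
  · intro a ha
    simpa using List.eq_of_mem_replicate ha

/-- left uniqueness -/
theorem left_unique {x x' y : List (Fin 3)} (h1 : x ++ y ∈ H2) (h2 : x' ++ y ∈ H2)
    (hy : (1 : Fin 3) ∈ y) : x = x' := by
  obtain ⟨i, hi, hu⟩ := mem_Gbar_two.1 h1
  obtain ⟨j, hj, hv⟩ := mem_Gbar_two.1 h2
  have h3 := suffix_index hi hu hy
  have h4 := suffix_index hj hv hy
  have : i = j := by omega
  subst this
  rw [← hv] at hu
  exact List.append_cancel_right hu

/-- two words in `H2` with the same number of letters `b_1` are equal -/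
theorem eq_of_count {u v : List (Fin 3)} (h1 : u ∈ H2) (h2 : v ∈ H2)
    (h : u.count 1 = v.count 1) : u = v := by
  obtain ⟨i, hi, rfl⟩ := mem_Gbar_two.1 h1
  obtain ⟨j, hj, rfl⟩ := mem_Gbar_two.1 h2
  rw [count_pre_lam, count_pre_lam] at h
  rw [h]

/-- right uniqueness -/
theorem right_unique {x y y' : List (Fin 3)} (h1 : x ++ y ∈ H2) (h2 : x ++ y' ∈ H2)
    (hy : (1 : Fin 3) ∉ y) (hy' : (1 : Fin 3) ∉ y') : y = y' := by
  have h3 := eq_of_count h1 h2 (by
    rw [List.count_append, List.count_append, List.count_eq_zero_of_not_mem hy,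
      List.count_eq_zero_of_not_mem hy'])
  exact List.append_cancel_left h3

theorem zeros_of_suffix {x y : List (Fin 3)} (h : x ++ y ∈ H2) (hy : (1 : Fin 3) ∉ y) :
    y = List.replicate y.length 0 := by
  obtain ⟨k, hk, hz⟩ := mem_Gbar_two.1 h
  obtain ⟨k, rfl⟩ : ∃ k', k = k' + 1 := ⟨k - 1, by omega⟩
  rw [pre_lam_succ] at hz
  rcases List.append_eq_append_iff.1 hz with ⟨a, h3, h4⟩ | ⟨a, h3, h4⟩
  · exact absurd (by rw [h4]; simp) hy
  · cases a with
    | nil =>
      simp at h4
      exact absurd (by rw [← h4]; simp) hy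
    | cons c a =>
      simp only [List.cons_append, List.cons.injEq] at h4
      obtain ⟨-, h4⟩ := h4
      apply List.eq_replicate_iff.2
      refine ⟨rfl, ?_⟩
      intro b hb
      have : b ∈ List.replicate (k + 1) (0 : Fin 3) := by rw [h4]; simp [hb]
      exact List.eq_of_mem_replicate this

theorem idx_eq_count {T : ℕ} : idx T = (pre T).count 1 := rfl

/-- a word `x 0^l` in `H2` has `l` at most the number of letters `b_1` of `x` -/
theorem zeros_le_count {x : List (Fin 3)} {l : ℕ} (h : x ++ List.replicate l 0 ∈ H2) :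
    l ≤ x.count 1 := by
  obtain ⟨k, hk, hz⟩ := mem_Gbar_two.1 h
  have h1 : x.count 1 = k := by
    have := congrArg (List.count 1) hz
    rw [count_pre_lam, List.count_append, List.count_replicate] at this
    simpa using this
  rw [h1]
  by_contra hcon
  push Not at hcon
  obtain ⟨k, rfl⟩ : ∃ k', k = k' + 1 := ⟨k - 1, by omega⟩
  rw [pre_lam_succ] at hz
  have e : List.replicate l (0 : Fin 3) = List.replicate (l - (k + 1)) 0 ++ List.replicate (k + 1) 0 := by
    rw [← List.replicate_add]; congr 1; omega
  have e2 : pre (lam k) ++ (1 :: List.replicate (k + 1) 0) =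
      (pre (lam k) ++ [1]) ++ List.replicate (k + 1) 0 := by simp
  rw [e, e2, ← List.append_assoc] at hz
  have h2 := List.append_cancel_right hz
  have e3 : List.replicate (l - (k + 1)) (0 : Fin 3) = List.replicate (l - (k + 1) - 1) 0 ++ [0] := by
    have : l - (k + 1) = (l - (k + 1) - 1) + 1 := by omega
    conv_lhs => rw [this]
    exact List.replicate_succ'
  rw [e3, ← List.append_assoc] at h2
  have h3 := List.append_inj_right' h2 rfl
  simp at h3

end Pool.H80.Cone
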