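import Mathlib
import Pool.Agent.H80.ConeOmega
import Pool.Agent.H80.ConeDrift

/-!
View systems with modes, positions of live states.
-/

namespace Pool.H80.Cone

/-- the words all of whose views are in `H2` -/
def goodOf {Y Q : Type} (I F : Set Q) (out : Q → List Y → Q → List (Fin 3) → Prop) :
    Set (List Y) :=
  {v | ∀ i ∈ I, ∀ f ∈ F, ∀ u, out i v f u → u ∈ H2}

/-- A view system in which every state knows whether a letter `b_1` is still to come. -/
structure MSys (Y : Type) where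
  Q : Type
  finQ : Finite Q
  I : Set Q
  F : Set Q
  out : Q → List Y → Q → List (Fin 3) → Prop
  nil : ∀ q, out q [] q []
  comp : ∀ {q z p g z' r g'}, out q z p g → out p z' r g' → out q (z ++ z') r (g ++ g')
  split : ∀ {q z z' r g}, out q (z ++ z') r g →
    ∃ p g1 g2, g = g1 ++ g2 ∧ out q z p g1 ∧ out p z' r g2
  md : Q → Bool
  md_false : ∀ {q z r g}, out q z r g → md q = false → md r = false ∧ (1 : Fin 3) ∉ g
  md_true : ∀ {q z r g}, out q z r g → md q = true → md r = false → (1 : Fin 3) ∈ g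
  md_F : ∀ f ∈ F, md f = false
  C : ℕ
  bound : ∀ {α z β : List Y} {i q r f : Q} {a g b : List (Fin 3)}, α ++ z ++ β ∈ goodOf I F out →
    i ∈ I → f ∈ F → out i α q a → out q z r g → out r β f b → g.length ≤ C * (z.length + 1)

namespace MSys

variable {Y : Type}

/-- the words all of whose views are in `H2` -/
def good (S : MSys Y) : Set (List Y) := goodOf S.I S.F S.out

/-- the doubled output relation -/
def out2 (S : Sys (Fin 3) Y) (q : S.Q × Bool) (z : List Y) (r : S.Q × Bool) (g : List (Fin 3)) :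
    Prop :=
  S.out q.1 z r.1 g ∧ (q.2 = false → r.2 = false ∧ (1 : Fin 3) ∉ g) ∧
    (q.2 = true → r.2 = false → (1 : Fin 3) ∈ g)

theorem goodOf_out2 (S : Sys (Fin 3) Y) :
    goodOf {q : S.Q × Bool | q.1 ∈ S.I} {q : S.Q × Bool | q.1 ∈ S.F ∧ q.2 = false} (out2 S) =
      S.good H2 := by
  ext v
  constructor
  · rintro h u ⟨i, hi, f, hf, hp⟩
    by_cases hu : (1 : Fin 3) ∈ u
    · exact h (i, true) hi (f, false) ⟨hf, rfl⟩ u ⟨hp, by simp, by simp [hu]⟩
    · exact h (i, false) hi (f, false) ⟨hf, rfl⟩ u ⟨hp, by simp [hu], by simp⟩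
  · rintro h i hi f hf u ⟨hp, -, -⟩
    exact h ⟨i.1, hi, f.1, hf.1, hp⟩

/-- The view system with modes obtained from a view system. -/
def ofSys (S : Sys (Fin 3) Y) {k K : ℕ} (hH : PowBound H2 k K) (hk : 2 ≤ k) : MSys Y where
  Q := S.Q × Bool
  finQ := by
    have := S.finQ
    infer_instance
  I := {q | q.1 ∈ S.I}
  F := {q | q.1 ∈ S.F ∧ q.2 = false}
  out := out2 S
  nil := fun q => ⟨S.nil q.1, fun h => ⟨h, by simp⟩, fun h h' => by rw [h] at h'; simp at h'⟩
  comp := by
    rintro ⟨q, m⟩ z ⟨p, m'⟩ g z' ⟨r, m''⟩ g' ⟨h1, h2, h3⟩ ⟨h4, h5, h6⟩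
    refine ⟨S.comp h1 h4, ?_, ?_⟩
    · intro hm
      obtain ⟨h7, h8⟩ := h2 hm
      obtain ⟨h9, h10⟩ := h5 h7
      exact ⟨h9, by simp [h8, h10]⟩
    · intro hm hm''
      rw [List.mem_append]
      cases m' with
      | true => exact Or.inr (h6 rfl hm'')
      | false => exact Or.inl (h3 hm rfl)
  split := by
    rintro ⟨q, m⟩ z z' ⟨r, m''⟩ g ⟨h1, h2, h3⟩
    obtain ⟨p, g1, g2, rfl, h4, h5⟩ := S.split h1
    cases m with
    | false =>
      obtain ⟨h6, h7⟩ := h2 rfl
      simp only [List.mem_append, not_or] at h7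
      simp only at h6
      subst h6
      exact ⟨(p, false), g1, g2, rfl, ⟨h4, fun _ => ⟨rfl, h7.1⟩, by simp⟩,
        ⟨h5, fun _ => ⟨rfl, h7.2⟩, by simp⟩⟩
    | true =>
      cases m'' with
      | true =>
        exact ⟨(p, true), g1, g2, rfl, ⟨h4, by simp, by simp⟩, ⟨h5, by simp, by simp⟩⟩
      | false =>
        by_cases hg2 : (1 : Fin 3) ∈ g2
        · exact ⟨(p, true), g1, g2, rfl, ⟨h4, by simp, by simp⟩, ⟨h5, by simp, fun _ _ => hg2⟩⟩
        · have hg1 : (1 : Fin 3) ∈ g1 := by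
            have := h3 rfl rfl
            rw [List.mem_append] at this
            exact this.resolve_right hg2
          exact ⟨(p, false), g1, g2, rfl, ⟨h4, by simp, fun _ _ => hg1⟩,
            ⟨h5, fun _ => ⟨rfl, hg2⟩, by simp⟩⟩
  md := Prod.snd
  md_false := fun h hm => h.2.1 hm
  md_true := fun h hm hm' => h.2.2 hm hm'
  md_F := fun f hf => hf.2
  C := S.C
  bound := by
    intro α z β i q r f a g b hg hi hf h1 h2 h3
    rw [goodOf_out2] at hg
    exact S.live_length hH hk hi hf.1 h1.1 h2.1 h3.1 hg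

theorem good_ofSys (S : Sys (Fin 3) Y) {k K : ℕ} (hH : PowBound H2 k K) (hk : 2 ≤ k) :
    (ofSys S hH hk).good = S.good H2 := goodOf_out2 S

theorem out_ofSys_of {S : Sys (Fin 3) Y} {k K : ℕ} {hH : PowBound H2 k K} {hk : 2 ≤ k}
    {v : List Y} {u : List (Fin 3)} (hu : u ∈ S.views v) :
    ∃ i ∈ (ofSys S hH hk).I, ∃ f ∈ (ofSys S hH hk).F, (ofSys S hH hk).out i v f u := by
  obtain ⟨i, hi, f, hf, hp⟩ := hu
  by_cases hu : (1 : Fin 3) ∈ u
  · exact ⟨(i, true), hi, (f, false), ⟨hf, rfl⟩, ⟨hp, by simp, by simp [hu]⟩⟩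
  · exact ⟨(i, false), hi, (f, false), ⟨hf, rfl⟩, ⟨hp, by simp [hu], by simp⟩⟩

/-! ### Cuts -/

section cut

variable (S : MSys Y) (v : List Y)

def Reach (t : ℕ) (q : S.Q) : Prop := ∃ i ∈ S.I, ∃ a, S.out i (v.take t) q a
def Coreach (t : ℕ) (q : S.Q) : Prop := ∃ f ∈ S.F, ∃ b, S.out q (v.drop t) f b
def Live (t : ℕ) (q : S.Q) : Prop := S.Reach v t q ∧ S.Coreach v t q

open Classical in
/-- position of a live state of mode `true` -/
noncomputable def TL (t : ℕ) (q : S.Q) : ℕ :=
  if h : ∃ T, ∃ i ∈ S.I, S.out i (v.take t) q (pre T) then h.choose else 0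

open Classical in
/-- number of letters still to come at a live state of mode `false` -/
noncomputable def TR (t : ℕ) (q : S.Q) : ℕ :=
  if h : ∃ l, ∃ f ∈ S.F, S.out q (v.drop t) f (List.replicate l 0) then h.choose else 0

/-- factor of a word -/
def sg (v : List Y) (s t : ℕ) : List Y := (v.drop s).take (t - s)

theorem sg_self (t : ℕ) : sg v t t = [] := by simp [sg]

theorem take_append_sg {s t : ℕ} (h : s ≤ t) : v.take s ++ sg v s t = v.take t := by
  unfold sg
  have e : t = s + (t - s) := by omega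
  conv_rhs => rw [e, List.take_add]

theorem sg_append_drop {s t : ℕ} (h : s ≤ t) : sg v s t ++ v.drop t = v.drop s := by
  unfold sg
  have e : v.drop t = (v.drop s).drop (t - s) := by
    rw [List.drop_drop]; congr 1; omega
  rw [e, List.take_append_drop]

theorem sg_append_sg {s t r : ℕ} (h : s ≤ t) (h' : t ≤ r) : sg v s t ++ sg v t r = sg v s r := by
  unfold sg
  have e : r - s = (t - s) + (r - t) := by omega
  rw [e, List.take_add, List.drop_drop]
  congr 3
  omega

theorem length_sg {s t : ℕ} (h : s ≤ t) (ht : t ≤ v.length) : (sg v s t).length = t - s := by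
  unfold sg
  rw [List.length_take, List.length_drop]
  omega

theorem take_sg_drop {s t : ℕ} (h : s ≤ t) : v.take s ++ sg v s t ++ v.drop t = v := by
  rw [take_append_sg v h, List.take_append_drop]

variable {S v}

theorem cut_L (hv : v ∈ S.good) {t : ℕ} {i q f : S.Q} {a b : List (Fin 3)} (hi : i ∈ S.I)
    (hf : f ∈ S.F) (h1 : S.out i (v.take t) q a) (h2 : S.out q (v.drop t) f b)
    (hm : S.md q = true) : a = pre (S.TL v t q) ∧ (1 : Fin 3) ∈ b := by
  have hb : (1 : Fin 3) ∈ b := S.md_true h2 hm (S.md_F f hf)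
  have key : ∀ i' ∈ S.I, ∀ a', S.out i' (v.take t) q a' → a' ++ b ∈ H2 := by
    intro i' hi' a' h'
    apply hv i' hi' f hf
    have := S.comp h' h2
    rwa [List.take_append_drop] at this
  have h3 : a = pre a.length := by
    obtain ⟨k, -, hk⟩ := mem_Gbar_two.1 (key i hi a h1)
    exact (append_eq_pre hk).1
  have h4 : ∃ T, ∃ i ∈ S.I, S.out i (v.take t) q (pre T) := ⟨a.length, i, hi, h3 ▸ h1⟩
  refine ⟨?_, hb⟩
  unfold TL
  rw [dif_pos h4]
  obtain ⟨i', hi', h5⟩ := h4.choose_spec
  exact left_unique (key i hi a h1) (key i' hi' _ h5) hb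

theorem cut_R (hv : v ∈ S.good) {t : ℕ} {i q f : S.Q} {a b : List (Fin 3)} (hi : i ∈ S.I)
    (hf : f ∈ S.F) (h1 : S.out i (v.take t) q a) (h2 : S.out q (v.drop t) f b)
    (hm : S.md q = false) : b = List.replicate (S.TR v t q) 0 := by
  have hb : (1 : Fin 3) ∉ b := (S.md_false h2 hm).2
  have key : ∀ f' ∈ S.F, ∀ b', S.out q (v.drop t) f' b' → a ++ b' ∈ H2 := by
    intro f' hf' b' h'
    apply hv i hi f' hf'
    have := S.comp h1 h'
    rwa [List.take_append_drop] at this
  have h3 : b = List.replicate b.length 0 := zeros_of_suffix (key f hf b h2) hb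
  have h4 : ∃ l, ∃ f ∈ S.F, S.out q (v.drop t) f (List.replicate l 0) := ⟨b.length, f, hf, h3 ▸ h2⟩
  unfold TR
  rw [dif_pos h4]
  obtain ⟨f', hf', h5⟩ := h4.choose_spec
  exact right_unique (key f hf b h2) (key f' hf' _ h5) hb (by
    intro h
    have := List.eq_of_mem_replicate h
    simp at this)

theorem live_L (hv : v ∈ S.good) {t : ℕ} {q : S.Q} (h : S.Live v t q) (hm : S.md q = true) :
    ∃ i ∈ S.I, S.out i (v.take t) q (pre (S.TL v t q)) := by
  obtain ⟨⟨i, hi, a, ha⟩, f, hf, b, hb⟩ := h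
  obtain ⟨h1, -⟩ := cut_L hv hi hf ha hb hm
  exact ⟨i, hi, h1 ▸ ha⟩

theorem live_R (hv : v ∈ S.good) {t : ℕ} {q : S.Q} (h : S.Live v t q) (hm : S.md q = false) :
    ∃ f ∈ S.F, S.out q (v.drop t) f (List.replicate (S.TR v t q) 0) := by
  obtain ⟨⟨i, hi, a, ha⟩, f, hf, b, hb⟩ := h
  have h1 := cut_R hv hi hf ha hb hm
  exact ⟨f, hf, h1 ▸ hb⟩

theorem reach_step {s t : ℕ} (hst : s ≤ t) {q p : S.Q} {g : List (Fin 3)}
    (h : S.out q (sg v s t) p g) (hq : S.Reach v s q) : S.Reach v t p := by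
  obtain ⟨i, hi, a, ha⟩ := hq
  refine ⟨i, hi, a ++ g, ?_⟩
  rw [← take_append_sg v hst]
  exact S.comp ha h

theorem coreach_step {s t : ℕ} (hst : s ≤ t) {q p : S.Q} {g : List (Fin 3)}
    (h : S.out q (sg v s t) p g) (hp : S.Coreach v t p) : S.Coreach v s q := by
  obtain ⟨f, hf, b, hb⟩ := hp
  refine ⟨f, hf, g ++ b, ?_⟩
  rw [← sg_append_drop v hst]
  exact S.comp h hb

theorem edge_length (hv : v ∈ S.good) {s t : ℕ} (hst : s ≤ t) (ht : t ≤ v.length) {q p : S.Q}
    {g : List (Fin 3)} (h : S.out q (sg v s t) p g) (hq : S.Reach v s q) (hp : S.Coreach v t p) :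
    g.length ≤ S.C * (t - s + 1) := by
  obtain ⟨i, hi, a, ha⟩ := hq
  obtain ⟨f, hf, b, hb⟩ := hp
  have := S.bound (α := v.take s) (z := sg v s t) (β := v.drop t)
    (by rw [take_sg_drop v hst]; exact hv) hi hf ha h hb
  rwa [length_sg v hst ht] at this

theorem edge_LL (hv : v ∈ S.good) {s t : ℕ} (hst : s ≤ t) {q p : S.Q}
    {g : List (Fin 3)} (h : S.out q (sg v s t) p g) (hq : S.Reach v s q) (hp : S.Coreach v t p)
    (hmq : S.md q = true) (hmp : S.md p = true) : pre (S.TL v s q) ++ g = pre (S.TL v t p) := by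
  have hq' : S.Live v s q := ⟨hq, coreach_step hst h hp⟩
  obtain ⟨i, hi, ha⟩ := live_L hv hq' hmq
  obtain ⟨f, hf, b, hb⟩ := hp
  have h1 : S.out i (v.take t) p (pre (S.TL v s q) ++ g) := by
    rw [← take_append_sg v hst]; exact S.comp ha h
  exact (cut_L hv hi hf h1 hb hmp).1

theorem edge_RR (hv : v ∈ S.good) {s t : ℕ} (hst : s ≤ t) {q p : S.Q}
    {g : List (Fin 3)} (h : S.out q (sg v s t) p g) (hq : S.Reach v s q) (hp : S.Coreach v t p)
    (hmq : S.md q = false) (hmp : S.md p = false) :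
    g ++ List.replicate (S.TR v t p) 0 = List.replicate (S.TR v s q) 0 := by
  have hp' : S.Live v t p := ⟨reach_step hst h hq, hp⟩
  obtain ⟨f, hf, hb⟩ := live_R hv hp' hmp
  obtain ⟨i, hi, a, ha⟩ := hq
  have h1 : S.out q (v.drop s) f (g ++ List.replicate (S.TR v t p) 0) := by
    rw [← sg_append_drop v hst]; exact S.comp h hb
  exact cut_R hv hi hf ha h1 hmq

theorem edge_LR (hv : v ∈ S.good) {s t : ℕ} (hst : s ≤ t) {q p : S.Q}
    {g : List (Fin 3)} (h : S.out q (sg v s t) p g) (hq : S.Reach v s q) (hp : S.Coreach v t p)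
    (hmq : S.md q = true) (hmp : S.md p = false) :
    pre (S.TL v s q) ++ g ++ List.replicate (S.TR v t p) 0 ∈ H2 := by
  have hq' : S.Live v s q := ⟨hq, coreach_step hst h hp⟩
  have hp' : S.Live v t p := ⟨reach_step hst h hq, hp⟩
  obtain ⟨i, hi, ha⟩ := live_L hv hq' hmq
  obtain ⟨f, hf, hb⟩ := live_R hv hp' hmp
  have h1 := S.comp (S.comp ha h) hb
  rw [take_sg_drop v hst] at h1
  exact hv i hi f hf _ h1

theorem edge_LL_len (hv : v ∈ S.good) {s t : ℕ} (hst : s ≤ t) {q p : S.Q}
    {g : List (Fin 3)} (h : S.out q (sg v s t) p g) (hq : S.Reach v s q) (hp : S.Coreach v t p)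
    (hmq : S.md q = true) (hmp : S.md p = true) : S.TL v t p = S.TL v s q + g.length :=
  (pre_append_inj (edge_LL hv hst h hq hp hmq hmp)).1

theorem edge_RR_len (hv : v ∈ S.good) {s t : ℕ} (hst : s ≤ t) {q p : S.Q}
    {g : List (Fin 3)} (h : S.out q (sg v s t) p g) (hq : S.Reach v s q) (hp : S.Coreach v t p)
    (hmq : S.md q = false) (hmp : S.md p = false) :
    S.TR v s q = g.length + S.TR v t p ∧ g = List.replicate g.length 0 := by
  have h1 := edge_RR hv hst h hq hp hmq hmp
  have h2 := congrArg List.length h1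
  simp only [List.length_append, List.length_replicate] at h2
  refine ⟨h2.symm, ?_⟩
  apply List.eq_replicate_iff.2
  refine ⟨rfl, fun b hb => ?_⟩
  have : b ∈ List.replicate (S.TR v s q) (0 : Fin 3) := by rw [← h1]; simp [hb]
  exact List.eq_of_mem_replicate this

/-- ancestors -/
theorem anc_L (hv : v ∈ S.good) {s t : ℕ} (hst : s ≤ t) (ht : t ≤ v.length) {q : S.Q}
    (hq : S.Live v t q) (hm : S.md q = true) : ∃ p, S.md p = true ∧ S.Live v s p ∧
      S.TL v s p ≤ S.TL v t q ∧ S.TL v t q ≤ S.TL v s p + S.C * (t - s + 1) := by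
  obtain ⟨⟨i, hi, a, ha⟩, hc⟩ := hq
  rw [← take_append_sg v hst] at ha
  obtain ⟨p, g1, g2, rfl, h1, h2⟩ := S.split ha
  have hmp : S.md p = true := by
    by_contra hcon
    rw [Bool.not_eq_true] at hcon
    have := (S.md_false h2 hcon).1
    rw [hm] at this
    simp at this
  have hr : S.Reach v s p := ⟨i, hi, g1, h1⟩
  have hlen := edge_LL_len hv hst h2 hr hc hmp hm
  have hb := edge_length hv hst ht h2 hr hc
  exact ⟨p, hmp, ⟨hr, coreach_step hst h2 hc⟩, by omega, by omega⟩

/-- descendants -/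
theorem desc_R (hv : v ∈ S.good) {s t : ℕ} (hst : s ≤ t) (ht : t ≤ v.length) {q : S.Q}
    (hq : S.Live v s q) (hm : S.md q = false) : ∃ p, S.md p = false ∧ S.Live v t p ∧
      S.TR v t p ≤ S.TR v s q ∧ S.TR v s q ≤ S.TR v t p + S.C * (t - s + 1) := by
  obtain ⟨hr, f, hf, b, hb⟩ := hq
  rw [← sg_append_drop v hst] at hb
  obtain ⟨p, g1, g2, rfl, h1, h2⟩ := S.split hb
  have hmp : S.md p = false := (S.md_false h1 hm).1
  have hc : S.Coreach v t p := ⟨f, hf, g2, h2⟩
  obtain ⟨hlen, -⟩ := edge_RR_len hv hst h1 hr hc hm hmp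
  have hb := edge_length hv hst ht h1 hr hc
  exact ⟨p, hmp, ⟨reach_step hst h1 hr, hc⟩, by omega, by omega⟩

variable (S v)

/-- the drifting configuration of the states of mode `true`; `none` is a particle that rests at
`0` -/
noncomputable def driftL (hv : v ∈ S.good) : Drift (Option S.Q) where
  n := v.length
  live t q := match q with
    | none => True
    | some q => S.md q = true ∧ S.Live v t q
  pos t q := match q with
    | none => 0
    | some q => S.TL v t q
  C := S.C
  anc := by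
    intro s t q hst ht hq
    cases q with
    | none => exact ⟨none, trivial, le_rfl, Nat.zero_le _⟩
    | some q =>
      obtain ⟨p, h1, h2, h3, h4⟩ := anc_L hv hst ht hq.2 hq.1
      exact ⟨some p, ⟨h1, h2⟩, h3, h4⟩

/-- the drifting configuration of the states of mode `false`, in reversed time -/
noncomputable def driftR (hv : v ∈ S.good) : Drift (Option S.Q) where
  n := v.length
  live t q := match q with
    | none => True
    | some q => S.md q = false ∧ S.Live v (v.length - t) q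
  pos t q := match q with
    | none => 0
    | some q => S.TR v (v.length - t) q
  C := S.C
  anc := by
    intro s t q hst ht hq
    cases q with
    | none => exact ⟨none, trivial, le_rfl, Nat.zero_le _⟩
    | some q =>
      obtain ⟨p, h1, h2, h3, h4⟩ := desc_R hv (s := v.length - t) (t := v.length - s)
        (by omega) (by omega) hq.2 hq.1
      refine ⟨some p, ⟨h1, h2⟩, h3, ?_⟩
      have e : v.length - s - (v.length - t) = t - s := by omega
      rw [e] at h4
      exact h4

end cut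

end MSys

end Pool.H80.Cone
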