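import Mathlib
import Pool.Agent.H80.ConeMSys

/-!
Analysis of a window in which all distances are small or large: loops between equal configurations
can be rearranged freely.
-/

namespace Pool.H80.Cone

namespace MSys

variable {Y : Type}

theorem gap_large {X N i : ℕ} (hX : X ^ 2 ≤ N) (h : N ≤ lam i) : X ≤ i + 1 := by
  by_contra hcon
  push Not at hcon
  have h1 := lam_upper i
  have h2 : (i + 1) * (i + 1) < X ^ 2 := by
    rw [sq]
    exact Nat.mul_lt_mul'' hcon hcon
  omega

theorem pre_extend {T1 T2 a b : ℕ} (h : idx T1 = idx T2) (h1 : 1 ≤ T1) (h2 : 1 ≤ T2)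
    (hab : T1 + a = T2 + b) :
    pre T1 ++ List.replicate a 0 = pre T2 ++ List.replicate b 0 := by
  have key : ∀ {T1 T2 a b : ℕ}, idx T1 = idx T2 → 1 ≤ T1 → T1 ≤ T2 → T1 + a = T2 + b →
      pre T1 ++ List.replicate a 0 = pre T2 ++ List.replicate b 0 := by
    intro T1 T2 a b h h1 h12 hab
    rw [← pre_append_seg h12, seg_zero h1, List.append_assoc, ← List.replicate_add]
    · congr 2
      omega
    · intro i hi
      rw [← idx_le_iff] at hi ⊢
      omega
  rcases le_total T1 T2 with h3 | h3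
  · exact key h h1 h3 hab
  · exact (key h.symm h2 h3 hab.symm).symm

variable (S : MSys Y) (v : List Y) (hv : v ∈ S.good)

/-- the cuts `s` and `t` have the same configuration -/
structure SameAt (a w I Z s t : ℕ) : Prop where
  reach : ∀ q, S.Reach v s q ↔ S.Reach v t q
  coreach : ∀ q, S.Coreach v s q ↔ S.Coreach v t q
  L : (S.driftL v hv).Same a I s t
  R : (S.driftR v hv).Same (v.length - (a + w)) I (v.length - s) (v.length - t)
  par : ∀ q, idx (S.TL v s q) % 2 = idx (S.TL v t q) % 2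
  hi : ∀ q, min (lam (idx (S.TL v s q)) - S.TL v s q) (Z + 1) =
    min (lam (idx (S.TL v t q)) - S.TL v t q) (Z + 1)
  cl : ∀ q q', min (S.TR v s q' + Z - idx (S.TL v s q)) (2 * Z + 1) =
    min (S.TR v t q' + Z - idx (S.TL v t q)) (2 * Z + 1)

/-- a window with separated scales -/
structure Win (a w I N Z X : ℕ) : Prop where
  hn : a + w ≤ v.length
  dL : ∀ t, a ≤ t → t ≤ a + w → (S.driftL v hv).Dich t I N
  dR : ∀ t, a ≤ t → t ≤ a + w → (S.driftR v hv).Dich (v.length - t) I N
  hX : X ^ 2 ≤ N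
  hX' : 4 * S.C * (w + 2) + 2 * I + 10 ≤ X
  hZ : I + 2 * S.C + 2 ≤ Z

variable {S v hv} {a w I N Z X : ℕ}

theorem SameAt.symm {s t : ℕ} (h : S.SameAt v hv a w I Z s t) : S.SameAt v hv a w I Z t s :=
  ⟨fun q => (h.reach q).symm, fun q => (h.coreach q).symm, h.L.symm, h.R.symm,
    fun q => (h.par q).symm, fun q => (h.hi q).symm, fun q q' => (h.cl q q').symm⟩

theorem SameAt.trans {s t r : ℕ} (h : S.SameAt v hv a w I Z s t)
    (h' : S.SameAt v hv a w I Z t r) : S.SameAt v hv a w I Z s r :=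
  ⟨fun q => (h.reach q).trans (h'.reach q), fun q => (h.coreach q).trans (h'.coreach q),
    h.L.trans h'.L, h.R.trans h'.R, fun q => (h.par q).trans (h'.par q),
    fun q => (h.hi q).trans (h'.hi q), fun q q' => (h.cl q q').trans (h'.cl q q')⟩

section

variable (W : S.Win v hv a w I N Z X)
include W

theorem Win.num : X ≤ N ∧ 4 * (S.C * (w + 1)) + 4 * S.C + 2 * I + 10 ≤ X := by
  have h1 := W.hX
  have h2 := W.hX'
  have e : 4 * S.C * (w + 2) = 4 * (S.C * (w + 1)) + 4 * S.C := by ring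
  refine ⟨?_, by omega⟩
  calc X ≤ X ^ 2 := by rw [sq]; exact Nat.le_mul_of_pos_left _ (by omega)
    _ ≤ N := h1

theorem Win.mul_le {s t : ℕ} (h : t ≤ s + w) : S.C * (t - s + 1) ≤ S.C * (w + 1) :=
  Nat.mul_le_mul_left _ (by omega)

/-- dichotomy for two left states -/
theorem Win.dichLL {t : ℕ} (h1 : a ≤ t) (h2 : t ≤ a + w) {q p : S.Q} (hq : S.Live v t q)
    (hp : S.Live v t p) (hmq : S.md q = true) (hmp : S.md p = true)
    (h3 : S.TL v t q < S.TL v t p + N) : S.TL v t q ≤ S.TL v t p + I := by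
  have := W.dL t h1 h2 (some q) (some p) ⟨hmq, hq⟩ ⟨hmp, hp⟩
  simp only [driftL] at this
  omega

theorem Win.dichL0 {t : ℕ} (h1 : a ≤ t) (h2 : t ≤ a + w) {q : S.Q} (hq : S.Live v t q)
    (hmq : S.md q = true) : S.TL v t q ≤ I ∨ N ≤ S.TL v t q := by
  have := W.dL t h1 h2 (some q) none ⟨hmq, hq⟩ trivial
  simp only [driftL] at this
  omega

theorem Win.dichRR {t : ℕ} (h1 : a ≤ t) (h2 : t ≤ a + w) {q p : S.Q} (hq : S.Live v t q)
    (hp : S.Live v t p) (hmq : S.md q = false) (hmp : S.md p = false)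
    (h3 : S.TR v t q < S.TR v t p + N) : S.TR v t q ≤ S.TR v t p + I := by
  have hn := W.hn
  have e : v.length - (v.length - t) = t := by omega
  have := W.dR t h1 h2 (some q) (some p) ⟨hmq, by rw [e]; exact hq⟩ ⟨hmp, by rw [e]; exact hp⟩
  simp only [driftR, e] at this
  omega

theorem Win.dichR0 {t : ℕ} (h1 : a ≤ t) (h2 : t ≤ a + w) {q : S.Q} (hq : S.Live v t q)
    (hmq : S.md q = false) : S.TR v t q ≤ I ∨ N ≤ S.TR v t q := by
  have hn := W.hn
  have e : v.length - (v.length - t) = t := by omega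
  have := W.dR t h1 h2 (some q) none ⟨hmq, by rw [e]; exact hq⟩ trivial
  simp only [driftR, e] at this
  omega

theorem Win.closeL {s t : ℕ} (h : S.SameAt v hv a w I Z s t) (hs1 : a ≤ s) (hs2 : s ≤ a + w)
    (ht1 : a ≤ t) (ht2 : t ≤ a + w) {q : S.Q} (hq : S.Live v s q) (hm : S.md q = true) :
    S.TL v t q ≤ S.TL v s q + S.C * (w + 1) :=
  h.L.close hs1 ht1 hs2 ht2 W.hn (q := some q) ⟨hm, hq⟩

theorem Win.closeR {s t : ℕ} (h : S.SameAt v hv a w I Z s t) (hs1 : a ≤ s) (hs2 : s ≤ a + w)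
    (ht1 : a ≤ t) (ht2 : t ≤ a + w) {q : S.Q} (hq : S.Live v s q) (hm : S.md q = false) :
    S.TR v t q ≤ S.TR v s q + S.C * (w + 1) := by
  have hn := W.hn
  have es : v.length - (v.length - s) = s := by omega
  have et : v.length - (v.length - t) = t := by omega
  have := h.R.close (w := w) (by omega) (by omega) (by omega) (by omega)
    (show v.length - (a + w) + w ≤ v.length by omega)
    (q := some q) ⟨hm, by rw [es]; exact hq⟩
  simpa only [driftR, es, et] using this

theorem Win.diffL {s t : ℕ} (h : S.SameAt v hv a w I Z s t) {q p : S.Q}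
    (h1 : S.TL v s q ≤ S.TL v s p + I) (h2 : S.TL v s p ≤ S.TL v s q + I) :
    S.TL v s q + S.TL v t p = S.TL v t q + S.TL v s p :=
  h.L.diff_eq (q := some q) (q' := some p) h1 h2

theorem Win.diffL0 {s t : ℕ} (h : S.SameAt v hv a w I Z s t) {q : S.Q}
    (h1 : S.TL v s q ≤ I) : S.TL v t q = S.TL v s q := by
  have := h.L.diff_eq (q := some q) (q' := none) (by simpa [driftL] using h1) (by simp [driftL])
  simp only [driftL] at this
  omega

theorem Win.diffR {s t : ℕ} (h : S.SameAt v hv a w I Z s t) (hs : s ≤ a + w) (ht : t ≤ a + w)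
    {q p : S.Q} (h1 : S.TR v s q ≤ S.TR v s p + I) (h2 : S.TR v s p ≤ S.TR v s q + I) :
    S.TR v s q + S.TR v t p = S.TR v t q + S.TR v s p := by
  have hn := W.hn
  have es : v.length - (v.length - s) = s := by omega
  have et : v.length - (v.length - t) = t := by omega
  have := h.R.diff_eq (q := some q) (q' := some p) (by simpa only [driftR, es] using h1)
    (by simpa only [driftR, es] using h2)
  simpa only [driftR, es, et] using this

theorem Win.diffR0 {s t : ℕ} (h : S.SameAt v hv a w I Z s t) (hs : s ≤ a + w) (ht : t ≤ a + w)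
    {q : S.Q} (h1 : S.TR v s q ≤ I) : S.TR v t q = S.TR v s q := by
  have hn := W.hn
  have es : v.length - (v.length - s) = s := by omega
  have et : v.length - (v.length - t) = t := by omega
  have := h.R.diff_eq (q := some q) (q' := none) (by simpa only [driftR, es, Nat.zero_add] using h1)
    (by simp [driftR])
  simp only [driftR, es, et] at this
  omega

theorem Win.monoL {s t : ℕ} (h : S.SameAt v hv a w I Z s t) (hs1 : a ≤ s) (hst : s ≤ t)
    (ht2 : t ≤ a + w) {q : S.Q} (hq : S.Live v s q) (hm : S.md q = true) :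
    S.TL v s q ≤ S.TL v t q ∧ S.TL v t q ≤ S.TL v s q + (I + S.C * (t - s + 1)) := by
  have := S.finQ
  obtain ⟨n1, n2⟩ := W.num
  have e : 2 * (S.driftL v hv).C * (w + 1) = 2 * (S.C * (w + 1)) := by
    show 2 * S.C * (w + 1) = _
    ring
  have h1 := h.L.mono hs1 hst ht2 W.hn (W.dL s hs1 (by omega)) (by rw [e]; omega) (by omega)
    (q := some q) ⟨hm, hq⟩
  have h2 := h.L.upper hs1 hst ht2 W.hn (W.dL s hs1 (by omega)) (by rw [e]; omega)
    (q := some q) ⟨hm, hq⟩
  exact ⟨h1, h2⟩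

theorem Win.monoR {s t : ℕ} (h : S.SameAt v hv a w I Z s t) (hs1 : a ≤ s) (hst : s ≤ t)
    (ht2 : t ≤ a + w) {q : S.Q} (hq : S.Live v s q) (hm : S.md q = false) :
    S.TR v t q ≤ S.TR v s q ∧ S.TR v s q ≤ S.TR v t q + (I + S.C * (t - s + 1)) := by
  have := S.finQ
  obtain ⟨n1, n2⟩ := W.num
  have hn := W.hn
  have es : v.length - (v.length - s) = s := by omega
  have et : v.length - (v.length - t) = t := by omega
  have e : 2 * (S.driftR v hv).C * (w + 1) = 2 * (S.C * (w + 1)) := by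
    show 2 * S.C * (w + 1) = _
    ring
  have hq' : S.Live v t q := ⟨(h.reach q).1 hq.1, (h.coreach q).1 hq.2⟩
  have h1 := h.R.symm.mono (w := w) (s := v.length - t) (t := v.length - s) (by omega) (by omega)
    (by omega) (show v.length - (a + w) + w ≤ v.length by omega) (W.dR t (by omega) (by omega))
    (by rw [e]; omega) (by omega) (q := some q) ⟨hm, by rw [et]; exact hq'⟩
  have h2 := h.R.symm.upper (w := w) (s := v.length - t) (t := v.length - s) (by omega) (by omega)
    (by omega) (show v.length - (a + w) + w ≤ v.length by omega) (W.dR t (by omega) (by omega))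
    (by rw [e]; omega) (q := some q) ⟨hm, by rw [et]; exact hq'⟩
  simp only [driftR, es, et] at h1 h2
  have e2 : v.length - s - (v.length - t) = t - s := by omega
  rw [e2] at h2
  exact ⟨h1, h2⟩

theorem Win.high {s t : ℕ} (h : S.SameAt v hv a w I Z s t) (ht1 : a ≤ t) (ht2 : t ≤ a + w)
    {q : S.Q} (hq : S.Live v s q) (hm : S.md q = true) (hN : N ≤ S.TL v s q) :
    N ≤ S.TL v t q := by
  have hq' : S.Live v t q := ⟨(h.reach q).1 hq.1, (h.coreach q).1 hq.2⟩
  rcases W.dichL0 ht1 ht2 hq' hm with h1 | h1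
  · have := W.diffL0 h.symm h1
    obtain ⟨n1, n2⟩ := W.num
    omega
  · exact h1

theorem Win.idx_same {s t : ℕ} (h : S.SameAt v hv a w I Z s t) (hs1 : a ≤ s) (hs2 : s ≤ a + w)
    (ht1 : a ≤ t) (ht2 : t ≤ a + w) {q : S.Q} (hq : S.Live v s q) (hm : S.md q = true)
    (hN : N ≤ S.TL v s q) : idx (S.TL v s q) = idx (S.TL v t q) := by
  have hq' : S.Live v t q := ⟨(h.reach q).1 hq.1, (h.coreach q).1 hq.2⟩
  have hN' := W.high h ht1 ht2 hq hm hN
  have c1 := W.closeL h hs1 hs2 ht1 ht2 hq hm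
  have c2 := W.closeL h.symm ht1 ht2 hs1 hs2 hq' hm
  have hpar := h.par q
  obtain ⟨n1, n2⟩ := W.num
  have key : ∀ A B : ℕ, N ≤ A → A % 2 = A % 2 → B ≤ A + S.C * (w + 1) →
      idx A % 2 = idx B % 2 → idx A < idx B → False := by
    intro A B hA _ hB hp hlt
    have h1 : idx A + 1 < idx B := by omega
    rw [lt_idx_iff, lam_succ] at h1
    have h2 := le_lam_idx A
    have h3 := gap_large W.hX (hA.trans h2)
    omega
  rcases lt_trichotomy (idx (S.TL v s q)) (idx (S.TL v t q)) with h1 | h1 | h1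
  · exact (key _ _ hN rfl c1 hpar h1).elim
  · exact h1
  · exact (key _ _ hN' rfl c2 hpar.symm h1).elim

theorem Win.near_static {s t : ℕ} (h : S.SameAt v hv a w I Z s t) (hs1 : a ≤ s) (hs2 : s ≤ a + w)
    (ht1 : a ≤ t) (ht2 : t ≤ a + w) {q : S.Q} (hq : S.Live v s q) (hm : S.md q = true)
    (hN : N ≤ S.TL v s q) (hnear : lam (idx (S.TL v s q)) ≤ S.TL v s q + Z) :
    S.TL v t q = S.TL v s q := by
  have h1 := W.idx_same h hs1 hs2 ht1 ht2 hq hm hN
  have h2 := h.hi q
  rw [← h1] at h2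
  have h3 := le_lam_idx (S.TL v s q)
  have h4 := le_lam_idx (S.TL v t q)
  rw [← h1] at h4
  omega

end

end MSys

end Pool.H80.Cone
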