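import Mathlib
import Pool.Agent.H80.ConeWin

/-!
The effect of a loop between two cuts with the same configuration.
-/

namespace Pool.H80.Cone

namespace MSys

variable {Y : Type} {S : MSys Y} {v : List Y} {hv : v ∈ S.good} {a w I N Z X : ℕ}

/-- The moment at which a path leaves mode `true`. -/
theorem exit_time {s : ℕ} : ∀ {t : ℕ}, s ≤ t → ∀ {q p : S.Q} {g : List (Fin 3)},
    S.out q (sg v s t) p g → S.md q = true → S.md p = false →
    ∃ r r' A B g1 g2 g3, s ≤ r ∧ r ≤ r' ∧ r' ≤ t ∧ r' ≤ r + 1 ∧ g = g1 ++ g2 ++ g3 ∧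
      S.out q (sg v s r) A g1 ∧ S.md A = true ∧ S.out A (sg v r r') B g2 ∧ S.md B = false ∧
      S.out B (sg v r' t) p g3 := by
  intro t hst
  induction t, hst using Nat.le_induction with
  | base =>
    intro q p g h hq hp
    exact ⟨s, s, q, p, [], g, [], le_rfl, le_rfl, le_rfl, by omega, by simp,
      by rw [sg_self]; exact S.nil q, hq, h, hp, by rw [sg_self]; exact S.nil p⟩
  | succ t hst ih =>
    intro q p g h hq hp
    rw [← sg_append_sg v hst (Nat.le_succ t)] at h
    obtain ⟨m, g1, g2, rfl, h1, h2⟩ := S.split h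
    by_cases hm : S.md m = true
    · exact ⟨t, t + 1, m, p, g1, g2, [], hst, by omega, le_rfl, le_rfl, by simp, h1, hm, h2, hp,
        by rw [sg_self]; exact S.nil p⟩
    · rw [Bool.not_eq_true] at hm
      obtain ⟨r, r', A, B, k1, k2, k3, e1, e2, e3, e4, rfl, h3, h4, h5, h6, h7⟩ := ih h1 hq hm
      refine ⟨r, r', A, B, k1, k2, k3 ++ g2, e1, e2, by omega, e4, by simp, h3, h4, h5, h6, ?_⟩
      rw [← sg_append_sg v e3 (Nat.le_succ t)]
      exact S.comp h7 h2

/-- position data of a state -/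
noncomputable def P (S : MSys Y) (v : List Y) (t : ℕ) (q : S.Q) : ℕ :=
  if S.md q = true then S.TL v t q else S.TR v t q

/-- shift of a state by a loop -/
noncomputable def shift (S : MSys Y) (v : List Y) (s t : ℕ) (q : S.Q) : ℕ :=
  if S.md q = true then S.TL v t q - S.TL v s q else S.TR v s q - S.TR v t q

/-- `q` has the same position at all cuts in `T` -/
def Static (S : MSys Y) (v : List Y) (T : Set ℕ) (q : S.Q) : Prop :=
  ∀ s ∈ T, ∀ t ∈ T, S.P v s q = S.P v t q

/-- `q` and `p` move in the same way -/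
def Clus (S : MSys Y) (v : List Y) (T : Set ℕ) (q p : S.Q) : Prop :=
  S.md q = S.md p ∧ ∀ s ∈ T, ∀ t ∈ T, S.P v s q + S.P v t p = S.P v t q + S.P v s p

theorem Clus.trans {T : Set ℕ} {q p r : S.Q} (h : S.Clus v T q p) (h' : S.Clus v T p r) :
    S.Clus v T q r := by
  refine ⟨h.1.trans h'.1, fun s hs t ht => ?_⟩
  have h1 := h.2 s hs t ht
  have h2 := h'.2 s hs t ht
  omega

theorem Clus.symm {T : Set ℕ} {q p : S.Q} (h : S.Clus v T q p) : S.Clus v T p q := by
  refine ⟨h.1.symm, fun s hs t ht => ?_⟩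
  have h1 := h.2 s hs t ht
  omega

theorem Clus.static {T : Set ℕ} {q p : S.Q} (h : S.Clus v T q p) (hq : S.Static v T q) :
    S.Static v T p := by
  intro s hs t ht
  have h1 := h.2 s hs t ht
  have h2 := hq s hs t ht
  omega

theorem Clus.shift_eq {T : Set ℕ} {q p : S.Q} (h : S.Clus v T q p) {s t : ℕ} (hs : s ∈ T)
    (ht : t ∈ T) : S.shift v s t q = S.shift v s t p := by
  have h1 := h.2 s hs t ht
  unfold P at h1
  unfold shift
  rw [h.1] at h1 ⊢
  split_ifs at h1 ⊢ <;> omega

theorem Static.shift_eq {T : Set ℕ} {q : S.Q} (h : S.Static v T q) {s t : ℕ} (hs : s ∈ T)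
    (ht : t ∈ T) : S.shift v s t q = 0 := by
  have h1 := h s hs t ht
  unfold P at h1
  unfold shift
  split_ifs at h1 ⊢ <;> omega

/-- The effect of a walk from `q` to `p` with output `g` and total shift `σ`, relative to the base
cut `τ`. -/
def Edge (S : MSys Y) (v : List Y) (T : Set ℕ) (τ : ℕ) (q p : S.Q) (g : List (Fin 3))
    (σ : S.Q → ℕ) : Prop :=
  (S.md q = true ∧ S.md p = true ∧ S.Clus v T q p ∧
    (¬ S.Static v T q → g = List.replicate g.length 0) ∧
    pre (S.TL v τ q) ++ g = pre (S.TL v τ p) ++ List.replicate (σ p) 0) ∨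
  (S.md q = true ∧ S.md p = false ∧ S.Static v T q ∧ S.Static v T p ∧
    pre (S.TL v τ q) ++ g ++ List.replicate (S.TR v τ p) 0 ∈ H2) ∨
  (S.md q = false ∧ S.md p = false ∧ S.Clus v T q p ∧
    g ++ List.replicate (S.TR v τ p) 0 = List.replicate (S.TR v τ q + σ p) 0)

/-- compatible total shifts -/
def Nice (S : MSys Y) (v : List Y) (T : Set ℕ) (σ : S.Q → ℕ) : Prop :=
  (∀ q p, S.Clus v T q p → σ q = σ p) ∧ (∀ q, S.Static v T q → σ q = 0)

theorem nice_shift {T : Set ℕ} {s t : ℕ} (hs : s ∈ T) (ht : t ∈ T) :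
    S.Nice v T (S.shift v s t) :=
  ⟨fun _ _ h => h.shift_eq hs ht, fun _ h => h.shift_eq hs ht⟩

theorem Nice.add {T : Set ℕ} {σ σ' : S.Q → ℕ} (h : S.Nice v T σ) (h' : S.Nice v T σ') :
    S.Nice v T (fun q => σ q + σ' q) :=
  ⟨fun q p hc => by
      show σ q + σ' q = σ p + σ' p
      rw [h.1 q p hc, h'.1 q p hc], fun q hq => by
      show σ q + σ' q = 0
      rw [h.2 q hq, h'.2 q hq]⟩

theorem Edge.comp {T : Set ℕ} {τ : ℕ} {q p r : S.Q} {g g' : List (Fin 3)} {σ σ' : S.Q → ℕ}
    (hσ : S.Nice v T σ) (hσ' : S.Nice v T σ') (h : S.Edge v T τ q p g σ)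
    (h' : S.Edge v T τ p r g' σ') :
    S.Edge v T τ q r (g ++ g') (fun q => σ q + σ' q) := by
  rcases h with ⟨m1, m2, h1, h2, h3⟩ | ⟨m1, m2, h1, h2, h3⟩ | ⟨m1, m2, h1, h3⟩
  · rcases h' with ⟨m3, m4, k1, k2, k3⟩ | ⟨m3, m4, k1, k2, k3⟩ | ⟨m3, m4, k1, k3⟩
    · refine Or.inl ⟨m1, m4, h1.trans k1, ?_, ?_⟩
      · intro hq
        have hp : ¬ S.Static v T p := fun hp => hq (h1.symm.static hp)
        apply List.eq_replicate_iff.2
        refine ⟨rfl, fun b hb => ?_⟩
        rw [List.mem_append] at hb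
        rcases hb with hb | hb
        · rw [h2 hq] at hb; exact List.eq_of_mem_replicate hb
        · rw [k2 hp] at hb; exact List.eq_of_mem_replicate hb
      · show pre (S.TL v τ q) ++ (g ++ g') = pre (S.TL v τ r) ++ List.replicate (σ r + σ' r) 0
        rw [← List.append_assoc, h3, ← hσ.1 p r k1]
        by_cases hp : S.Static v T p
        · have e1 := hσ.2 p hp
          have e2 : pre (S.TL v τ p) ++ List.replicate (σ p) 0 ++ g' = pre (S.TL v τ p) ++ g' := by
            rw [e1]; simp
          rw [e2, k3, e1, Nat.zero_add]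
        · have e1 := k2 hp
          have e2 : List.replicate (σ p) (0 : Fin 3) ++ g' = g' ++ List.replicate (σ p) 0 := by
            rw [e1, ← List.replicate_add, ← List.replicate_add, Nat.add_comm]
          rw [List.append_assoc, e2, ← List.append_assoc, k3, List.append_assoc,
            ← List.replicate_add, Nat.add_comm (σ' r)]
    · refine Or.inr (Or.inl ⟨m1, m4, h1.symm.static k1, k2, ?_⟩)
      have e1 := hσ.2 p k1
      rw [e1] at h3
      rw [← List.append_assoc, h3]
      simpa using k3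
    · rw [m2] at m3; simp at m3
  · rcases h' with ⟨m3, m4, k1, k2, k3⟩ | ⟨m3, m4, k1, k2, k3⟩ | ⟨m3, m4, k1, k3⟩
    · rw [m2] at m3; simp at m3
    · rw [m2] at m3; simp at m3
    · have hr : S.Static v T r := k1.static h2
      refine Or.inr (Or.inl ⟨m1, m4, h1, hr, ?_⟩)
      rw [hσ'.2 r hr, Nat.add_zero] at k3
      rw [← List.append_assoc, List.append_assoc, k3]
      exact h3
  · rcases h' with ⟨m3, m4, k1, k2, k3⟩ | ⟨m3, m4, k1, k2, k3⟩ | ⟨m3, m4, k1, k3⟩
    · rw [m2] at m3; simp at m3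
    · rw [m2] at m3; simp at m3
    · refine Or.inr (Or.inr ⟨m1, m4, h1.trans k1, ?_⟩)
      show g ++ g' ++ List.replicate (S.TR v τ r) 0 = List.replicate (S.TR v τ q + (σ r + σ' r)) 0
      rw [List.append_assoc, k3, List.replicate_add, ← List.append_assoc, h3, ← List.replicate_add,
        hσ.1 p r k1, Nat.add_assoc]

/-- The cuts of `T` lie in the window and have the same configuration. -/
structure Cuts (S : MSys Y) (v : List Y) (hv : v ∈ S.good) (a w I Z : ℕ) (T : Set ℕ) : Prop where
  lo : ∀ t ∈ T, a ≤ t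
  hi : ∀ t ∈ T, t ≤ a + w
  same : ∀ s ∈ T, ∀ t ∈ T, S.SameAt v hv a w I Z s t

section

variable {T : Set ℕ}

theorem Cuts.live (hT : S.Cuts v hv a w I Z T) {s t : ℕ} (hs : s ∈ T) (ht : t ∈ T) {q : S.Q}
    (h : S.Live v s q) : S.Live v t q :=
  ⟨((hT.same s hs t ht).reach q).1 h.1, ((hT.same s hs t ht).coreach q).1 h.2⟩

/-- a left state below `I` is static -/
theorem Win.low_static (W : S.Win v hv a w I N Z X) (hT : S.Cuts v hv a w I Z T) {s : ℕ}
    (hs : s ∈ T) {q : S.Q} (hm : S.md q = true) (h : S.TL v s q ≤ I) : S.Static v T q := by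
  intro t ht t' ht'
  unfold P
  rw [if_pos hm, if_pos hm, W.diffL0 (hT.same s hs t ht) h, W.diffL0 (hT.same s hs t' ht') h]

theorem Win.lowR_static (W : S.Win v hv a w I N Z X) (hT : S.Cuts v hv a w I Z T) {s : ℕ}
    (hs : s ∈ T) {q : S.Q} (hm : S.md q = false) (h : S.TR v s q ≤ I) : S.Static v T q := by
  intro t ht t' ht'
  unfold P
  rw [hm]
  simp only [Bool.false_eq_true, if_false]
  rw [W.diffR0 (hT.same s hs t ht) (hT.hi s hs) (hT.hi t ht) h,
    W.diffR0 (hT.same s hs t' ht') (hT.hi s hs) (hT.hi t' ht') h]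

theorem Win.near_static' (W : S.Win v hv a w I N Z X) (hT : S.Cuts v hv a w I Z T) {s : ℕ}
    (hs : s ∈ T) {q : S.Q} (hq : S.Live v s q) (hm : S.md q = true) (hN : N ≤ S.TL v s q)
    (hnear : lam (idx (S.TL v s q)) ≤ S.TL v s q + Z) : S.Static v T q := by
  have key : ∀ t ∈ T, S.TL v t q = S.TL v s q := fun t ht =>
    W.near_static (hT.same s hs t ht) (hT.lo s hs) (hT.hi s hs) (hT.lo t ht) (hT.hi t ht) hq hm hN
      hnear
  intro t ht t' ht'
  unfold P
  rw [if_pos hm, if_pos hm, key t ht, key t' ht']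

theorem Win.clus_L (W : S.Win v hv a w I N Z X) (hT : S.Cuts v hv a w I Z T) {s t : ℕ}
    (hs : s ∈ T) (ht : t ∈ T) (hst : s ≤ t) {q p : S.Q} {g : List (Fin 3)}
    (h : S.out q (sg v s t) p g) (hq : S.Live v s q) (hp : S.Live v t p) (hmq : S.md q = true)
    (hmp : S.md p = true) : S.Clus v T q p := by
  obtain ⟨n1, n2⟩ := W.num
  have hn := W.hn
  have a1 := hT.lo s hs
  have a2 := hT.hi t ht
  have hlen := edge_LL_len hv hst h hq.1 hp.2 hmq hmp
  have hb := edge_length hv hst (by omega) h hq.1 hp.2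
  have hm := Nat.mul_le_mul_left S.C (show t - s + 1 ≤ w + 1 by omega)
  have hq' := hT.live hs ht hq
  obtain ⟨c1, -⟩ := W.monoL (hT.same s hs t ht) a1 hst a2 hq hmq
  have c2 := W.closeL (hT.same s hs t ht) a1 (by omega) (by omega) a2 hq hmq
  have d1 := W.dichLL (by omega) a2 hq' hp hmq hmp (by omega)
  have d2 := W.dichLL (by omega) a2 hp hq' hmp hmq (by omega)
  refine ⟨by rw [hmq, hmp], fun s' hs' t' ht' => ?_⟩
  unfold P
  rw [if_pos hmq, if_pos hmp, if_pos hmq, if_pos hmp]
  have e1 := W.diffL (hT.same t ht s' hs') d1 d2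
  have e2 := W.diffL (hT.same t ht t' ht') d1 d2
  omega

theorem Win.clus_R (W : S.Win v hv a w I N Z X) (hT : S.Cuts v hv a w I Z T) {s t : ℕ}
    (hs : s ∈ T) (ht : t ∈ T) (hst : s ≤ t) {q p : S.Q} {g : List (Fin 3)}
    (h : S.out q (sg v s t) p g) (hq : S.Live v s q) (hp : S.Live v t p) (hmq : S.md q = false)
    (hmp : S.md p = false) : S.Clus v T q p := by
  obtain ⟨n1, n2⟩ := W.num
  have hn := W.hn
  have a1 := hT.lo s hs
  have a2 := hT.hi t ht
  obtain ⟨hlen, -⟩ := edge_RR_len hv hst h hq.1 hp.2 hmq hmp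
  have hb := edge_length hv hst (by omega) h hq.1 hp.2
  have hm := Nat.mul_le_mul_left S.C (show t - s + 1 ≤ w + 1 by omega)
  have hq' := hT.live hs ht hq
  obtain ⟨c1, -⟩ := W.monoR (hT.same s hs t ht) a1 hst a2 hq hmq
  have c2 := W.closeR (hT.same t ht s hs) (by omega) a2 a1 (by omega) hq' hmq
  have d1 := W.dichRR (by omega) a2 hq' hp hmq hmp (by omega)
  have d2 := W.dichRR (by omega) a2 hp hq' hmp hmq (by omega)
  refine ⟨by rw [hmq, hmp], fun s' hs' t' ht' => ?_⟩
  unfold P
  rw [hmq, hmp]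
  simp only [Bool.false_eq_true, if_false]
  have e1 := W.diffR (hT.same t ht s' hs') a2 (hT.hi s' hs') d1 d2
  have e2 := W.diffR (hT.same t ht t' ht') a2 (hT.hi t' ht') d1 d2
  omega

/-- left-left edges -/
theorem Win.edge_LL (W : S.Win v hv a w I N Z X) (hT : S.Cuts v hv a w I Z T) {s t τ : ℕ}
    (hs : s ∈ T) (ht : t ∈ T) (hτ : τ ∈ T) (hst : s ≤ t) {q p : S.Q} {g : List (Fin 3)}
    (h : S.out q (sg v s t) p g) (hq : S.Live v s q) (hp : S.Live v t p) (hmq : S.md q = true)
    (hmp : S.md p = true) : S.Edge v T τ q p g (S.shift v s t) := by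
  obtain ⟨n1, n2⟩ := W.num
  have hn := W.hn
  have a1 := hT.lo s hs
  have a2 := hT.hi t ht
  have hcl := W.clus_L hT hs ht hst h hq hp hmq hmp
  have hpre := MSys.edge_LL hv hst h hq.1 hp.2 hmq hmp
  have hlen := edge_LL_len hv hst h hq.1 hp.2 hmq hmp
  have hb := edge_length hv hst (by omega) h hq.1 hp.2
  have hm := Nat.mul_le_mul_left S.C (show t - s + 1 ≤ w + 1 by omega)
  have hq' := hT.live hs ht hq
  have hcl2 : ∀ s ∈ T, ∀ t ∈ T, S.TL v s q + S.TL v t p = S.TL v t q + S.TL v s p := by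
    intro s hs t ht
    have := hcl.2 s hs t ht
    unfold P at this
    rwa [if_pos hmq, if_pos hmp, if_pos hmq, if_pos hmp] at this
  have hno : ¬ S.Static v T q → (1 : Fin 3) ∉ g ∧ N ≤ S.TL v s q := by
    intro hns
    rcases W.dichL0 a1 (by omega) hq hmq with h1 | hN
    · exact absurd (W.low_static hT hs hmq h1) hns
    refine ⟨fun h1 => hns ?_, hN⟩
    -- a landmark is crossed: `q` is near it
    have hN' := W.high (hT.same s hs t ht) (by omega) a2 hq hmq hN
    have hidx := W.idx_same (hT.same s hs t ht) a1 (by omega) (by omega) a2 hq hmq hN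
    have hg := (pre_append_inj hpre).2
    rw [hg, one_mem_seg] at h1
    obtain ⟨i, hi1, hi2⟩ := h1
    have h2 : idx (S.TL v s q) ≤ i := idx_le_iff.2 hi1
    obtain ⟨c1, -⟩ := W.monoL (hT.same s hs t ht) a1 hst a2 hq hmq
    have c2 := W.closeL (hT.same s hs t ht) a1 (by omega) (by omega) a2 hq hmq
    have d2 := W.dichLL (by omega) a2 hp hq' hmp hmq (by omega)
    have h3 : S.TL v t q ≤ lam i := by rw [← idx_le_iff, ← hidx]; exact h2
    have h4 : idx (S.TL v t q) = i := by
      have h5 : idx (S.TL v t q) ≤ i := idx_le_iff.2 h3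
      by_contra hne
      obtain ⟨j, rfl⟩ : ∃ j, i = j + 1 := ⟨i - 1, by omega⟩
      have h6 : idx (S.TL v t q) ≤ j := by omega
      rw [idx_le_iff] at h6
      have h7 := gap_large W.hX (hN'.trans h6)
      rw [lam_succ] at hi2
      omega
    have hZ := W.hZ
    refine W.near_static' hT ht hq' hmq hN' ?_
    rw [h4]
    omega
  refine Or.inl ⟨hmq, hmp, hcl, ?_, ?_⟩
  · intro hns
    obtain ⟨h1, h2⟩ := hno hns
    have hg := (pre_append_inj hpre).2
    have h3 : g = List.replicate (S.TL v t p - S.TL v s q) 0 := by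
      rw [hg]
      apply seg_zero (by omega)
      intro i hi
      by_contra hcon
      push Not at hcon
      apply h1
      rw [hg, one_mem_seg]
      exact ⟨i, hi, hcon⟩
    rw [h3]; simp
  · by_cases hst' : S.Static v T q
    · have hsp := hcl.static hst'
      have e1 := hst' s hs τ hτ
      have e2 := hsp t ht τ hτ
      unfold P at e1 e2
      rw [if_pos hmq, if_pos hmq] at e1
      rw [if_pos hmp, if_pos hmp] at e2
      rw [hsp.shift_eq hs ht, ← e1, ← e2]
      simpa using hpre
    · obtain ⟨h1, h2⟩ := hno hst'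
      have hg0 : g = List.replicate g.length 0 := by
        have hg := (pre_append_inj hpre).2
        have h3 : g = List.replicate (S.TL v t p - S.TL v s q) 0 := by
          rw [hg]
          apply seg_zero (by omega)
          intro i hi
          by_contra hcon
          push Not at hcon
          apply h1
          rw [hg, one_mem_seg]
          exact ⟨i, hi, hcon⟩
        conv_rhs => rw [h3]
        rw [List.length_replicate]
        exact h3
      have hsp : ¬ S.Static v T p := fun hp' => hst' (hcl.symm.static hp')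
      have hp' := hT.live ht hs hp
      have hNp : N ≤ S.TL v s p := by
        rcases W.dichL0 a1 (by omega) hp' hmp with h3 | h3
        · exact absurd (W.low_static hT hs hmp h3) hsp
        · exact h3
      have i1 := W.idx_same (hT.same s hs τ hτ) a1 (by omega) (hT.lo τ hτ) (hT.hi τ hτ) hq hmq h2
      have i2 := W.idx_same (hT.same s hs τ hτ) a1 (by omega) (hT.lo τ hτ) (hT.hi τ hτ) hp' hmp hNp
      have i3 := W.idx_same (hT.same s hs t ht) a1 (by omega) (by omega) a2 hp' hmp hNp
      have i4 : idx (S.TL v s q) = idx (S.TL v t p) := by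
        unfold idx
        rw [← hpre, List.count_append, List.count_eq_zero_of_not_mem h1]
        rfl
      have hNq' := W.high (hT.same s hs τ hτ) (hT.lo τ hτ) (hT.hi τ hτ) hq hmq h2
      have hNp' := W.high (hT.same s hs τ hτ) (hT.lo τ hτ) (hT.hi τ hτ) hp' hmp hNp
      obtain ⟨c1, -⟩ := W.monoL (hT.same s hs t ht) a1 hst a2 hp' hmp
      have hrep : pre (S.TL v τ q) ++ List.replicate g.length 0 =
          pre (S.TL v τ p) ++ List.replicate (S.shift v s t p) 0 := by
        apply pre_extend (by omega) (by omega) (by omega)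
        unfold shift
        rw [if_pos hmp]
        have := hcl2 s hs τ hτ
        omega
      rw [← hrep, ← hg0]

/-- right-right edges -/
theorem Win.edge_RR (W : S.Win v hv a w I N Z X) (hT : S.Cuts v hv a w I Z T) {s t τ : ℕ}
    (hs : s ∈ T) (ht : t ∈ T) (hτ : τ ∈ T) (hst : s ≤ t) {q p : S.Q} {g : List (Fin 3)}
    (h : S.out q (sg v s t) p g) (hq : S.Live v s q) (hp : S.Live v t p) (hmq : S.md q = false)
    (hmp : S.md p = false) : S.Edge v T τ q p g (S.shift v s t) := by
  have hn := W.hn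
  have a1 := hT.lo s hs
  have a2 := hT.hi t ht
  have hcl := W.clus_R hT hs ht hst h hq hp hmq hmp
  obtain ⟨hlen, hg⟩ := edge_RR_len hv hst h hq.1 hp.2 hmq hmp
  refine Or.inr (Or.inr ⟨hmq, hmp, hcl, ?_⟩)
  have hp' := hT.live ht hs hp
  obtain ⟨c1, -⟩ := W.monoR (hT.same s hs t ht) a1 hst a2 hp' hmp
  have h1 := hcl.2 s hs τ hτ
  unfold P at h1
  unfold shift
  rw [hmq, hmp] at h1
  rw [hmp]
  simp only [Bool.false_eq_true, if_false] at h1 ⊢
  rw [hg, ← List.replicate_add]
  congr 1
  omega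

/-- left-right edges -/
theorem Win.edge_LR (W : S.Win v hv a w I N Z X) (hT : S.Cuts v hv a w I Z T) {s t τ : ℕ}
    (hs : s ∈ T) (ht : t ∈ T) (hτ : τ ∈ T) (hst : s ≤ t) {q p : S.Q} {g : List (Fin 3)}
    (h : S.out q (sg v s t) p g) (hq : S.Live v s q) (hp : S.Live v t p) (hmq : S.md q = true)
    (hmp : S.md p = false) : S.Edge v T τ q p g (S.shift v s t) := by
  obtain ⟨n1, n2⟩ := W.num
  have hn := W.hn
  have hZ := W.hZ
  have a1 := hT.lo s hs
  have a2 := hT.hi t ht
  have hword := MSys.edge_LR hv hst h hq.1 hp.2 hmq hmp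
  have hq' := hT.live hs ht hq
  have hp' := hT.live ht hs hp
  have hsame := hT.same s hs t ht
  have cq1 := W.closeL hsame a1 (by omega) (by omega) a2 hq hmq
  have cq2 := W.closeL hsame.symm (by omega) a2 a1 (by omega) hq' hmq
  have cp1 := W.closeR hsame a1 (by omega) (by omega) a2 hp' hmp
  have cp2 := W.closeR hsame.symm (by omega) a2 a1 (by omega) hp hmp
  -- the exit
  obtain ⟨r, r', A, B, g1, g2, g3, e1, e2, e3, e4, rfl, o1, mA, o2, mB, o3⟩ :=
    exit_time hst h hmq hmp
  have rA : S.Reach v r A := reach_step e1 o1 hq.1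
  have rB : S.Reach v r' B := reach_step e2 o2 rA
  have cB : S.Coreach v r' B := coreach_step e3 o3 hp.2
  have cA : S.Coreach v r A := coreach_step e2 o2 cB
  have lA : S.Live v r A := ⟨rA, cA⟩
  have lB : S.Live v r' B := ⟨rB, cB⟩
  have hu := MSys.edge_LR hv e2 o2 rA cB mA mB
  have h1g2 : (1 : Fin 3) ∈ g2 := S.md_true o2 mA mB
  have len1 := edge_LL_len hv e1 o1 hq.1 cA hmq mA
  have b1 := edge_length hv e1 (by omega) o1 hq.1 cA
  have b2 := edge_length hv e2 (by omega) o2 rA cB
  obtain ⟨len3, -⟩ := edge_RR_len hv e3 o3 rB hp.2 mB hmp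
  have b3 := edge_length hv e3 (by omega) o3 rB hp.2
  have m1 := Nat.mul_le_mul_left S.C (show r - s + 1 ≤ w + 1 by omega)
  have m2 := Nat.mul_le_mul_left S.C (show r' - r + 1 ≤ 2 by omega)
  have m3 := Nat.mul_le_mul_left S.C (show t - r' + 1 ≤ w + 1 by omega)
  -- the index
  obtain ⟨i, hi, hui⟩ := mem_Gbar_two.1 hu
  have hlen := congrArg List.length hui
  simp only [List.length_append, length_pre, List.length_replicate] at hlen
  have hcnt : S.TR v r' B ≤ i := by
    have h1 := zeros_le_count hu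
    have h2 := congrArg (List.count (1 : Fin 3)) hui
    rw [count_pre_lam, List.count_append, List.count_replicate] at h2
    simp only [show ((0 : Fin 3) == 1) = false from rfl, Bool.false_eq_true, if_false,
      Nat.add_zero] at h2
    omega
  obtain ⟨i, rfl⟩ : ∃ i', i = i' + 1 := ⟨i - 1, by omega⟩
  have hTA : S.TL v r A ≤ lam i := by
    have h1 : pre (S.TL v r A) ++ g2 = pre (S.TL v r A + g2.length) := by
      have := (append_eq_pre hui).1
      rw [List.length_append, length_pre] at this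
      exact this
    have h2 := (pre_append_inj h1).2
    rw [h2, one_mem_seg] at h1g2
    obtain ⟨j, hj1, hj2⟩ := h1g2
    have : lam j < lam (i + 1) := by omega
    have := lam_strictMono.lt_iff_lt.1 this
    exact hj1.trans (lam_strictMono.monotone (by omega))
  rw [lam_succ] at hlen
  -- a right state near `B`
  obtain ⟨p'', mp'', lp'', d1, d2⟩ := desc_R hv (s := s) (t := r') (by omega) (by omega) hp' hmp
  have m4 := Nat.mul_le_mul_left S.C (show r' - s + 1 ≤ w + 1 by omega)
  have nR1 := W.dichRR (by omega) (by omega) lB lp'' mB mp'' (by omega)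
  -- a left state near `A`
  obtain ⟨q'', mq'', lq'', f1, f2⟩ := anc_L hv (s := r) (t := t) (by omega) (by omega) hq' hmq
  have m5 := Nat.mul_le_mul_left S.C (show t - r + 1 ≤ w + 1 by omega)
  have nL1 := W.dichLL (by omega) (by omega) lA lq'' mA mq'' (by omega)
  have hmain : S.Static v T q ∧ S.Static v T p := by
    rcases W.dichL0 a1 (by omega) hq hmq with hlow | hN
    · -- low
      refine ⟨W.low_static hT hs hmq hlow, W.lowR_static hT ht hmp ?_⟩
      have h1 : S.TL v r A ≤ I := by
        rcases W.dichL0 (by omega) (by omega) lA mA with h1 | h1 <;> omega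
      have h2 := lam_lower i
      have h3 : S.TR v r' B ≤ I := by
        rcases W.dichR0 (by omega) (by omega) lB mB with h3 | h3 <;> omega
      omega
    · -- high
      have hN' := W.high hsame (by omega) a2 hq hmq hN
      have hidx := W.idx_same hsame a1 (by omega) (by omega) a2 hq hmq hN
      have h1 : idx (S.TL v s q) ≤ i := idx_le_iff.2 (by omega)
      have h2 : idx (S.TL v t q) = i := by
        rw [← hidx]
        by_contra hne
        obtain ⟨j, rfl⟩ : ∃ j, i = j + 1 := ⟨i - 1, by omega⟩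
        have h6 : idx (S.TL v t q) ≤ j := by omega
        rw [idx_le_iff] at h6
        have h7 := gap_large W.hX (hN'.trans h6)
        rw [lam_succ] at hlen
        omega
      have h3 : S.Static v T q := by
        refine W.near_static' hT ht hq' hmq hN' ?_
        rw [h2]
        omega
      refine ⟨h3, ?_⟩
      -- `p` is static
      have hidx' : ∀ t' ∈ T, idx (S.TL v t' q) = i := by
        intro t' ht'
        have := h3 t' ht' t ht
        unfold P at this
        rw [if_pos hmq, if_pos hmq] at this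
        rw [this, h2]
      have key : ∀ t' ∈ T, S.TR v t' p = S.TR v s p := by
        have h4 := hsame.cl q p
        rw [hidx' s hs, hidx' t ht] at h4
        intro t' ht'
        have h5 := (hT.same s hs t' ht').cl q p
        rw [hidx' s hs, hidx' t' ht'] at h5
        omega
      intro t1 ht1 t2 ht2
      unfold P
      rw [hmp]
      simp only [Bool.false_eq_true, if_false]
      rw [key t1 ht1, key t2 ht2]
  refine Or.inr (Or.inl ⟨hmq, hmp, hmain.1, hmain.2, ?_⟩)
  have x1 := hmain.1 s hs τ hτ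
  have x2 := hmain.2 t ht τ hτ
  unfold P at x1 x2
  rw [if_pos hmq, if_pos hmq] at x1
  rw [hmp] at x2
  simp only [Bool.false_eq_true, if_false] at x2
  rw [← x1, ← x2]
  exact hword

/-- one loop -/
theorem Win.edge (W : S.Win v hv a w I N Z X) (hT : S.Cuts v hv a w I Z T) {s t τ : ℕ}
    (hs : s ∈ T) (ht : t ∈ T) (hτ : τ ∈ T) (hst : s ≤ t) {q p : S.Q} {g : List (Fin 3)}
    (h : S.out q (sg v s t) p g) (hq : S.Reach v s q) (hp : S.Coreach v t p) :
    S.Edge v T τ q p g (S.shift v s t) := by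
  have hq' : S.Live v s q := ⟨hq, coreach_step hst h hp⟩
  have hp' : S.Live v t p := ⟨reach_step hst h hq, hp⟩
  rcases hmq : S.md q with _ | _ <;> rcases hmp : S.md p with _ | _
  · exact W.edge_RR hT hs ht hτ hst h hq' hp' hmq hmp
  · have := (S.md_false h hmq).1
    rw [hmp] at this; simp at this
  · exact W.edge_LR hT hs ht hτ hst h hq' hp' hmq hmp
  · exact W.edge_LL hT hs ht hτ hst h hq' hp' hmq hmp

end

end MSys

end Pool.H80.Cone
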