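import Mathlib
import Pool.Agent.H80.ConeEdge

/-!
Rearrangement of loops.
-/

namespace Pool.H80.Cone

namespace MSys

variable {Y : Type} {S : MSys Y} {v : List Y} {hv : v ∈ S.good} {a w I N Z X : ℕ} {T : Set ℕ}

/-- the word spelled by a list of factors -/
def wrd (v : List Y) (l : List (ℕ × ℕ)) : List Y := (l.map (fun x => sg v x.1 x.2)).flatten

theorem wrd_nil (v : List Y) : wrd v [] = [] := rfl
theorem wrd_cons (v : List Y) (x : ℕ × ℕ) (l : List (ℕ × ℕ)) :
    wrd v (x :: l) = sg v x.1 x.2 ++ wrd v l := by simp [wrd]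
theorem wrd_append (v : List Y) (l l' : List (ℕ × ℕ)) :
    wrd v (l ++ l') = wrd v l ++ wrd v l' := by simp [wrd]
theorem wrd_replicate (v : List Y) (m : ℕ) (x : ℕ × ℕ) :
    wrd v (List.replicate m x) = rep m (sg v x.1 x.2) := by simp [wrd, rep]

/-- total shift of a list of factors -/
noncomputable def tot (S : MSys Y) (v : List Y) (l : List (ℕ × ℕ)) (q : S.Q) : ℕ :=
  (l.map (fun x => S.shift v x.1 x.2 q)).sum

theorem tot_nil (q : S.Q) : S.tot v [] q = 0 := rfl
theorem tot_cons (x : ℕ × ℕ) (l : List (ℕ × ℕ)) (q : S.Q) :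
    S.tot v (x :: l) q = S.shift v x.1 x.2 q + S.tot v l q := by simp [tot]
theorem tot_append (l l' : List (ℕ × ℕ)) (q : S.Q) :
    S.tot v (l ++ l') q = S.tot v l q + S.tot v l' q := by simp [tot]
theorem tot_replicate (m : ℕ) (x : ℕ × ℕ) (q : S.Q) :
    S.tot v (List.replicate m x) q = m * S.shift v x.1 x.2 q := by simp [tot]

/-- lists of loops between cuts of `T` -/
def Loops (T : Set ℕ) (l : List (ℕ × ℕ)) : Prop := ∀ x ∈ l, x.1 ∈ T ∧ x.2 ∈ T ∧ x.1 ≤ x.2

theorem Loops.cons {x : ℕ × ℕ} {l : List (ℕ × ℕ)} (h : Loops T (x :: l)) :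
    (x.1 ∈ T ∧ x.2 ∈ T ∧ x.1 ≤ x.2) ∧ Loops T l :=
  ⟨h x (by simp), fun y hy => h y (by simp [hy])⟩

theorem nice_tot {l : List (ℕ × ℕ)} (hl : Loops T l) : S.Nice v T (S.tot v l) := by
  induction l with
  | nil => exact ⟨fun _ _ _ => rfl, fun _ _ => rfl⟩
  | cons x l ih =>
    obtain ⟨⟨h1, h2, -⟩, h4⟩ := hl.cons
    have := (nice_shift (S := S) (v := v) h1 h2).add (ih h4)
    have e : S.tot v (x :: l) = fun q => S.shift v x.1 x.2 q + S.tot v l q := by
      funext q; exact tot_cons x l q
    rw [e]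
    exact this

theorem coreach_wrd (hT : S.Cuts v hv a w I Z T) {τ : ℕ} (hτ : τ ∈ T) {l : List (ℕ × ℕ)}
    (hl : Loops T l) : ∀ {q p : S.Q} {g : List (Fin 3)}, S.out q (wrd v l) p g →
    S.Coreach v τ p → S.Coreach v τ q := by
  induction l with
  | nil =>
    intro q p g h hp
    rw [wrd_nil, ← sg_self v τ] at h
    exact coreach_step le_rfl h hp
  | cons x l ih =>
    intro q p g h hp
    obtain ⟨⟨h1, h2, h3⟩, h4⟩ := hl.cons
    rw [wrd_cons] at h
    obtain ⟨m, g1, g2, -, k1, k2⟩ := S.split h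
    have hm := ih h4 k2 hp
    have hm' := ((hT.same τ hτ x.2 h2).coreach m).1 hm
    exact ((hT.same x.1 h1 τ hτ).coreach q).1 (coreach_step h3 k1 hm')

theorem Win.key (W : S.Win v hv a w I N Z X) (hT : S.Cuts v hv a w I Z T) {τ : ℕ} (hτ : τ ∈ T)
    {l : List (ℕ × ℕ)} (hl : Loops T l) : ∀ {q p : S.Q} {g : List (Fin 3)},
    S.out q (wrd v l) p g → S.Reach v τ q → S.Coreach v τ p →
    S.Edge v T τ q p g (S.tot v l) := by
  induction l with
  | nil =>
    intro q p g h hq hp
    rw [wrd_nil, ← sg_self v τ] at h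
    have := W.edge hT hτ hτ hτ le_rfl h hq hp
    have e : S.tot v ([] : List (ℕ × ℕ)) = S.shift v τ τ := by
      funext q
      rw [tot_nil]
      unfold shift
      split_ifs <;> simp
    rw [e]; exact this
  | cons x l ih =>
    intro q p g h hq hp
    obtain ⟨⟨h1, h2, h3⟩, h4⟩ := hl.cons
    rw [wrd_cons] at h
    obtain ⟨m, g1, g2, rfl, k1, k2⟩ := S.split h
    have hm := coreach_wrd hT hτ h4 k2 hp
    have hm' := ((hT.same τ hτ x.2 h2).coreach m).1 hm
    have hq' := ((hT.same τ hτ x.1 h1).reach q).1 hq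
    have hmr := ((hT.same x.2 h2 τ hτ).reach m).1 (reach_step h3 k1 hq')
    have e1 := W.edge hT h1 h2 hτ h3 k1 hq' hm'
    have e2 := ih h4 k2 hmr hp
    have e3 := Edge.comp (nice_shift h1 h2) (nice_tot h4) e1 e2
    have e : S.tot v (x :: l) = fun q => S.shift v x.1 x.2 q + S.tot v l q := by
      funext q; exact tot_cons x l q
    rw [e]; exact e3

theorem Win.pre_shift (W : S.Win v hv a w I N Z X) (hT : S.Cuts v hv a w I Z T) {s t : ℕ}
    (hs : s ∈ T) (ht : t ∈ T) (hst : s ≤ t) {p : S.Q} (hp : S.Live v s p)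
    (hm : S.md p = true) :
    pre (S.TL v s p) ++ List.replicate (S.shift v s t p) 0 = pre (S.TL v t p) := by
  have a1 := hT.lo s hs
  have a2 := hT.hi t ht
  obtain ⟨n1, n2⟩ := W.num
  rcases W.dichL0 a1 (by omega) hp hm with h | h
  · have h1 := W.low_static hT hs hm h
    rw [h1.shift_eq hs ht]
    have := h1 s hs t ht
    unfold P at this
    rw [if_pos hm, if_pos hm] at this
    rw [this]; simp
  · have h1 := W.idx_same (hT.same s hs t ht) a1 (by omega) (by omega) a2 hp hm h
    obtain ⟨h2, -⟩ := W.monoL (hT.same s hs t ht) a1 hst a2 hp hm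
    have := pre_extend (T1 := S.TL v s p) (T2 := S.TL v t p) (a := S.shift v s t p) (b := 0) h1
      (by omega) (by omega) (by unfold shift; rw [if_pos hm]; omega)
    rw [this]; simp

/-- Rearrangement: replacing the factor between the cuts `s0` and `t0` by a concatenation of loops
with the same total shift gives a word all of whose views are good. -/
theorem Win.rearrange (W : S.Win v hv a w I N Z X) (hT : S.Cuts v hv a w I Z T) {s0 t0 : ℕ}
    (hs : s0 ∈ T) (ht : t0 ∈ T) (hst : s0 ≤ t0) {l : List (ℕ × ℕ)} (hl : Loops T l)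
    (htot : ∀ q, S.Live v s0 q → S.tot v l q = S.shift v s0 t0 q) :
    v.take s0 ++ wrd v l ++ v.drop t0 ∈ S.good := by
  intro i hi f hf u hu
  obtain ⟨p, ag, b', rfl, h1, h2⟩ := S.split hu
  obtain ⟨q, a', g, rfl, h3, h4⟩ := S.split h1
  have hq : S.Reach v s0 q := ⟨i, hi, a', h3⟩
  have hp : S.Coreach v t0 p := ⟨f, hf, b', h2⟩
  have hp' : S.Coreach v s0 p := ((hT.same t0 ht s0 hs).coreach p).1 hp
  have hqc := coreach_wrd hT hs hl h4 hp'
  have hlq : S.Live v s0 q := ⟨hq, hqc⟩
  have hedge := W.key hT hs hl h4 hq hp'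
  have hpr : S.Reach v s0 p := by
    -- by the reachability part
    clear hedge htot hp hp' hqc hlq hu h1
    revert hq
    generalize q = q at h4
    revert g
    clear h3 h2
    revert q
    induction l with
    | nil =>
      intro q g h hq
      rw [wrd_nil, ← sg_self v s0] at h
      exact reach_step le_rfl h hq
    | cons x l ih =>
      intro q g h hq
      obtain ⟨⟨h1, h2, h3⟩, h4⟩ := hl.cons
      rw [wrd_cons] at h
      obtain ⟨m, g1, g2, rfl, k1, k2⟩ := S.split h
      have hq' := ((hT.same s0 hs x.1 h1).reach q).1 hq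
      have hmr := ((hT.same x.2 h2 s0 hs).reach m).1 (reach_step h3 k1 hq')
      exact ih h4 m g2 k2 hmr
  have hlp : S.Live v s0 p := ⟨hpr, hp'⟩
  have hlp' := hT.live hs ht hlp
  have hσ := htot p hlp
  rcases hedge with ⟨m1, m2, e1, e2, e3⟩ | ⟨m1, m2, e1, e2, e3⟩ | ⟨m1, m2, e1, e3⟩
  · -- left-left
    obtain ⟨f', hf', b'', hb''⟩ := hqc
    obtain ⟨ha, -⟩ := cut_L hv hi hf' h3 hb'' m1
    rw [ha, e3, hσ, W.pre_shift hT hs ht hst hlp m2]
    obtain ⟨i', hi', hpath⟩ := live_L hv hlp' m2
    have := S.comp hpath h2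
    rw [List.take_append_drop] at this
    exact hv i' hi' f hf _ this
  · -- left-right
    obtain ⟨f', hf', b'', hb''⟩ := hqc
    obtain ⟨ha, -⟩ := cut_L hv hi hf' h3 hb'' m1
    obtain ⟨i', hi', a'', ha''⟩ := hlp'.1
    have hb := cut_R hv hi' hf ha'' h2 m2
    have := e2 s0 hs t0 ht
    unfold P at this
    rw [m2] at this
    simp only [Bool.false_eq_true, if_false] at this
    rw [hb, ha, ← this]
    exact e3
  · -- right-right
    obtain ⟨i', hi', a'', ha''⟩ := hlp'.1
    have hb := cut_R hv hi' hf ha'' h2 m2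
    obtain ⟨c1, -⟩ := W.monoR (hT.same s0 hs t0 ht) (hT.lo s0 hs) hst (hT.hi t0 ht) hlp m2
    rw [hσ] at e3
    have hlen := congrArg List.length e3
    simp only [List.length_append, List.length_replicate] at hlen
    unfold shift at hlen
    rw [m2] at hlen
    simp only [Bool.false_eq_true, if_false] at hlen
    have hg : g = List.replicate g.length 0 := by
      apply List.eq_replicate_iff.2
      refine ⟨rfl, fun b hb => ?_⟩
      have : b ∈ List.replicate (S.TR v s0 q + S.shift v s0 t0 p) (0 : Fin 3) := by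
        rw [← e3]; simp [hb]
      exact List.eq_of_mem_replicate this
    have hfin : g ++ b' = List.replicate (S.TR v s0 q) 0 := by
      rw [hb, hg, ← List.replicate_add]
      congr 1
      omega
    rw [List.append_assoc, hfin]
    obtain ⟨f', hf', hpath⟩ := live_R hv hlq m1
    have := S.comp h3 hpath
    rw [List.take_append_drop] at this
    exact hv i hi f' hf' _ this

theorem exists_path (hT : S.Cuts v hv a w I Z T) {τ : ℕ} (hτ : τ ∈ T) {l : List (ℕ × ℕ)}
    (hl : Loops T l) : ∀ {q : S.Q}, S.Live v τ q →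
    ∃ p g, S.out q (wrd v l) p g ∧ S.Live v τ p := by
  induction l with
  | nil =>
    intro q hq
    exact ⟨q, [], S.nil q, hq⟩
  | cons x l ih =>
    intro q hq
    obtain ⟨⟨h1, h2, h3⟩, h4⟩ := hl.cons
    have hq' := hT.live hτ h1 hq
    obtain ⟨f, hf, b, hb⟩ := hq'.2
    rw [← sg_append_drop v h3] at hb
    obtain ⟨m, g1, g2, -, k1, k2⟩ := S.split hb
    have hm : S.Live v x.2 m := ⟨reach_step h3 k1 hq'.1, f, hf, g2, k2⟩
    obtain ⟨p, g, k3, k4⟩ := ih h4 (hT.live h2 hτ hm)
    refine ⟨p, g1 ++ g, ?_, k4⟩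
    rw [wrd_cons]
    exact S.comp k1 k3

theorem not_both_H2 {x y : List (Fin 3)} {A B : ℕ} (h1 : x ++ List.replicate A 0 ++ y ∈ H2)
    (h2 : x ++ List.replicate B 0 ++ y ∈ H2) : A = B := by
  have h3 := eq_of_count h1 h2 (by simp [List.count_append, List.count_replicate])
  have := congrArg List.length h3
  simp at this
  exact this

/-- Too much shift gives a bad view. -/
theorem Win.bad (W : S.Win v hv a w I N Z X) (hT : S.Cuts v hv a w I Z T) {s0 t0 : ℕ}
    (hs : s0 ∈ T) (ht : t0 ∈ T) (hst : s0 ≤ t0) {l : List (ℕ × ℕ)} (hl : Loops T l)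
    {c : S.Q → ℕ} (hc : S.Nice v T c) (e : ℕ) (he : 0 < e)
    (htot : ∀ q, S.Live v s0 q → S.tot v l q = S.shift v s0 t0 q + e * c q)
    {q : S.Q} (hq : S.Live v s0 q) (hcq : 0 < c q) :
    v.take s0 ++ wrd v l ++ v.drop t0 ∉ S.good := by
  intro hgood
  obtain ⟨p, g, hg, hlp⟩ := exists_path hT hs hl hq
  have hlp' := hT.live hs ht hlp
  have hedge := W.key hT hs hl hg hq.1 hlp.2
  have hσ := htot p hlp
  rcases hedge with ⟨m1, m2, e1, e2, e3⟩ | ⟨m1, m2, e1, e2, e3⟩ | ⟨m1, m2, e1, e3⟩
  · have hcp := hc.1 q p e1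
    obtain ⟨i, hi, ha⟩ := live_L hv hq m1
    obtain ⟨f, hf, b, hb⟩ := hlp'.2
    have h1 := hgood i hi f hf _ (S.comp (S.comp ha hg) hb)
    obtain ⟨i', hi', ha'⟩ := live_L hv hlp' m2
    have h2 := S.comp ha' hb
    rw [List.take_append_drop] at h2
    have h3 := hv i' hi' f hf _ h2
    rw [← W.pre_shift hT hs ht hst hlp m2] at h3
    rw [e3, hσ] at h1
    have := not_both_H2 h1 h3
    have : 0 < e * c p := Nat.mul_pos he (by omega)
    omega
  · have := hc.2 q e1
    omega
  · have hcp := hc.1 q p e1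
    obtain ⟨i, hi, a', ha'⟩ := hq.1
    obtain ⟨f, hf, hb⟩ := live_R hv hlp' m2
    have h1 := hgood i hi f hf _ (S.comp (S.comp ha' hg) hb)
    obtain ⟨f', hf', hpath⟩ := live_R hv hq m1
    have h2 := S.comp ha' hpath
    rw [List.take_append_drop] at h2
    have h3 := hv i hi f' hf' _ h2
    obtain ⟨c1, -⟩ := W.monoR (hT.same s0 hs t0 ht) (hT.lo s0 hs) hst (hT.hi t0 ht) hlp m2
    rw [hσ] at e3
    have hlen := congrArg List.length e3
    simp only [List.length_append, List.length_replicate] at hlen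
    have hsh : S.shift v s0 t0 p = S.TR v s0 p - S.TR v t0 p := by
      unfold shift
      rw [m2]; simp
    have hg0 : g = List.replicate g.length 0 := by
      apply List.eq_replicate_iff.2
      refine ⟨rfl, fun b hb => ?_⟩
      have : b ∈ List.replicate (S.TR v s0 q + (S.shift v s0 t0 p + e * c p)) (0 : Fin 3) := by
        rw [← e3]; simp [hb]
      exact List.eq_of_mem_replicate this
    rw [hg0, List.append_assoc, ← List.replicate_add] at h1
    have h4 : a' ++ List.replicate (g.length + S.TR v t0 p) 0 ++ [] ∈ H2 := by simpa using h1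
    have h5 : a' ++ List.replicate (S.TR v s0 q) 0 ++ [] ∈ H2 := by simpa using h3
    have := not_both_H2 h4 h5
    have : 0 < e * c p := Nat.mul_pos he (by omega)
    omega

/-- shifts add up -/
theorem Win.shift_add (W : S.Win v hv a w I N Z X) (hT : S.Cuts v hv a w I Z T) {s t r : ℕ}
    (hs : s ∈ T) (ht : t ∈ T) (hr : r ∈ T) (hst : s ≤ t) (htr : t ≤ r) {q : S.Q}
    (hq : S.Live v s q) : S.shift v s t q + S.shift v t r q = S.shift v s r q := by
  have hq' := hT.live hs ht hq
  rcases hm : S.md q with _ | _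
  · obtain ⟨c1, -⟩ := W.monoR (hT.same s hs t ht) (hT.lo s hs) hst (hT.hi t ht) hq hm
    obtain ⟨c2, -⟩ := W.monoR (hT.same t ht r hr) (hT.lo t ht) htr (hT.hi r hr) hq' hm
    unfold shift
    rw [hm]
    simp only [Bool.false_eq_true, if_false]
    omega
  · obtain ⟨c1, -⟩ := W.monoL (hT.same s hs t ht) (hT.lo s hs) hst (hT.hi t ht) hq hm
    obtain ⟨c2, -⟩ := W.monoL (hT.same t ht r hr) (hT.lo t ht) htr (hT.hi r hr) hq' hm
    unfold shift
    rw [hm]
    simp only [if_true]
    omega

/-- The final pumping contradiction: there are not `b` disjoint loops with the same nonzero shift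
in a word of moderate length, if powers can be pumped. -/
theorem Win.contra (W : S.Win v hv a w I N Z X) (hT : S.Cuts v hv a w I Z T) {b B : ℕ}
    (hb : 1 ≤ b) {s t : ℕ → ℕ} (hs : ∀ i < b, s i ∈ T) (ht : ∀ i < b, t i ∈ T)
    (hst : ∀ i < b, s i ≤ t i) (hts : ∀ i, i + 1 < b → t i ≤ s (i + 1))
    (hB : t 0 ≤ s 0 + B)
    (hshift : ∀ i < b, ∀ q, S.Live v (s 0) q → S.shift v (s i) (t i) q = S.shift v (s 0) (t 0) q)
    {k Cp p : ℕ} (hp : 0 < p)
    (hpump : ∀ (x f y : List Y) (m : ℕ), Cp * ((x ++ rep m f ++ y).length + 1) ≤ m ^ k →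
      x ++ rep m f ++ y ∈ S.good → x ++ rep (m + p) f ++ y ∈ S.good)
    (hsize : Cp * (v.length + b * B + 1) ≤ b ^ k) {q : S.Q} (hq : S.Live v (s 0) q) :
    S.shift v (s 0) (t 0) q = 0 := by
  by_contra hne
  -- the gaps
  have hgaps : ∀ m, m < b → ∃ γ : List (ℕ × ℕ), Loops T γ ∧ s 0 ≤ t m ∧
      (wrd v γ).length ≤ t m - s 0 ∧
      ∀ q, S.Live v (s 0) q →
        (m + 1) * S.shift v (s 0) (t 0) q + S.tot v γ q = S.shift v (s 0) (t m) q := by
    intro m
    induction m with
    | zero =>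
      intro _
      exact ⟨[], fun x hx => by simp at hx, hst 0 (by omega), by simp [wrd_nil], fun q _ => by
        simp [tot_nil]⟩
    | succ m ih =>
      intro hm
      obtain ⟨γ, h1, h2, h3, h4⟩ := ih (by omega)
      have h5 := hts m hm
      have h6 := hst (m + 1) hm
      refine ⟨γ ++ [(t m, s (m + 1))], ?_, by omega, ?_, ?_⟩
      · intro x hx
        rw [List.mem_append] at hx
        rcases hx with hx | hx
        · exact h1 x hx
        · have : x = (t m, s (m + 1)) := by simpa using hx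
          subst this
          exact ⟨ht m (by omega), hs (m + 1) hm, h5⟩
      · rw [wrd_append, List.length_append, wrd_cons, wrd_nil, List.append_nil]
        have hle : (sg v (t m) (s (m + 1))).length ≤ s (m + 1) - t m := by
          unfold sg
          rw [List.length_take]
          omega
        simp only at hle ⊢
        omega
      · intro q hq
        have hq0 := hT.live (hs 0 (by omega)) (ht m (by omega)) hq
        have hq1 := hT.live (hs 0 (by omega)) (hs (m + 1) hm) hq
        have e1 := h4 q hq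
        have e2 := W.shift_add hT (hs 0 (by omega)) (ht m (by omega)) (hs (m + 1) hm) h2 h5 hq
        have e3 := W.shift_add hT (hs 0 (by omega)) (hs (m + 1) hm) (ht (m + 1) hm) (by omega) h6 hq
        have e4 := hshift (m + 1) hm q hq
        rw [tot_append, tot_cons, tot_nil]
        have e5 : (m + 1 + 1) * S.shift v (s 0) (t 0) q =
            (m + 1) * S.shift v (s 0) (t 0) q + S.shift v (s 0) (t 0) q := by ring
        simp only
        omega
  obtain ⟨m, rfl⟩ : ∃ m, b = m + 1 := ⟨b - 1, by omega⟩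
  obtain ⟨γ, h1, h2, h3, h4⟩ := hgaps m (by omega)
  have hs0 := hs 0 (by omega)
  have ht0 := ht 0 (by omega)
  have htm := ht m (by omega)
  have hst0 := hst 0 (by omega)
  have hloops : ∀ r, Loops T (List.replicate r (s 0, t 0) ++ γ) := by
    intro r x hx
    rw [List.mem_append] at hx
    rcases hx with hx | hx
    · have := List.eq_of_mem_replicate hx
      subst this
      exact ⟨hs0, ht0, hst0⟩
    · exact h1 x hx
  have hword : ∀ r, v.take (s 0) ++ wrd v (List.replicate r (s 0, t 0) ++ γ) ++ v.drop (t m) =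
      v.take (s 0) ++ rep r (sg v (s 0) (t 0)) ++ (wrd v γ ++ v.drop (t m)) := by
    intro r
    rw [wrd_append, wrd_replicate]
    simp
  have hgood := W.rearrange hT hs0 htm h2 (hloops (m + 1)) (by
    intro q hq
    rw [tot_append, tot_replicate]
    exact h4 q hq)
  rw [hword] at hgood
  have hlen : (v.take (s 0) ++ rep (m + 1) (sg v (s 0) (t 0)) ++ (wrd v γ ++ v.drop (t m))).length ≤
      v.length + (m + 1) * B := by
    simp only [List.length_append, rep_length, List.length_take, List.length_drop]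
    have e1 : (sg v (s 0) (t 0)).length ≤ B := by
      unfold sg
      rw [List.length_take]; omega
    have e2 := Nat.mul_le_mul_left (m + 1) e1
    have e3 := hT.hi _ htm
    have e4 := W.hn
    omega
  have hgood' := hpump _ _ _ _ ((Nat.mul_le_mul_left Cp (by omega)).trans hsize) hgood
  rw [← hword] at hgood'
  refine W.bad hT hs0 htm h2 (hloops _) (nice_shift hs0 ht0) p hp ?_ hq (by omega) hgood'
  intro q hq
  rw [tot_append, tot_replicate]
  have e1 := h4 q hq
  have e2 : (m + 1 + p) * S.shift v (s 0, t 0).1 (s 0, t 0).2 q =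
      (m + 1) * S.shift v (s 0) (t 0) q + p * S.shift v (s 0) (t 0) q := by ring
  omega

end MSys

end Pool.H80.Cone
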