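import Mathlib
import Pool.Agent.H80.ConeKey

/-!
Pigeonhole, choice of parameters and the main theorem.
-/

namespace Pool.H80.Cone

namespace MSys

variable {Y : Type}

/-- finite codes of cuts -/
abbrev Code (Q : Type) (I Z : ℕ) : Type :=
  (Q → Bool) × (Q → Bool) ×
  (Option Q → Bool) × (Option Q → Option Q) × (Option Q → Option Q → Fin (I + 2)) ×
  (Option Q → Bool) × (Option Q → Option Q) × (Option Q → Option Q → Fin (I + 2)) ×
  (Q → Fin 2) × (Q → Fin (Z + 2)) × (Q → Q → Fin (2 * Z + 2)) × Q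

theorem card_code_le (Q : Type) [Finite Q] {I Z x s : ℕ} (hs : s = Nat.card Q) (h1 : s + 1 ≤ x)
    (h2 : 2 * Z + 2 ≤ x) (h3 : I + 2 ≤ x) (h4 : 2 ≤ x) :
    Nat.card (Code Q I Z) ≤ x ^ (12 * (s + 1) ^ 2) := by
  have hopt : Nat.card (Option Q) = s + 1 := by rw [hs]; exact Finite.card_option
  have e1 : ∀ {m k : ℕ}, m ≤ x → m ^ k ≤ x ^ k := fun h => Nat.pow_le_pow_left h _
  unfold Code
  simp only [Nat.card_prod, Nat.card_fun, hopt, ← hs, Nat.card_eq_fintype_card (α := Bool),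
    Fintype.card_bool, Nat.card_eq_fintype_card (α := Fin _), Fintype.card_fin]
  calc _ ≤ x ^ s * (x ^ s * (x ^ (s + 1) * (x ^ (s + 1) * ((x ^ (s + 1)) ^ (s + 1) *
        (x ^ (s + 1) * (x ^ (s + 1) * ((x ^ (s + 1)) ^ (s + 1) *
        (x ^ s * (x ^ s * ((x ^ s) ^ s * x)))))))))) := by
        gcongr <;> omega
    _ = x ^ (s + (s + ((s + 1) + ((s + 1) + ((s + 1) * (s + 1) + ((s + 1) + ((s + 1) +
        ((s + 1) * (s + 1) + (s + (s + (s * s + 1))))))))))) := by
        simp only [← pow_mul, ← pow_add, ← pow_succ]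
    _ ≤ _ := by
        apply Nat.pow_le_pow_right (by omega)
        nlinarith

section code

variable (S : MSys Y) (v : List Y) (hv : v ∈ S.good) (a w I Z : ℕ) (π : ℕ → S.Q)

open Classical in
/-- the code of a cut -/
noncomputable def code (t : ℕ) : Code S.Q I Z :=
  (fun q => decide (S.Reach v t q), fun q => decide (S.Coreach v t q),
    fun q => decide ((S.driftL v hv).live t q),
    fun q => (S.driftL v hv).name a t q,
    fun q q' => ⟨min ((S.driftL v hv).pos t q - (S.driftL v hv).pos t q') (I + 1), by omega⟩,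
    fun q => decide ((S.driftR v hv).live (v.length - t) q),
    fun q => (S.driftR v hv).name (v.length - (a + w)) (v.length - t) q,
    fun q q' => ⟨min ((S.driftR v hv).pos (v.length - t) q -
      (S.driftR v hv).pos (v.length - t) q') (I + 1), by omega⟩,
    fun q => ⟨idx (S.TL v t q) % 2, Nat.mod_lt _ (by omega)⟩,
    fun q => ⟨min (lam (idx (S.TL v t q)) - S.TL v t q) (Z + 1), by omega⟩,
    fun q q' => ⟨min (S.TR v t q' + Z - idx (S.TL v t q)) (2 * Z + 1), by omega⟩, π t)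

theorem sameAt_of_code {s t : ℕ} (h : code S v hv a w I Z π s = code S v hv a w I Z π t) :
    S.SameAt v hv a w I Z s t ∧ π s = π t := by
  unfold code at h
  simp only [Prod.mk.injEq] at h
  obtain ⟨h1, h2, h3, h4, h5, h6, h7, h8, h9, h10, h11, h12⟩ := h
  refine ⟨⟨?_, ?_, ⟨?_, ?_, ?_⟩, ⟨?_, ?_, ?_⟩, ?_, ?_, ?_⟩, h12⟩
  · intro q; simpa using congrFun h1 q
  · intro q; simpa using congrFun h2 q
  · intro q; simpa using congrFun h3 q
  · intro q; exact congrFun h4 q
  · intro q q'; simpa using congrFun (congrFun h5 q) q'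
  · intro q; simpa using congrFun h6 q
  · intro q; exact congrFun h7 q
  · intro q q'; simpa using congrFun (congrFun h8 q) q'
  · intro q; simpa using congrFun h9 q
  · intro q; simpa using congrFun h10 q
  · intro q q'; simpa using congrFun (congrFun h11 q) q'

end code

/-- a word with a view that has many letters `b_1` -/
def Big (S : MSys Y) (j : ℕ) (v : List Y) : Prop :=
  v ∈ S.good ∧ ∃ i ∈ S.I, ∃ f ∈ S.F, ∃ u, S.out i v f u ∧ j ≤ u.count 1

/-- Removing a loop without any shift. -/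
theorem Win.remove {S : MSys Y} {v : List Y} {hv : v ∈ S.good} {a w I N Z X : ℕ} {T : Set ℕ}
    (W : S.Win v hv a w I N Z X) (hT : S.Cuts v hv a w I Z T) {s t : ℕ} (hs : s ∈ T) (ht : t ∈ T)
    (hst : s ≤ t) (h0 : ∀ q, S.Live v s q → S.shift v s t q = 0) {j : ℕ} {u : List (Fin 3)}
    (hu : j ≤ u.count 1) {q : S.Q}
    (hqs : ∃ i ∈ S.I, ∃ f ∈ S.F, ∃ x y, u = x ++ y ∧ S.out i (v.take s) q x ∧ S.out q (v.drop s) f y)
    (hqt : ∃ i ∈ S.I, ∃ f ∈ S.F, ∃ x y, u = x ++ y ∧ S.out i (v.take t) q x ∧ S.out q (v.drop t) f y) :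
    S.Big j (v.take s ++ v.drop t) := by
  constructor
  · have := W.rearrange hT hs ht hst (l := []) (fun x hx => by simp at hx) (by
      intro q hq
      rw [h0 q hq, tot_nil])
    simpa [wrd_nil] using this
  · obtain ⟨i, hi, f, hf, x, y, hxy, hx, hy⟩ := hqs
    obtain ⟨i', hi', f', hf', x', y', hxy', hx', hy'⟩ := hqt
    have hls : S.Live v s q := ⟨⟨i, hi, x, hx⟩, f, hf, y, hy⟩
    have hlt : S.Live v t q := ⟨⟨i', hi', x', hx'⟩, f', hf', y', hy'⟩
    have h1 := h0 q hls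
    rcases hm : S.md q with _ | _
    · obtain ⟨c1, -⟩ := W.monoR (hT.same s hs t ht) (hT.lo s hs) hst (hT.hi t ht) hls hm
      unfold shift at h1
      rw [hm] at h1
      simp only [Bool.false_eq_true, if_false] at h1
      have h2 := cut_R hv hi hf hx hy hm
      obtain ⟨f'', hf'', hp⟩ := live_R hv hlt hm
      refine ⟨i, hi, f'', hf'', u, ?_, hu⟩
      have e : S.TR v s q = S.TR v t q := by omega
      rw [← e] at hp
      rw [hxy, h2]
      exact S.comp hx hp
    · obtain ⟨c1, -⟩ := W.monoL (hT.same s hs t ht) (hT.lo s hs) hst (hT.hi t ht) hls hm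
      unfold shift at h1
      rw [hm] at h1
      simp only [if_true] at h1
      obtain ⟨h2, -⟩ := cut_L hv hi' hf' hx' hy' hm
      obtain ⟨i'', hi'', hp⟩ := live_L hv hls hm
      refine ⟨i'', hi'', f', hf', u, ?_, hu⟩
      have e : S.TL v s q = S.TL v t q := by omega
      rw [e] at hp
      rw [hxy', h2]
      exact S.comp hp hy'

/-- Inside a long window with separated scales of a minimal word one gets a contradiction to power
pumping. -/
theorem Win.final {S : MSys Y} {v : List Y} {hv : v ∈ S.good} {a w I N Z X : ℕ}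
    (W : S.Win v hv a w I N Z X) {j : ℕ} (hbig : S.Big j v)
    (hmin : ∀ v', S.Big j v' → v.length ≤ v'.length)
    {b B B' : ℕ} (hb : 1 ≤ b) (hBcode : Nat.card (Code S.Q I Z) ≤ B)
    (hB' : I + S.C * (B + 1) < B') (hw : B * B' ^ (Nat.card S.Q) * b * (B + 1) ≤ w)
    {k Cp p : ℕ} (hp : 0 < p)
    (hpump : ∀ (x f y : List Y) (m : ℕ), Cp * ((x ++ rep m f ++ y).length + 1) ≤ m ^ k →
      x ++ rep m f ++ y ∈ S.good → x ++ rep (m + p) f ++ y ∈ S.good)
    (hsize : Cp * (v.length + b * B + 1) ≤ b ^ k) : False := by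
  classical
  have := S.finQ
  have := Fintype.ofFinite S.Q
  -- the marked states
  obtain ⟨-, i0, hi0, f0, hf0, u, hu, hju⟩ := hbig
  have hπ : ∀ t, ∃ q, ∃ i ∈ S.I, ∃ f ∈ S.F, ∃ x y, u = x ++ y ∧ S.out i (v.take t) q x ∧
      S.out q (v.drop t) f y := by
    intro t
    have h1 := hu
    rw [← List.take_append_drop t v] at h1
    obtain ⟨q, x, y, hxy, h2, h3⟩ := S.split h1
    exact ⟨q, i0, hi0, f0, hf0, x, y, hxy, h2, h3⟩
  choose π hπ using hπ
  set cd := code S v hv a w I Z π with hcd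
  -- loops inside the blocks
  have hblock : ∀ m : ℕ, ∃ s t, a + m * (B + 1) ≤ s ∧ s < t ∧ t ≤ a + m * (B + 1) + B ∧
      cd s = cd t := by
    intro m
    obtain ⟨x, hx, y, hy, hne, hxy⟩ := Finset.exists_ne_map_eq_of_card_lt_of_maps_to
      (s := Finset.Icc (a + m * (B + 1)) (a + m * (B + 1) + B))
      (t := (Finset.univ : Finset (Code S.Q I Z))) (f := cd) (by
        rw [Nat.card_Icc, Finset.card_univ, ← Nat.card_eq_fintype_card]
        omega) (fun _ _ => Finset.mem_coe.2 (Finset.mem_univ _))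
    rw [Finset.mem_Icc] at hx hy
    rcases lt_or_gt_of_ne hne with h | h
    · exact ⟨x, y, hx.1, h, hy.2, hxy⟩
    · exact ⟨y, x, hy.1, h, hx.2, hxy.symm⟩
  choose s t hs1 hst ht1 hcode using hblock
  -- classes of blocks
  set J := B * B' ^ (Nat.card S.Q) * b with hJ
  have hB'pos : 0 < B' := by omega
  let cls : ℕ → Code S.Q I Z × (S.Q → Fin B') := fun m =>
    (cd (s m), fun q => ⟨min (S.shift v (s m) (t m) q) (B' - 1), by omega⟩)
  obtain ⟨κ, -, hκ⟩ := Finset.exists_le_card_fiber_of_mul_le_card_of_maps_to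
    (s := Finset.range J) (t := (Finset.univ : Finset (Code S.Q I Z × (S.Q → Fin B')))) (f := cls)
    (n := b) (fun _ _ => Finset.mem_univ _) ⟨cls 0, Finset.mem_univ _⟩ (by
      rw [Finset.card_univ, ← Nat.card_eq_fintype_card, Nat.card_prod, Nat.card_fun,
        Nat.card_eq_fintype_card (α := Fin B'), Fintype.card_fin, Finset.card_range, hJ]
      gcongr)
  set F := (Finset.range J).filter (fun x => cls x = κ) with hF
  obtain ⟨b, rfl⟩ : ∃ b', b = b' + 1 := ⟨b - 1, by omega⟩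
  let em : Fin (b + 1) ↪o ℕ := F.orderEmbOfCardLe hκ
  let e : ℕ → ℕ := fun i => em ⟨min i b, by omega⟩
  have heF : ∀ i, e i ∈ F := fun i => Finset.orderEmbOfCardLe_mem F hκ _
  have heJ : ∀ i, e i < J := fun i => by
    have := heF i
    rw [hF, Finset.mem_filter, Finset.mem_range] at this
    exact this.1
  have hecls : ∀ i, cls (e i) = κ := fun i => by
    have := heF i
    rw [hF, Finset.mem_filter] at this
    exact this.2
  have hemono : ∀ i, i + 1 < b + 1 → e i < e (i + 1) := by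
    intro i hi
    apply em.strictMono
    rw [Fin.lt_def]
    simp only
    omega
  have hblk : ∀ m, m < J → m * (B + 1) + (B + 1) ≤ w := by
    intro m hm
    calc m * (B + 1) + (B + 1) = (m + 1) * (B + 1) := by ring
      _ ≤ J * (B + 1) := Nat.mul_le_mul_right _ hm
      _ ≤ w := hw
  -- the set of cuts
  let T : Set ℕ := {r | a ≤ r ∧ r ≤ a + w ∧ cd r = κ.1}
  have hT : S.Cuts v hv a w I Z T := by
    refine ⟨fun r hr => hr.1, fun r hr => hr.2.1, fun r hr r' hr' => ?_⟩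
    exact (sameAt_of_code S v hv a w I Z π (hr.2.2.trans hr'.2.2.symm)).1
  have hcd1 : ∀ i, cd (s (e i)) = κ.1 := fun i => congrArg Prod.fst (hecls i)
  have hsT : ∀ i, s (e i) ∈ T := by
    intro i
    have h1 := hs1 (e i)
    have h2 := hst (e i)
    have h3 := ht1 (e i)
    have h4 := hblk _ (heJ i)
    exact ⟨by omega, by omega, hcd1 i⟩
  have htT : ∀ i, t (e i) ∈ T := by
    intro i
    have h1 := hs1 (e i)
    have h2 := hst (e i)
    have h3 := ht1 (e i)
    have h4 := hblk _ (heJ i)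
    exact ⟨by omega, by omega, (hcode (e i)).symm.trans (hcd1 i)⟩
  -- the shifts
  have hbound : ∀ i q, S.Live v (s (e 0)) q → S.shift v (s (e i)) (t (e i)) q ≤ B' - 1 := by
    intro i q hq
    have hq' := hT.live (hsT 0) (hsT i) hq
    have h1 := hs1 (e i)
    have h2 := hst (e i)
    have h3 := ht1 (e i)
    have hm := Nat.mul_le_mul_left S.C (show t (e i) - s (e i) + 1 ≤ B + 1 by omega)
    have hsame := hT.same _ (hsT i) _ (htT i)
    unfold shift
    rcases hmd : S.md q with _ | _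
    · obtain ⟨-, c2⟩ := W.monoR hsame (hT.lo _ (hsT i)) h2.le (hT.hi _ (htT i)) hq' hmd
      simp only [Bool.false_eq_true, if_false]
      omega
    · obtain ⟨-, c2⟩ := W.monoL hsame (hT.lo _ (hsT i)) h2.le (hT.hi _ (htT i)) hq' hmd
      simp only [if_true]
      omega
  have hshift : ∀ i q, S.Live v (s (e 0)) q →
      S.shift v (s (e i)) (t (e i)) q = S.shift v (s (e 0)) (t (e 0)) q := by
    intro i q hq
    have h1 := congrArg Prod.snd ((hecls i).trans (hecls 0).symm)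
    have h2 := congrArg Fin.val (congrFun h1 q)
    simp only [cls] at h2
    have h3 := hbound i q hq
    have h4 := hbound 0 q hq
    omega
  have hzero : ∀ q, S.Live v (s (e 0)) q → S.shift v (s (e 0)) (t (e 0)) q = 0 := by
    intro q hq
    refine W.contra hT (b := b + 1) (B := B) hb (s := fun i => s (e i)) (t := fun i => t (e i))
      (fun i _ => hsT i) (fun i _ => htT i) (fun i _ => (hst (e i)).le) ?_ ?_
      (fun i _ q hq => hshift i q hq) hp hpump hsize hq
    · intro i hi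
      have h1 := hemono i hi
      have h2 := ht1 (e i)
      have h3 := hs1 (e (i + 1))
      have h4 : (e i + 1) * (B + 1) ≤ e (i + 1) * (B + 1) := Nat.mul_le_mul_right _ h1
      have h5 : (e i + 1) * (B + 1) = e i * (B + 1) + B + 1 := by ring
      show t (e i) ≤ s (e (i + 1))
      omega
    · have h2 := ht1 (e 0)
      have h3 := hs1 (e 0)
      show t (e 0) ≤ s (e 0) + B
      omega
  have hπe : π (s (e 0)) = π (t (e 0)) := (sameAt_of_code S v hv a w I Z π (hcode (e 0))).2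
  have hrem := W.remove hT (hsT 0) (htT 0) (hst (e 0)).le hzero hju (q := π (s (e 0)))
    (hπ _) (by rw [hπe]; exact hπ _)
  have := hmin _ hrem
  rw [List.length_append, List.length_take, List.length_drop] at this
  have h2 := hst (e 0)
  have h3 := hT.hi _ (htT 0)
  have h4 := W.hn
  omega

/-- arithmetic of the parameters -/
theorem params {b C s E K A I N x B B' w : ℕ} (hE : 1 ≤ E) (hA : A = 12 * (s + 1) ^ 2)
    (hK : K = 6 * (s + 2) * A + 2 * s + 7) (hb1 : 12 * C + 12 ≤ b) (hb2 : s + 1 ≤ b)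
    (hI : I = b ^ (E + 1)) (hN : N = b ^ (K * E - 1)) (hx : x = b ^ (E + 2)) (hB : B = x ^ A)
    (hB' : B' = b * B) (hw : w = B * B' ^ s * b * (B + 1)) :
    1 ≤ I ∧ s + 1 ≤ x ∧ 2 * (I + 2 * C + 2) + 2 ≤ x ∧ I + 2 ≤ x ∧ 2 ≤ x ∧
    I + C * (B + 1) < B' ∧ b * B ≤ w ∧ 4 * C * (w + 2) + 2 * I + 10 ≤ b * w ∧
    (b * w) ^ 2 ≤ N ∧ w + 2 * b ^ E ≤ b ^ (K * E) := by
  have hbpos : 0 < b := by omega
  have hI1 : 1 ≤ I := by rw [hI]; exact Nat.one_le_pow _ _ hbpos
  have hxI : x = b * I := by rw [hx, hI, ← pow_succ']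
  have hA1 : 1 ≤ A := by
    rw [hA]
    have : 1 ≤ (s + 1) ^ 2 := Nat.one_le_pow _ _ (by omega)
    omega
  have hx1 : (12 * C + 12) * I ≤ x := by rw [hxI]; exact Nat.mul_le_mul_right _ hb1
  have hx1' : (12 * C + 12) * I = 12 * (C * I) + 12 * I := by ring
  have hCI : C ≤ C * I := Nat.le_mul_of_pos_right _ hI1
  have hbx : b ≤ x := by rw [hxI]; exact Nat.le_mul_of_pos_right _ hI1
  have hxB : x ≤ B := by
    rw [hB]
    exact Nat.le_self_pow (by omega) x
  have hB1 : 1 ≤ B := by omega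
  have hCB : (12 * C + 12) * B ≤ b * B := Nat.mul_le_mul_right _ hb1
  have hCB' : (12 * C + 12) * B = 12 * (C * B) + 12 * B := by ring
  have hCC : C ≤ C * B := Nat.le_mul_of_pos_right _ hB1
  have hCB1 : C * (B + 1) = C * B + C := by ring
  have hB'1 : 1 ≤ B' := by rw [hB']; exact Nat.mul_pos hbpos hB1
  have hBs : 1 ≤ B' ^ s := Nat.one_le_pow _ _ hB'1
  have hw1 : b * B ≤ w := by
    rw [hw]
    calc b * B = B * 1 * b * 1 := by ring
      _ ≤ B * B' ^ s * b * (B + 1) := by gcongr; omega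
  have hw2 : B ≤ w := le_trans (Nat.le_mul_of_pos_left _ hbpos) hw1
  have hCw : (12 * C + 12) * w ≤ b * w := Nat.mul_le_mul_right _ hb1
  have hCw' : (12 * C + 12) * w = 12 * (C * w) + 12 * w := by ring
  have hCw1 : 4 * C * (w + 2) = 4 * (C * w) + 8 * C := by ring
  have hCC' : C ≤ C * w := Nat.le_mul_of_pos_right _ (by omega)
  -- upper bound for `w`
  have hw3 : b * w ≤ b ^ (s + 3 + (s + 2) * (A * (E + 2))) := by
    have e1 : B + 1 ≤ b * B := by omega
    have e2 : B = b ^ (A * (E + 2)) := by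
      rw [hB, hx, ← pow_mul]; congr 1; ring
    calc b * w ≤ b * (B * (b * B) ^ s * b * (b * B)) := by
          rw [hw, hB']; gcongr
      _ = b ^ (s + 3) * B ^ (s + 2) := by ring
      _ = b ^ (s + 3 + (s + 2) * (A * (E + 2))) := by
          rw [e2, ← pow_mul, ← pow_add]; congr 1; ring
  have hexp : 2 * (s + 3 + (s + 2) * (A * (E + 2))) + 1 ≤ K * E := by
    have e1 : (s + 2) * (A * (E + 2)) ≤ (s + 2) * (A * (3 * E)) := by gcongr; omega
    have e2 : 2 * s + 7 ≤ (2 * s + 7) * E := Nat.le_mul_of_pos_right _ hE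
    have e3 : K * E = 2 * ((s + 2) * (A * (3 * E))) + (2 * s + 7) * E := by rw [hK]; ring
    omega
  have hsq : (b * w) ^ 2 ≤ N := by
    rw [hN]
    calc (b * w) ^ 2 ≤ (b ^ (s + 3 + (s + 2) * (A * (E + 2)))) ^ 2 := Nat.pow_le_pow_left hw3 2
      _ = b ^ (2 * (s + 3 + (s + 2) * (A * (E + 2)))) := by rw [← pow_mul, Nat.mul_comm]
      _ ≤ _ := Nat.pow_le_pow_right hbpos (by omega)
  have hlast : w + 2 * b ^ E ≤ b ^ (K * E) := by
    have e1 : 2 * b ^ E ≤ I := by
      rw [hI, pow_succ', ]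
      exact Nat.mul_le_mul_right _ (by omega)
    have e2 : w ≤ b * w := Nat.le_mul_of_pos_left _ hbpos
    have e3 : 2 * (b * w) ≤ (b * w) ^ 2 := by
      rw [sq]; exact Nat.mul_le_mul_right _ (by omega)
    have e4 : N ≤ b ^ (K * E) := by rw [hN]; exact Nat.pow_le_pow_right hbpos (by omega)
    omega
  refine ⟨hI1, by omega, by omega, by omega, by omega, by omega, hw1, by omega, hsq, hlast⟩

theorem exists_root {e n : ℕ} (he : 1 ≤ e) : ∃ b, b ^ e ≤ n ∧ n < (b + 1) ^ e := by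
  induction n with
  | zero => exact ⟨0, by simp; omega, by simp⟩
  | succ n ih =>
    obtain ⟨b, h1, h2⟩ := ih
    by_cases h : n + 1 < (b + 1) ^ e
    · exact ⟨b, by omega, h⟩
    · refine ⟨b + 1, by omega, ?_⟩
      have : (b + 1) ^ e < (b + 1 + 1) ^ e := Nat.pow_lt_pow_left (by omega) (by omega)
      omega

/-- Main theorem: if powers can be pumped then views are bounded. -/
theorem main (S : MSys Y) : ∃ D : ℕ, ∀ k Cp p : ℕ, D ≤ k → 0 < p →
    (∀ (x f y : List Y) (m : ℕ), Cp * ((x ++ rep m f ++ y).length + 1) ≤ m ^ k →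
      x ++ rep m f ++ y ∈ S.good → x ++ rep (m + p) f ++ y ∈ S.good) →
    ∃ j, ∀ v, ¬ S.Big j v := by
  have hfin := S.finQ
  obtain ⟨s, hs⟩ : ∃ s, s = Nat.card S.Q := ⟨_, rfl⟩
  obtain ⟨A, hA⟩ : ∃ A, A = 12 * (s + 1) ^ 2 := ⟨_, rfl⟩
  obtain ⟨K, hK⟩ : ∃ K, K = 6 * (s + 2) * A + 2 * s + 7 := ⟨_, rfl⟩
  obtain ⟨M, hM⟩ : ∃ M, M = 2 * (s + 1) ^ 2 + 1 := ⟨_, rfl⟩
  obtain ⟨e0, he0⟩ : ∃ e0, e0 = K ^ M := ⟨_, rfl⟩
  refine ⟨e0 + 1, fun k Cp p hk hp hpump => ?_⟩
  obtain ⟨b0, hb0⟩ : ∃ b0, b0 = 12 * S.C + 12 + s + 1 + Cp * 3 * 2 ^ e0 := ⟨_, rfl⟩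
  refine ⟨S.C * (b0 ^ e0 + 1) + 1, fun v0 hv0 => ?_⟩
  -- a shortest word
  obtain ⟨v, hv1, hmin⟩ : ∃ v, S.Big (S.C * (b0 ^ e0 + 1) + 1) v ∧
      ∀ v', S.Big (S.C * (b0 ^ e0 + 1) + 1) v' → v.length ≤ v'.length := by
    obtain ⟨v, hv, hm⟩ := WellFounded.has_min (measure (List.length (α := Y))).wf
      {v | S.Big (S.C * (b0 ^ e0 + 1) + 1) v} ⟨v0, hv0⟩
    refine ⟨v, hv, fun v' hv' => ?_⟩
    have := hm v' hv'
    change ¬ (v'.length < v.length) at this
    omega
  have hv : v ∈ S.good := hv1.1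
  have hKpos : 4 ≤ K := by omega
  have he01 : 1 ≤ e0 := by rw [he0]; exact Nat.one_le_pow _ _ (by omega)
  -- the length is large
  have hn0 : b0 ^ e0 ≤ v.length := by
    by_contra hcon
    push Not at hcon
    obtain ⟨-, i, hi, f, hf, u, hu, hju⟩ := hv1
    have h1 := S.bound (α := []) (z := v) (β := []) (by simpa [good] using hv) hi hf (S.nil i) hu (S.nil f)
    have h2 := List.count_le_length (a := (1 : Fin 3)) (l := u)
    have h3 := Nat.mul_le_mul_left S.C (show v.length + 1 ≤ b0 ^ e0 + 1 by omega)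
    omega
  obtain ⟨b, hb1, hb2⟩ := exists_root (e := e0) (n := v.length) he01
  have hbb0 : b0 ≤ b := by
    by_contra hcon
    push Not at hcon
    have := Nat.pow_le_pow_left (show b + 1 ≤ b0 by omega) e0
    omega
  have hopt : Nat.card (Option S.Q) = s + 1 := by rw [hs]; exact Finite.card_option
  obtain ⟨r, a, hrM, ha1, ha2, hdich⟩ := Drift.exists_window (S.driftL v hv) (S.driftR v hv) rfl rfl
    (b := b) (K := K) hKpos (show 4 * S.C + 4 ≤ b by omega) M (by rw [hopt, hM]; omega)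
    (by rw [← he0]; exact hb1)
  obtain ⟨E, hE⟩ : ∃ E, E = K ^ r := ⟨_, rfl⟩
  have hE1 : 1 ≤ E := by rw [hE]; exact Nat.one_le_pow _ _ (by omega)
  have hKE : K ^ (r + 1) = K * E := by rw [hE, pow_succ']
  rw [← hE, hKE] at hdich
  rw [hKE, ← hE] at ha2
  obtain ⟨I, hI⟩ : ∃ I, I = b ^ (E + 1) := ⟨_, rfl⟩
  obtain ⟨N, hN⟩ : ∃ N, N = b ^ (K * E - 1) := ⟨_, rfl⟩
  obtain ⟨x, hx⟩ : ∃ x, x = b ^ (E + 2) := ⟨_, rfl⟩
  obtain ⟨B, hB⟩ : ∃ B, B = x ^ A := ⟨_, rfl⟩
  obtain ⟨B', hB'⟩ : ∃ B', B' = b * B := ⟨_, rfl⟩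
  obtain ⟨w, hw⟩ : ∃ w, w = B * B' ^ s * b * (B + 1) := ⟨_, rfl⟩
  obtain ⟨q1, q2, q3, q4, q5, q6, q7, q8, q9, q10⟩ := params (C := S.C) hE1 hA hK (by omega)
    (by omega) hI hN hx hB hB' hw
  rw [← hI, ← hN] at hdich
  have hnL : (S.driftL v hv).n = v.length := rfl
  rw [hnL] at hdich ha2
  have hwn : a + w ≤ v.length := by omega
  have W : S.Win v hv a w I N (I + 2 * S.C + 2) (b * w) := by
    refine ⟨hwn, fun t h1 h2 => (hdich t h1 (by omega)).1,
      fun t h1 h2 => (hdich t h1 (by omega)).2, q9, q8, le_rfl⟩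
  refine W.final hv1 hmin (b := b) (B := B) (B' := B') (by omega) ?_ q6 ?_ hp hpump ?_
  · rw [hB, hA]
    exact card_code_le S.Q hs q2 q3 q4 q5
  · rw [← hs, hw]
  · -- size
    have h1 : v.length + b * B + 1 ≤ 3 * v.length := by
      have : 1 ≤ b * B := by
        rw [← hB']; omega
      omega
    have h2 : v.length ≤ 2 ^ e0 * b ^ e0 := by
      rw [← Nat.mul_pow]
      have : (b + 1) ^ e0 ≤ (2 * b) ^ e0 := Nat.pow_le_pow_left (by omega) _
      omega
    calc Cp * (v.length + b * B + 1) ≤ Cp * (3 * (2 ^ e0 * b ^ e0)) := by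
          apply Nat.mul_le_mul_left; omega
      _ = (Cp * 3 * 2 ^ e0) * b ^ e0 := by ring
      _ ≤ b * b ^ e0 := Nat.mul_le_mul_right _ (by omega)
      _ = b ^ (e0 + 1) := by rw [pow_succ']
      _ ≤ b ^ k := Nat.pow_le_pow_right (by omega) hk

end MSys

end Pool.H80.Cone
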